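import Pool.Agent.Lib.MP_1a66bd_gt.Defs

/-!
# The mixed Pfaffian is an alternating top form
-/

set_option autoImplicit false

noncomputable section

namespace Pool.Agent.MP1a66bd

open Finset

variable {K E : Type*} [Fintype K] [DecidableEq K]

private theorem alt_inl [AddCommGroup E] [Module ℝ E] (B : K → E →ₗ[ℝ] E →ₗ[ℝ] ℝ)
    (x : K ⊕ K → E) (k : K) (a : E) :
    ∏ i, B i (Function.update x (Sum.inl k) a (Sum.inl i))
      (Function.update x (Sum.inl k) a (Sum.inr i)) =
    B k a (x (Sum.inr k)) * ∏ i ∈ univ.erase k, B i (x (Sum.inl i)) (x (Sum.inr i)) := by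
  rw [← Finset.mul_prod_erase univ _ (mem_univ k), Function.update_self,
    Function.update_of_ne (by simp)]
  congr 1
  refine Finset.prod_congr rfl fun i hi => ?_
  rw [Function.update_of_ne (by simpa using (Finset.mem_erase.1 hi).1),
    Function.update_of_ne (by simp)]

private theorem alt_inr [AddCommGroup E] [Module ℝ E] (B : K → E →ₗ[ℝ] E →ₗ[ℝ] ℝ)
    (x : K ⊕ K → E) (k : K) (a : E) :
    ∏ i, B i (Function.update x (Sum.inr k) a (Sum.inl i))
      (Function.update x (Sum.inr k) a (Sum.inr i)) =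
    B k (x (Sum.inl k)) a * ∏ i ∈ univ.erase k, B i (x (Sum.inl i)) (x (Sum.inr i)) := by
  rw [← Finset.mul_prod_erase univ _ (mem_univ k), Function.update_self,
    Function.update_of_ne (by simp)]
  congr 1
  refine Finset.prod_congr rfl fun i hi => ?_
  rw [Function.update_of_ne (by simp),
    Function.update_of_ne (by simpa using (Finset.mem_erase.1 hi).1)]

/-- The multilinear map of the product. -/
private def altM [AddCommGroup E] [Module ℝ E] (B : K → E →ₗ[ℝ] E →ₗ[ℝ] ℝ) :
    MultilinearMap ℝ (fun _ : K ⊕ K => E) ℝ where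
  toFun x := ∏ i, B i (x (Sum.inl i)) (x (Sum.inr i))
  map_update_add' := by
    intro inst x s a b
    have hinst : inst = instDecidableEqSum := Subsingleton.elim _ _
    subst hinst
    rcases s with k | k
    · rw [alt_inl, alt_inl, alt_inl, map_add, LinearMap.add_apply, add_mul]
    · rw [alt_inr, alt_inr, alt_inr, map_add, add_mul]
  map_update_smul' := by
    intro inst x s c a
    have hinst : inst = instDecidableEqSum := Subsingleton.elim _ _
    subst hinst
    rcases s with k | k
    · rw [alt_inl, alt_inl, map_smul, LinearMap.smul_apply, smul_eq_mul, smul_eq_mul, mul_assoc]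
    · rw [alt_inr, alt_inr, map_smul, smul_eq_mul, smul_eq_mul, mul_assoc]

private theorem altM_apply [AddCommGroup E] [Module ℝ E] (B : K → E →ₗ[ℝ] E →ₗ[ℝ] ℝ)
    (x : K ⊕ K → E) : altM B x = ∏ i, B i (x (Sum.inl i)) (x (Sum.inr i)) := rfl

private theorem altM_alt [AddCommGroup E] [Module ℝ E] (B : K → E →ₗ[ℝ] E →ₗ[ℝ] ℝ)
    (x : K ⊕ K → E) :
    MultilinearMap.alternatization (altM B) x = Wd (fun i y z => B i y z) x := by
  rw [MultilinearMap.alternatization_apply]
  unfold Wd
  refine Finset.sum_congr rfl fun σ _ => ?_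
  rw [MultilinearMap.domDomCongr_apply, altM_apply, Units.smul_def, zsmul_eq_mul]

/-- `x ↦ Wd B x` is the alternatization of the multilinear map
`x ↦ ∏ i, B i (x (inl i)) (x (inr i))` (`MultilinearMap.alternatization_apply`), hence a multiple of
the determinant (`AlternatingMap.eq_smul_basis_det`). -/
theorem Wd_det [AddCommGroup E] [Module ℝ E] (B : K → E →ₗ[ℝ] E →ₗ[ℝ] ℝ)
    (b : Module.Basis (K ⊕ K) ℝ E) (x : K ⊕ K → E) :
    Wd (fun i y z => B i y z) x = b.det x * Wd (fun i y z => B i y z) b := by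
  rw [← altM_alt, ← altM_alt]
  have h := AlternatingMap.eq_smul_basis_det b (MultilinearMap.alternatization (altM B))
  have h1 := DFunLike.congr_fun h x
  rw [AlternatingMap.smul_apply, smul_eq_mul] at h1
  rw [h1, mul_comm]

/-- `Wd_det` with `x = g ∘ b`, and `b.det (g ∘ b) = LinearMap.det g`. -/
theorem Wd_map [AddCommGroup E] [Module ℝ E] (B : K → E →ₗ[ℝ] E →ₗ[ℝ] ℝ)
    (b : Module.Basis (K ⊕ K) ℝ E) (g : E →ₗ[ℝ] E) :
    Wd (fun i y z => B i (g y) (g z)) b = LinearMap.det g * Wd (fun i y z => B i y z) b := by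
  have h1 : Wd (fun i y z => B i (g y) (g z)) b = Wd (fun i y z => B i y z) (g ∘ b) := rfl
  have h2 : b.det (g ∘ b) = LinearMap.det g := by
    rw [Module.Basis.det_comp, Module.Basis.det_self, mul_one]
  rw [h1, Wd_det B b, h2]

/-- Reindex the sum by `σ ↦ σ * swap (inl i) (inr i)`. -/
theorem Wd_swap (B : K → E → E → ℝ) (x : K ⊕ K → E) (i : K) :
    Wd (Function.update B i fun y z => B i z y) x = -Wd B x := by
  unfold Wd
  rw [← Finset.sum_neg_distrib]
  refine (Fintype.sum_equiv (Equiv.mulRight (Equiv.swap (Sum.inl i) (Sum.inr i))) _ _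
    fun σ => ?_).symm
  rw [Equiv.coe_mulRight, map_mul, Equiv.Perm.sign_swap (by simp), mul_neg, mul_one,
    Units.val_neg, Int.cast_neg, neg_mul]
  congr 2
  refine Finset.prod_congr rfl fun k _ => ?_
  rw [Equiv.Perm.mul_apply, Equiv.Perm.mul_apply]
  by_cases hk : k = i
  · subst hk
    rw [Function.update_self, Equiv.swap_apply_left, Equiv.swap_apply_right]
  · rw [Function.update_of_ne hk, Equiv.swap_apply_of_ne_of_ne (by simpa using hk) (by simp),
      Equiv.swap_apply_of_ne_of_ne (by simp) (by simpa using hk)]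

private theorem alt_prod (B : K → E → E → ℝ) (x : K ⊕ K → E) (i : K) (C : E → E → ℝ) :
    ∏ k, Function.update B i C k (x (Sum.inl k)) (x (Sum.inr k)) =
      C (x (Sum.inl i)) (x (Sum.inr i)) *
        ∏ k ∈ univ.erase i, B k (x (Sum.inl k)) (x (Sum.inr k)) := by
  rw [← Finset.mul_prod_erase univ _ (mem_univ i), Function.update_self]
  congr 1
  refine Finset.prod_congr rfl fun k hk => ?_
  rw [Function.update_of_ne (Finset.mem_erase.1 hk).1]

/-- The mixed Pfaffian is linear in the slot `i`. -/
theorem Wd_update_add (B : K → E → E → ℝ) (x : K ⊕ K → E) (i : K) (C D : E → E → ℝ) :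
    Wd (Function.update B i fun y z => C y z + D y z) x =
      Wd (Function.update B i C) x + Wd (Function.update B i D) x := by
  unfold Wd
  rw [← Finset.sum_add_distrib]
  refine Finset.sum_congr rfl fun σ _ => ?_
  have h1 := alt_prod B (fun s => x (σ s)) i fun y z => C y z + D y z
  have h2 := alt_prod B (fun s => x (σ s)) i C
  have h3 := alt_prod B (fun s => x (σ s)) i D
  rw [h1, h2, h3, add_mul, mul_add]

theorem Wd_update_smul (B : K → E → E → ℝ) (x : K ⊕ K → E) (i : K) (c : ℝ) (C : E → E → ℝ) :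
    Wd (Function.update B i fun y z => c * C y z) x = c * Wd (Function.update B i C) x := by
  unfold Wd
  rw [Finset.mul_sum]
  refine Finset.sum_congr rfl fun σ _ => ?_
  have h1 := alt_prod B (fun s => x (σ s)) i fun y z => c * C y z
  have h2 := alt_prod B (fun s => x (σ s)) i C
  rw [h1, h2]
  ring

end Pool.Agent.MP1a66bd
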