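import Pool.Agent.Lib.MP_1a66bd_gt.Invc

/-!
# Averaging over right translations
-/

set_option autoImplicit false

noncomputable section

namespace Pool.Agent.MP1a66bd

open MeasureTheory Finset

variable {j : ℕ} [NeZero j]

/-- `avf` is a mean value over `g` -/
theorem avf_eq (B : Cov j → Bil j) (p x y : Cov j) :
    avf B p x y = Mean (fun g => pull g B p x y) := rfl

omit [NeZero j] in
private theorem avg_cont1 {P : Type*} [TopologicalSpace P] [FirstCountableTopology P]
    [LocallyCompactSpace P] {H : P → Vec j → ℝ}
    (hH : Continuous fun q : P × Vec j => H q.1 q.2) :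
    Continuous fun p => ∫ w in Bx j, H p w := by
  have hK : IsCompact (closure (Bx j)) := bx_bdd.isCompact_closure
  have hfin : volume (Bx j) < ⊤ := by
    rw [bx_vol]
    exact ENNReal.one_lt_top
  have : IsFiniteMeasure (volume.restrict (Bx j)) := ⟨by
    rw [Measure.restrict_apply_univ]
    exact hfin⟩
  have h1 := continuous_parametric_integral_of_continuous (μ := volume.restrict (Bx j))
    (f := H) hH hK
  have h2 : (volume.restrict (Bx j)).restrict (closure (Bx j)) =
      (volume.restrict (Bx j) : Measure (Vec j)) := by
    rw [Measure.restrict_restrict hK.isClosed.measurableSet,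
      Set.inter_eq_self_of_subset_right subset_closure]
  rw [h2] at h1
  exact h1

omit [NeZero j] in
private theorem avg_cont2 {P : Type*} [TopologicalSpace P] [FirstCountableTopology P]
    [LocallyCompactSpace P] {H : P → Cov j → ℝ}
    (hH : Continuous fun q : P × Cov j => H q.1 q.2) :
    Continuous fun p => Mean (H p) := by
  unfold Mean
  refine avg_cont1 (H := fun p v => ∫ w in Bx j, H p (v, w)) ?_
  refine avg_cont1 (P := P × Vec j) (H := fun q w => H q.1 (q.2, w)) ?_
  exact hH.comp (f := fun q : (P × Vec j) × Vec j => (q.1.1, ((q.1.2, q.2) : Cov j)))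
    (by fun_prop)

private theorem avg_pull {X : Type*} [TopologicalSpace X] {B : Cov j → Bil j}
    (hB : Continuous B) {a p : X → Cov j} (ha : Continuous a) (hp : Continuous p)
    (x y : Cov j) : Continuous fun q => pull (a q) B (p q) x y := by
  have h1 : Continuous fun q => pull (a q) B (p q) := (pull_cont hB).comp₂ ha hp
  have h2 : Continuous fun q => pull (a q) B (p q) x := h1.clm_apply continuous_const
  exact h2.clm_apply continuous_const

private theorem avg_avf {B : Cov j → Bil j} (hB : Continuous B) (x y : Cov j) :
    Continuous fun p => Mean (fun g => pull g B p x y) :=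
  avg_cont2 (H := fun p g => pull g B p x y) (avg_pull hB continuous_snd continuous_fst x y)

theorem avf_cont {B : Cov j → Bil j} (hB : Continuous B) (x y : Cov j) :
    Continuous fun p => avf B p x y := by
  simp only [avf_eq]
  exact avg_avf hB x y

omit [NeZero j] in
private theorem avg_wd {K E : Type*} [Fintype K] [DecidableEq K] (C : K → E → E → ℝ) (i₀ : K)
    (h : E → E → ℝ) (x : K ⊕ K → E) :
    Wd (Function.update C i₀ h) x = ∑ σ : Equiv.Perm (K ⊕ K),
      (((Equiv.Perm.sign σ : ℤ) : ℝ) * ∏ i ∈ Finset.univ.erase i₀,
        C i (x (σ (Sum.inl i))) (x (σ (Sum.inr i)))) *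
        h (x (σ (Sum.inl i₀))) (x (σ (Sum.inr i₀))) := by
  unfold Wd
  refine Finset.sum_congr rfl fun σ _ => ?_
  rw [mul_assoc, ← Finset.prod_erase_mul _ _ (Finset.mem_univ i₀), Function.update_self]
  have h1 : ∏ i ∈ Finset.univ.erase i₀,
      Function.update C i₀ h i (x (σ (Sum.inl i))) (x (σ (Sum.inr i))) =
      ∏ i ∈ Finset.univ.erase i₀, C i (x (σ (Sum.inl i))) (x (σ (Sum.inr i))) := by
    refine Finset.prod_congr rfl fun i hi => ?_
    rw [Function.update_of_ne (Finset.ne_of_mem_erase hi)]
  rw [h1]

private theorem avg_lin {K E : Type*} [Fintype K] [DecidableEq K] (C : K → E → E → ℝ) (i₀ : K)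
    (H : Cov j → E → E → ℝ) (hH : ∀ x y, Continuous fun a => H a x y) (x : K ⊕ K → E) :
    Mean (fun a => Wd (Function.update C i₀ (H a)) x) =
      Wd (Function.update C i₀ (fun u w => Mean fun a => H a u w)) x := by
  rw [avg_wd]
  simp only [avg_wd]
  rw [mean_sum]
  · exact Finset.sum_congr rfl fun σ _ => mean_smul _ _
  · intro σ _
    exact continuous_const.mul (hH _ _)

omit [NeZero j] in
private theorem avg_wd_cont {X K E : Type*} [TopologicalSpace X] [Fintype K] [DecidableEq K]
    {C : X → K → E → E → ℝ} (hC : ∀ i x y, Continuous fun q => C q i x y) (x : K ⊕ K → E) :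
    Continuous fun q => Wd (C q) x := by
  unfold Wd
  refine continuous_finsetSum _ fun σ _ => continuous_const.mul ?_
  exact continuous_finsetProd _ fun i _ => hC i _ _

private theorem avg_step {K E : Type*} [Fintype K] [DecidableEq K]
    (C : Cov j → K → E → E → ℝ) (H : Cov j → Cov j → E → E → ℝ) (i₀ : K) (x : K ⊕ K → E)
    (hC : ∀ i u w, Continuous fun p => C p i u w)
    (hH : ∀ u w, Continuous fun q : Cov j × Cov j => H q.1 q.2 u w) (c : ℝ)
    (h : ∀ a, Mean (fun p => Wd (Function.update (C p) i₀ (H a p)) x) = c) :
    Mean (fun p => Wd (Function.update (C p) i₀ (fun u w => Mean fun a => H a p u w)) x) = c := by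
  have hsw : ∀ u w, Continuous fun q : Cov j × Cov j => H q.2 q.1 u w := fun u w =>
    (hH u w).comp₂ continuous_snd continuous_fst
  have h1 : ∀ p, Wd (Function.update (C p) i₀ (fun u w => Mean fun a => H a p u w)) x =
      Mean (fun a => Wd (Function.update (C p) i₀ (H a p)) x) := by
    intro p
    rw [avg_lin (C p) i₀ (fun a => H a p) (fun u w =>
      (hH u w).comp₂ continuous_id continuous_const) x]
  have h2 : Continuous fun q : Cov j × Cov j =>
      Wd (Function.update (C q.1) i₀ (H q.2 q.1)) x := by
    refine avg_wd_cont (C := fun q : Cov j × Cov j =>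
      Function.update (C q.1) i₀ (H q.2 q.1)) ?_ x
    intro i u w
    by_cases hi : i = i₀
    · subst hi
      simp only [Function.update_self]
      exact hsw u w
    · simp only [Function.update_of_ne hi]
      exact (hC i u w).comp continuous_fst
  simp only [h1]
  rw [mean_swap (F := fun p a => Wd (Function.update (C p) i₀ (H a p)) x) h2]
  simp only [h]
  exact mean_const _

/-- Induction on the set `s` of the slots where `pull (g i) B` has been replaced by its average over
`g i`: if the identity holds for `s` and all `g`, integrate it over `g i₀` in the box (the mean value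
of a constant is the constant, `mean_const`), exchange the two mean values (`mean_swap`), and
`Wd` is linear in the slot `i₀`, a finite sum of products in which one factor depends on `g i₀`
(`mean_sum`, `mean_smul`). -/
theorem mean_avf_part {B : Cov j → Bil j} (hB : Cl B) (s : Finset (KK j)) (g : KK j → Cov j) :
    Mean (fun p => Wd (fun i => if i ∈ s then avf B p else fun x y => pull (g i) B p x y)
      (bs j)) = Mean (fun p => pf fun _ => B p) := by
  have hc : Continuous B := hB.diff.continuous
  induction s using Finset.induction_on generalizing g with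
  | empty =>
    have h1 := mean_pull_all hB g
    simp only [Finset.notMem_empty, if_false]
    exact h1
  | insert i₀ s hi ih =>
    have e1 : ∀ (a p : Cov j), (fun i => if i ∈ s then avf B p else
        fun x y => pull (Function.update g i₀ a i) B p x y) =
        Function.update (fun i => if i ∈ s then avf B p else
          fun x y => pull (g i) B p x y) i₀ (fun x y => pull a B p x y) := by
      intro a p
      funext i
      by_cases h : i = i₀
      · subst h
        rw [if_neg hi, Function.update_self, Function.update_self]
      · rw [Function.update_of_ne h, Function.update_of_ne h]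
    have e2 : ∀ p : Cov j, (fun i => if i ∈ insert i₀ s then avf B p else
        fun x y => pull (g i) B p x y) =
        Function.update (fun i => if i ∈ s then avf B p else
          fun x y => pull (g i) B p x y) i₀
          (fun x y => Mean fun a => pull a B p x y) := by
      intro p
      funext i
      by_cases h : i = i₀
      · subst h
        rw [if_pos (Finset.mem_insert_self i s), Function.update_self]
        rfl
      · rw [Function.update_of_ne h]
        by_cases h' : i ∈ s
        · rw [if_pos h', if_pos (Finset.mem_insert_of_mem h')]
        · rw [if_neg h', if_neg (fun h2 => (Finset.mem_insert.1 h2).elim h h')]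
    simp only [e2]
    refine avg_step (fun p i => if i ∈ s then avf B p else fun x y => pull (g i) B p x y)
      (fun a p x y => pull a B p x y) i₀ (bs j) ?_ ?_ _ ?_
    · intro i u w
      by_cases h' : i ∈ s
      · simp only [if_pos h']
        exact avf_cont hc u w
      · simp only [if_neg h']
        exact avg_pull hc continuous_const continuous_id u w
    · intro u w
      exact avg_pull hc continuous_fst continuous_snd u w
    · intro a
      rw [← ih (Function.update g i₀ a)]
      simp only [e1]

theorem mean_avf {B : Cov j → Bil j} (hB : Cl B) :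
    Mean (fun p => Wd (fun _ : KK j => avf B p) (bs j)) = Mean (fun p => pf fun _ => B p) := by
  have h := mean_avf_part hB Finset.univ (fun _ => 0)
  simp only [Finset.mem_univ, if_true] at h
  exact h

end Pool.Agent.MP1a66bd
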