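import Pool.Agent.Lib.MP_1a66bd_gt.Defs

/-!
# The Pfaffian of forms with an isotropic half
-/

set_option autoImplicit false

noncomputable section

namespace Pool.Agent.MP1a66bd

open Finset

variable {K E : Type*} [Fintype K] [DecidableEq K]

omit [DecidableEq K] in
/-- If no pair consists of two elements `inr _`, every pair has exactly one element `inl _`. -/
private theorem block_count (σ : Equiv.Perm (K ⊕ K))
    (h : ∀ i, (σ (Sum.inl i)).isLeft = true ∨ (σ (Sum.inr i)).isLeft = true) (i : K) :
    ¬((σ (Sum.inl i)).isLeft = true ∧ (σ (Sum.inr i)).isLeft = true) := by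
  let f : K ⊕ K → ℕ := fun s => if s.isLeft = true then 1 else 0
  have h1 : ∑ s, f (σ s) = ∑ s, f s := Equiv.sum_comp σ f
  rw [Fintype.sum_sum_type, Fintype.sum_sum_type, ← Finset.sum_add_distrib] at h1
  have h2 : ∑ i : K, f (Sum.inl i) + ∑ i : K, f (Sum.inr i) = ∑ i : K, 1 := by
    simp [f]
  rw [h2] at h1
  have h3 : ∀ i ∈ (Finset.univ : Finset K), 1 ≤ f (σ (Sum.inl i)) + f (σ (Sum.inr i)) := by
    intro i _
    rcases h i with h4 | h4
    · have : f (σ (Sum.inl i)) = 1 := if_pos h4
      omega
    · have : f (σ (Sum.inr i)) = 1 := if_pos h4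
      omega
  have h5 := (Finset.sum_eq_sum_iff_of_le h3).1 h1.symm i (Finset.mem_univ i)
  rintro ⟨h6, h7⟩
  have e1 : f (σ (Sum.inl i)) = 1 := if_pos h6
  have e2 : f (σ (Sum.inr i)) = 1 := if_pos h7
  omega

/-- If the vectors `b (inr i)` are isotropic, then the values of the form on pairs of the vectors
`b (inl i)` do not matter. For every `σ` the products agree: if some pair `(σ (inl i), σ (inr i))`
consists of two elements `inl _`, then, by counting the elements `inr _` (there are `|K|` of them and
`|K|` pairs), some pair consists of two elements `inr _`, and both products vanish. -/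
theorem Wd_block (B C : E → E → ℝ) (b : K ⊕ K → E)
    (hB : ∀ i i', B (b (Sum.inr i)) (b (Sum.inr i')) = 0)
    (hC : ∀ i i', C (b (Sum.inr i)) (b (Sum.inr i')) = 0)
    (h1 : ∀ i i', B (b (Sum.inl i)) (b (Sum.inr i')) = C (b (Sum.inl i)) (b (Sum.inr i')))
    (h2 : ∀ i i', B (b (Sum.inr i)) (b (Sum.inl i')) = C (b (Sum.inr i)) (b (Sum.inl i'))) :
    Wd (fun _ => B) b = Wd (fun _ => C) b := by
  unfold Wd
  refine Finset.sum_congr rfl fun σ _ => ?_
  have key : ∏ i : K, B (b (σ (Sum.inl i))) (b (σ (Sum.inr i))) =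
      ∏ i : K, C (b (σ (Sum.inl i))) (b (σ (Sum.inr i))) := by
    by_cases h : ∀ i, (σ (Sum.inl i)).isLeft = true ∨ (σ (Sum.inr i)).isLeft = true
    · refine Finset.prod_congr rfl fun i _ => ?_
      have h3 := block_count σ h i
      have h4 := h i
      rcases hl : σ (Sum.inl i) with a | a <;> rcases hr : σ (Sum.inr i) with a' | a'
      · exfalso
        apply h3
        rw [hl, hr]
        exact ⟨rfl, rfl⟩
      · exact h1 a a'
      · exact h2 a a'
      · exfalso
        rw [hl, hr] at h4
        rcases h4 with h4 | h4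
        · exact Bool.false_ne_true h4
        · exact Bool.false_ne_true h4
    · push Not at h
      obtain ⟨i, h3, h4⟩ := h
      have e : ∃ a a' : K, σ (Sum.inl i) = Sum.inr a ∧ σ (Sum.inr i) = Sum.inr a' := by
        rcases hl : σ (Sum.inl i) with a | a <;> rcases hr : σ (Sum.inr i) with a' | a'
        · exact absurd (by rw [hl]; rfl) h3
        · exact absurd (by rw [hl]; rfl) h3
        · exact absurd (by rw [hr]; rfl) h4
        · exact ⟨a, a', rfl, rfl⟩
      obtain ⟨a, a', hl, hr⟩ := e
      rw [Finset.prod_eq_zero (Finset.mem_univ i) (by rw [hl, hr]; exact hB a a'),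
        Finset.prod_eq_zero (Finset.mem_univ i) (by rw [hl, hr]; exact hC a a')]
  rw [key]

end Pool.Agent.MP1a66bd
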