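import Pool.Agent.Lib.MP_1a66bd_gt.Defs

/-!
# Brackets
-/

set_option autoImplicit false

noncomputable section

namespace Pool.Agent.MP1a66bd

open Finset

variable {j : ℕ} [NeZero j]

private theorem brk_two (hj : 3 ≤ j) (i : Fin j) : i + 1 + 1 ≠ i := by
  intro h
  have h2 : i + (1 + 1) = i := by rw [← add_assoc]; exact h
  have h3 : (1 + 1 : Fin j) = 0 := add_eq_left.mp h2
  have h4 := congrArg Fin.val h3
  have h5 : ((1 : Fin j)).val = 1 := by
    rw [Fin.val_one']
    exact Nat.mod_eq_of_lt (by omega)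
  rw [Fin.val_add, h5, Nat.mod_eq_of_lt (by omega)] at h4
  simp at h4

/-- `br (Pi.single i a) (Pi.single (i + 1) b) = Pi.single i (a * b)` for `3 ≤ j` -/
theorem br_single (hj : 3 ≤ j) (i : Fin j) (a b : ℂ) :
    br (Pi.single i a) (Pi.single (i + 1) b) = Pi.single i (a * b) := by
  have h0 := brk_two hj i
  funext l
  simp only [br, st, Pi.sub_apply]
  by_cases hl : l = i
  · subst hl
    rw [Pi.single_eq_same, Pi.single_eq_same, Pi.single_eq_same]
    have h1 : l ≠ l + 1 := by
      intro h
      apply h0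
      rw [← h, ← h]
    rw [Pi.single_eq_of_ne h1, zero_mul, sub_zero]
  · rw [Pi.single_eq_of_ne hl, Pi.single_eq_of_ne hl, zero_mul, zero_sub, neg_eq_zero]
    by_cases hl2 : l = i + 1
    · subst hl2
      rw [Pi.single_eq_of_ne h0, mul_zero]
    · rw [Pi.single_eq_of_ne hl2, zero_mul]

/-- the commutators span: every additive and homogeneous property of brackets holds everywhere -/
theorem br_span (hj : 3 ≤ j) (f : Vec j →ₗ[ℝ] ℝ) (hf : ∀ x y, f (br x y) = 0) : f = 0 := by
  apply LinearMap.ext
  intro v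
  have h1 : v = ∑ i, Pi.single i (v i) := by
    funext l
    rw [Finset.sum_apply, Finset.sum_eq_single l]
    · rw [Pi.single_eq_same]
    · intro b _ hb
      rw [Pi.single_eq_of_ne (Ne.symm hb)]
    · intro h
      exact absurd (Finset.mem_univ l) h
  rw [h1, map_sum, LinearMap.zero_apply]
  refine Finset.sum_eq_zero fun i _ => ?_
  have h2 := br_single hj i (v i) 1
  rw [mul_one] at h2
  rw [← h2]
  exact hf _ _

end Pool.Agent.MP1a66bd
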