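import Pool.Agent.Lib.MP_1a66bd_gt.MeanF
import Pool.Agent.Lib.MP_1a66bd_gt.Brk

/-!
# The averaged left invariant form is a cocycle
-/

set_option autoImplicit false

noncomputable section

namespace Pool.Agent.MP1a66bd

open MeasureTheory Finset

variable {j : ℕ} [NeZero j]

/-- The derivative of the left invariant field. -/
private def cocM (ξ : Cov j) : Cov j →L[ℝ] Cov j :=
  LinearMap.toContinuousLinearMap
    { toFun := fun x => (0, st x.1 ξ.1)
      map_add' := by
        intro x y
        ext1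
        · simp
        · simp only [Prod.snd_add, Prod.fst_add, st_add_left]
      map_smul' := by
        intro c x
        ext1
        · simp
        · simp [st_smul_left] }

private theorem cocM_apply (ξ x : Cov j) : cocM ξ x = (0, st x.1 ξ.1) := rfl

private theorem coc_lin (p ξ : Cov j) : lin p.1 ξ = ξ + cocM ξ p := by
  rw [cocM_apply, lin_apply]
  ext1
  · simp
  · rfl

private theorem coc_deriv (ξ p : Cov j) :
    HasFDerivAt (fun p : Cov j => lin p.1 ξ) (cocM ξ) p := by
  have h1 : (fun p : Cov j => lin p.1 ξ) = fun p => ξ + cocM ξ p :=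
    funext fun p => coc_lin p ξ
  rw [h1]
  exact (cocM ξ).hasFDerivAt.const_add ξ

private theorem coc_contDiff (ξ : Cov j) : ContDiff ℝ 1 (fun p : Cov j => lin p.1 ξ) := by
  have h1 : (fun p : Cov j => lin p.1 ξ) = fun p => ξ + cocM ξ p :=
    funext fun p => coc_lin p ξ
  rw [h1]
  exact contDiff_const.add (cocM ξ).contDiff

private theorem coc_cont {B : Cov j → Bil j} (hB : Continuous B) (x y : Cov j) :
    Continuous fun p => B p (lin p.1 x) (lin p.1 y) :=
  (hB.clm_apply (coc_contDiff x).continuous).clm_apply (coc_contDiff y).continuous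

private theorem coc_F {B : Cov j → Bil j} (hB : ContDiff ℝ 1 B) (x y : Cov j) :
    ContDiff ℝ 1 fun p => B p (lin p.1 x) (lin p.1 y) :=
  (hB.clm_apply (coc_contDiff x)).clm_apply (coc_contDiff y)

private theorem coc_Fi {B : Cov j → Bil j} (hB : Cl B) (x y : Cov j) :
    Fi fun p => B p (lin p.1 x) (lin p.1 y) := by
  intro γ p
  have h1 : ∀ ξ : Cov j, lin (γ • p).1 ξ = lin (toV γ.a) (lin p.1 ξ) := by
    intro ξ
    rw [lin_apply, lin_apply, lin_apply, smul_eq]
    ext1
    · rfl
    · simp only [st_add_left]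
      abel
  change B (γ • p) (lin (γ • p).1 x) (lin (γ • p).1 y) = B p (lin p.1 x) (lin p.1 y)
  rw [h1, h1, hB.inv]

private theorem coc_fderiv {B : Cov j → Bil j} (hB : ContDiff ℝ 1 B) (x y z p : Cov j) :
    fderiv ℝ (fun p => B p (lin p.1 x) (lin p.1 y)) p (lin p.1 z) =
      fderiv ℝ B p (lin p.1 z) (lin p.1 x) (lin p.1 y) +
      B p (0, st z.1 x.1) (lin p.1 y) + B p (lin p.1 x) (0, st z.1 y.1) := by
  have h0 : HasFDerivAt B (fderiv ℝ B p) p := (hB.differentiable one_ne_zero p).hasFDerivAt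
  have h1 := (h0.clm_apply (coc_deriv x p)).clm_apply (coc_deriv y p)
  rw [h1.fderiv]
  change B p (lin p.1 x) (cocM y (lin p.1 z)) + (B p (cocM x (lin p.1 z)) (lin p.1 y) +
    fderiv ℝ B p (lin p.1 z) (lin p.1 x) (lin p.1 y)) = _
  rw [cocM_apply, cocM_apply]
  change B p (lin p.1 x) (0, st z.1 y.1) + (B p (0, st z.1 x.1) (lin p.1 y) +
    fderiv ℝ B p (lin p.1 z) (lin p.1 x) (lin p.1 y)) = _
  ring

theorem bb_add_left {B : Cov j → Bil j} (hB : Continuous B) (x x' y : Cov j) :
    bb B (x + x') y = bb B x y + bb B x' y := by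
  unfold bb
  rw [← mean_add (coc_cont hB x y) (coc_cont hB x' y)]
  refine congrArg Mean (funext fun p => ?_)
  rw [map_add, map_add]
  rfl

theorem bb_smul_left (B : Cov j → Bil j) (c : ℝ) (x y : Cov j) :
    bb B (c • x) y = c * bb B x y := by
  unfold bb
  rw [← mean_smul]
  refine congrArg Mean (funext fun p => ?_)
  rw [map_smul, map_smul]
  rfl

private theorem coc_anti {B : Cov j → Bil j} (hB : Cl B) (p x y : Cov j) :
    B p y x = -B p x y := by
  have h1 := hB.alt p (x + y)
  have h2 := hB.alt p x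
  have h3 := hB.alt p y
  have h4 : B p (x + y) (x + y) = B p x x + B p x y + (B p y x + B p y y) := by
    rw [map_add, map_add]
    change B p x x + B p y x + (B p x y + B p y y) = _
    ring
  rw [h4, h2, h3] at h1
  linarith

theorem bb_antisymm {B : Cov j → Bil j} (hB : Cl B) (x y : Cov j) :
    bb B y x = -bb B x y := by
  unfold bb
  rw [← neg_one_mul, ← mean_smul]
  refine congrArg Mean (funext fun p => ?_)
  rw [coc_anti hB, neg_one_mul]

private theorem coc_add3 {F G H : Cov j → ℝ} (hF : Continuous F) (hG : Continuous G)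
    (hH : Continuous H) : Mean (fun p => F p + G p + H p) = Mean F + Mean G + Mean H := by
  have h1 : Continuous fun p => F p + G p := hF.add hG
  have h2 : Mean (fun p => (fun p => F p + G p) p + H p) = Mean (fun p => F p + G p) + Mean H :=
    mean_add h1 hH
  exact h2.trans (by rw [mean_add hF hG])

/-- With `X i = lin p.1 (ξ i)` (left invariant fields, `fderiv X_i p x = (0, x.1 ⋆ (ξ i).1)`) and
`F i k = B p (X i) (X k)`, an invariant function of class `C^1`: `fderiv (F 2 3) p (X 1)` + cyclic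
permutations `= ∑ cyclic B p (0, br ξ₁.1 ξ₂.1) (X 3)` by `hB.closed`; take mean values
(`mean_field`). -/
theorem bb_cocycle {B : Cov j → Bil j} (hB : Cl B) (ξ₁ ξ₂ ξ₃ : Cov j) :
    bb B (0, br ξ₁.1 ξ₂.1) ξ₃ + bb B (0, br ξ₂.1 ξ₃.1) ξ₁ + bb B (0, br ξ₃.1 ξ₁.1) ξ₂ = 0 := by
  have hc := hB.diff.continuous
  have hcd := hB.diff
  have hcf : ∀ x y z : Cov j, Continuous fun p =>
      fderiv ℝ (fun p => B p (lin p.1 x) (lin p.1 y)) p (lin p.1 z) := fun x y z =>
    ((coc_F hcd x y).continuous_fderiv one_ne_zero).clm_apply (coc_contDiff z).continuous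
  have hz : ∀ x y z : Cov j, Mean (fun p =>
      fderiv ℝ (fun p => B p (lin p.1 x) (lin p.1 y)) p (lin p.1 z)) = 0 := fun x y z =>
    mean_field (coc_F hcd x y) (coc_Fi hB x y) z
  have h1 : Mean (fun p =>
      (fderiv ℝ (fun p => B p (lin p.1 ξ₂) (lin p.1 ξ₃)) p (lin p.1 ξ₁) +
      fderiv ℝ (fun p => B p (lin p.1 ξ₃) (lin p.1 ξ₁)) p (lin p.1 ξ₂)) +
      fderiv ℝ (fun p => B p (lin p.1 ξ₁) (lin p.1 ξ₂)) p (lin p.1 ξ₃)) = 0 := by
    refine (coc_add3 (hcf _ _ _) (hcf _ _ _) (hcf _ _ _)).trans ?_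
    rw [hz, hz, hz, add_zero, add_zero]
  rw [← h1]
  unfold bb
  refine (coc_add3 (coc_cont hc _ _) (coc_cont hc _ _) (coc_cont hc _ _)).symm.trans ?_
  refine congrArg Mean (funext fun p => ?_)
  have hl : ∀ y : Vec j, lin p.1 ((0, y) : Cov j) = (0, y) := by
    intro y
    rw [lin_apply]
    ext1
    · rfl
    · simp [st_zero_right]
  rw [coc_fderiv hcd, coc_fderiv hcd, coc_fderiv hcd, hl, hl, hl]
  have h2 := hB.closed p (lin p.1 ξ₁) (lin p.1 ξ₂) (lin p.1 ξ₃)
  have h3 : ∀ (a b : Vec j) (z : Cov j), B p (0, br a b) z =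
      B p (0, st a b) z - B p (0, st b a) z := by
    intro a b z
    have h4 : ((0, br a b) : Cov j) = (0, st a b) - (0, st b a) := by
      ext1
      · simp
      · rfl
    rw [h4, map_sub]
    rfl
  rw [h3, h3, h3, coc_anti hB p (0, st ξ₁.1 ξ₃.1), coc_anti hB p (0, st ξ₂.1 ξ₁.1),
    coc_anti hB p (0, st ξ₃.1 ξ₂.1)]
  linarith

/-- cocycle with `ξ₃ = (0, y')` -/
theorem bb_ww (hj : 3 ≤ j) {B : Cov j → Bil j} (hB : Cl B) (y y' : Vec j) :
    bb B (0, y) (0, y') = 0 := by
  have hc := hB.diff.continuous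
  have h0 : ∀ z : Cov j, bb B ((0, 0) : Cov j) z = 0 := by
    intro z
    have h1 : ((0, 0) : Cov j) = (0 : ℝ) • ((0, 0) : Cov j) := by
      rw [zero_smul]
      rfl
    rw [h1, bb_smul_left, zero_mul]
  have h1 : ∀ x y : Vec j, bb B (0, br x y) (0, y') = 0 := by
    intro x y
    have h2 := bb_cocycle hB (x, 0) (y, 0) (0, y')
    have h3 : ∀ z : Vec j, br z 0 = 0 := by
      intro z
      rw [br, st_zero_right, st_zero_left, sub_zero]
    have h4 : ∀ z : Vec j, br 0 z = 0 := by
      intro z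
      rw [br, st_zero_right, st_zero_left, sub_zero]
    change bb B (0, br x y) (0, y') + bb B (0, br y 0) (x, 0) + bb B (0, br 0 x) (y, 0) = 0 at h2
    rw [h3, h4, h0, h0, add_zero, add_zero] at h2
    exact h2
  have h2 := br_span hj
    { toFun := fun z : Vec j => bb B (0, z) (0, y')
      map_add' := fun z z' => by
        rw [← bb_add_left hc]
        refine congrArg (fun w => bb B w (0, y')) ?_
        ext1
        · simp
        · rfl
      map_smul' := fun c z => by
        rw [RingHom.id_apply, smul_eq_mul, ← bb_smul_left]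
        refine congrArg (fun w => bb B w (0, y')) ?_
        ext1
        · simp
        · rfl } h1
  exact DFunLike.congr_fun h2 y

end Pool.Agent.MP1a66bd
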