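import Pool.Agent.Lib.MP_1a66bd_gt.Defs

/-!
# Pull back by right translations
-/

set_option autoImplicit false

noncomputable section

namespace Pool.Agent.MP1a66bd

variable {j : ℕ} [NeZero j]

private theorem pull_app (g : Cov j) (B : Cov j → Bil j) (p x y : Cov j) :
    pull g B p x y = B (gm p g) (rin g.1 x) (rin g.1 y) := rfl

private theorem eta_app (t : ℝ) (g : Cov j) (B : Cov j → Bil j) (p x : Cov j) :
    eta t g B p x = B (gm p (t • g)) (lin p.1 g) (rin (t • g.1) x) := rfl

private theorem rin_lin (a b : Vec j) (x : Cov j) : rin a (lin b x) = lin b (rin a x) := by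
  ext1
  · rfl
  · simp only [lin_apply, rin_apply]
    abel

private theorem gm_smul (γ : Gam j) (p g : Cov j) : gm (γ • p) g = γ • gm p g := by
  rw [smul_def, smul_def, gm_assoc]

private theorem st_diff {n : WithTop ℕ∞} {E : Type*} [NormedAddCommGroup E] [NormedSpace ℝ E]
    {u v : E → Vec j} (hu : ContDiff ℝ n u) (hv : ContDiff ℝ n v) :
    ContDiff ℝ n fun e => st (u e) (v e) := by
  rw [contDiff_pi] at hu hv ⊢
  intro i
  exact (hu i).mul (hv (i + 1))

private theorem gm_diff {n : WithTop ℕ∞} {E : Type*} [NormedAddCommGroup E] [NormedSpace ℝ E]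
    {u v : E → Cov j} (hu : ContDiff ℝ n u) (hv : ContDiff ℝ n v) :
    ContDiff ℝ n fun e => gm (u e) (v e) := by
  unfold gm
  exact (hu.fst.add hv.fst).prodMk ((hu.snd.add hv.snd).add (st_diff hu.fst hv.fst))

private theorem lin_diff {n : WithTop ℕ∞} {E : Type*} [NormedAddCommGroup E] [NormedSpace ℝ E]
    {u : E → Vec j} {v : E → Cov j} (hu : ContDiff ℝ n u) (hv : ContDiff ℝ n v) :
    ContDiff ℝ n fun e => lin (u e) (v e) := by
  simp only [lin_apply]
  exact hv.fst.prodMk (hv.snd.add (st_diff hu hv.fst))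

private theorem rin_diff {n : WithTop ℕ∞} {E : Type*} [NormedAddCommGroup E] [NormedSpace ℝ E]
    {u : E → Vec j} {v : E → Cov j} (hu : ContDiff ℝ n u) (hv : ContDiff ℝ n v) :
    ContDiff ℝ n fun e => rin (u e) (v e) := by
  simp only [rin_apply]
  exact hv.fst.prodMk (hv.snd.add (st_diff hv.fst hu))

/-- joint differentiability of the pull back -/
private theorem pull_diff' {n : WithTop ℕ∞} {B : Cov j → Bil j} (hB : ContDiff ℝ n B)
    {E : Type*} [NormedAddCommGroup E] [NormedSpace ℝ E] {u v : E → Cov j}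
    (hu : ContDiff ℝ n u) (hv : ContDiff ℝ n v) : ContDiff ℝ n fun e => pull (u e) B (v e) := by
  rw [contDiff_clm_apply_iff]
  intro x
  rw [contDiff_clm_apply_iff]
  intro y
  simp only [pull_app]
  exact ((hB.comp (gm_diff hv hu)).clm_apply (rin_diff hu.fst contDiff_const)).clm_apply
    (rin_diff hu.fst contDiff_const)

/-- joint differentiability of the primitive -/
private theorem eta_diff' {n : WithTop ℕ∞} {B : Cov j → Bil j} (hB : ContDiff ℝ n B)
    {E : Type*} [NormedAddCommGroup E] [NormedSpace ℝ E] (g : Cov j) {u : E → ℝ} {v : E → Cov j}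
    (hu : ContDiff ℝ n u) (hv : ContDiff ℝ n v) : ContDiff ℝ n fun e => eta (u e) g B (v e) := by
  rw [contDiff_clm_apply_iff]
  intro x
  simp only [eta_app]
  exact ((hB.comp (gm_diff hv (hu.smul contDiff_const))).clm_apply
    (lin_diff hv.fst contDiff_const)).clm_apply
    (rin_diff (hu.smul contDiff_const) contDiff_const)

section Gen

variable {E : Type*} [NormedAddCommGroup E] [NormedSpace ℝ E]

private theorem gen1 {f : E → E →L[ℝ] ℝ} {p : E} (hf : DifferentiableAt ℝ f p) (x y : E) :
    HasDerivAt (fun s : ℝ => f (p + s • x) y) (fderiv ℝ f p x y) 0 := by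
  have hc : HasDerivAt (fun s : ℝ => p + s • x) x 0 := by
    simpa using ((hasDerivAt_id (0 : ℝ)).smul_const x).const_add p
  have h1 : HasDerivAt (fun s : ℝ => f (p + s • x)) (fderiv ℝ f p x) 0 :=
    hf.hasFDerivAt.comp_hasDerivAt_of_eq 0 hc (by simp)
  have := h1.clm_apply (hasDerivAt_const 0 y)
  simpa using this

private theorem gen0 {G : Type*} [NormedAddCommGroup G] [NormedSpace ℝ G] {B : E → G} {c : ℝ → E}
    {c' : E} {t : ℝ} (hB : DifferentiableAt ℝ B (c t)) (hc : HasDerivAt c c' t) :
    HasDerivAt (fun s : ℝ => B (c s)) (fderiv ℝ B (c t) c') t :=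
  hB.hasFDerivAt.comp_hasDerivAt t hc

private theorem gen5 {X G : Type*} [TopologicalSpace X] [NormedAddCommGroup G] {f g : X → G}
    (hf : Continuous f) (hg : Continuous g) : Continuous fun x => f x - g x := hf.sub hg

private theorem gen2 {B : E → E →L[ℝ] E →L[ℝ] ℝ} {q : E} (hB : DifferentiableAt ℝ B q)
    {c u v : ℝ → E} {c' u' v' a b : E} {t : ℝ} (hq : c t = q) (ha : u t = a) (hb : v t = b)
    (hc : HasDerivAt c c' t) (hu : HasDerivAt u u' t) (hv : HasDerivAt v v' t) :
    HasDerivAt (fun s : ℝ => B (c s) (u s) (v s))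
      (fderiv ℝ B q c' a b + B q u' b + B q a v') t := by
  subst hq ha hb
  have h1 : HasDerivAt (fun s : ℝ => B (c s)) (fderiv ℝ B (c t) c') t :=
    gen0 (G := E →L[ℝ] E →L[ℝ] ℝ) hB hc
  have := (h1.clm_apply hu).clm_apply hv
  simpa using this

private theorem gen3 {B : E → E →L[ℝ] E →L[ℝ] ℝ} {q : E} (hB : DifferentiableAt ℝ B q)
    (x y z : E) :
    HasDerivAt (fun s : ℝ => B (q + s • x) y z) (fderiv ℝ B q x y z) 0 := by
  have hc : HasDerivAt (fun s : ℝ => q + s • x) x 0 := by
    simpa using ((hasDerivAt_id (0 : ℝ)).smul_const x).const_add q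
  have := gen2 hB (by simp) rfl rfl hc (hasDerivAt_const (0 : ℝ) y) (hasDerivAt_const (0 : ℝ) z)
  simpa using this

private theorem gen4 {X : Type*} [TopologicalSpace X] {f : X → E →L[ℝ] E →L[ℝ] ℝ}
    (hf : Continuous f) : Continuous fun x => f x - (f x).flip :=
  gen5 (G := E →L[ℝ] E →L[ℝ] ℝ) hf ((ContinuousLinearMap.flipₗᵢ ℝ E E ℝ).continuous.comp hf)

end Gen

private theorem gm_deriv (g : Cov j) {c : ℝ → Cov j} {c' : Cov j} {t : ℝ}
    (hc : HasDerivAt c c' t) : HasDerivAt (fun s => gm (c s) g) (rin g.1 c') t := by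
  have h1 : (fun s => gm (c s) g) = fun s => rin g.1 (c s) + g := by
    funext s
    ext1
    · rfl
    · simp only [gm, rin_apply, Prod.snd_add]
      abel
  rw [h1]
  exact ((rin g.1).hasFDerivAt.comp_hasDerivAt t hc).add_const g

private theorem fderiv_pull {B : Cov j → Bil j} (hB : ContDiff ℝ 1 B) (g p x y z : Cov j) :
    fderiv ℝ (pull g B) p x y z =
      fderiv ℝ B (gm p g) (rin g.1 x) (rin g.1 y) (rin g.1 z) := by
  have hd : DifferentiableAt ℝ (pull g B) p :=
    ((pull_diff' hB contDiff_const contDiff_id).differentiable one_ne_zero).differentiableAt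
  have hdB : DifferentiableAt ℝ B (gm p g) :=
    (hB.differentiable one_ne_zero).differentiableAt
  have hc : HasDerivAt (fun s : ℝ => p + s • x) x 0 := by
    simpa using ((hasDerivAt_id (0 : ℝ)).smul_const x).const_add p
  have h2 : HasDerivAt (fun s : ℝ => pull g B (p + s • x) y z)
      (fderiv ℝ (pull g B) p x y z) 0 := gen3 hd x y z
  have h4 : HasDerivAt (fun s : ℝ => B (gm (p + s • x) g) (rin g.1 y) (rin g.1 z))
      (fderiv ℝ B (gm p g) (rin g.1 x) (rin g.1 y) (rin g.1 z) +
        B (gm p g) 0 (rin g.1 z) + B (gm p g) (rin g.1 y) 0) 0 :=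
    gen2 hdB (by simp) rfl rfl (gm_deriv g hc) (hasDerivAt_const (0 : ℝ) (rin g.1 y))
      (hasDerivAt_const (0 : ℝ) (rin g.1 z))
  have h5 := h2.unique h4
  rw [h5]
  simp

/-- right translations commute with the lattice, their linear parts `rin` commute with `lin`; the
map `p ↦ gm p g` is affine with linear part `rin g.1` -/
theorem pull_cl {B : Cov j → Bil j} (hB : Cl B) (g : Cov j) : Cl (pull g B) where
  alt := fun p x => hB.alt (gm p g) (rin g.1 x)
  diff := pull_diff' hB.diff contDiff_const contDiff_id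
  closed := fun p x y z => by
    rw [fderiv_pull hB.diff, fderiv_pull hB.diff, fderiv_pull hB.diff]
    exact hB.closed _ _ _ _
  inv := fun γ p x y => by
    rw [pull_app, pull_app, gm_smul, rin_lin, rin_lin]
    exact hB.inv γ _ _ _

theorem pull_zero (B : Cov j → Bil j) (p : Cov j) : pull 0 B p = B p := by
  have h1 : gm p 0 = p := by
    ext1
    · simp [gm]
    · simp [gm, st_zero_right]
  have h2 : ∀ x : Cov j, rin (0 : Cov j).1 x = x := by
    intro x
    ext1
    · rfl
    · simp [st_zero_right]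
  refine ContinuousLinearMap.ext fun x => ContinuousLinearMap.ext fun y => ?_
  rw [pull_app, h1, h2, h2]

/-- joint continuity -/
theorem pull_cont {B : Cov j → Bil j} (hB : Continuous B) :
    Continuous fun q : Cov j × Cov j => pull q.1 B q.2 := by
  have h0 : ContDiff ℝ 0 B := contDiff_zero.2 hB
  exact (pull_diff' h0 contDiff_fst contDiff_snd).continuous

theorem eta_diff {B : Cov j → Bil j} (hB : ContDiff ℝ 1 B) (t : ℝ) (g : Cov j) :
    ContDiff ℝ 1 (eta t g B) := eta_diff' hB g contDiff_const contDiff_id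

/-- `lin (toV γ.a + p.1) g = lin (toV γ.a) (lin p.1 g)`, `rin` and `lin` commute -/
theorem eta_inv {B : Cov j → Bil j} (hB : Cl B) (t : ℝ) (g : Cov j) (γ : Gam j) (p x : Cov j) :
    eta t g B (γ • p) (lin (toV γ.a) x) = eta t g B p x := by
  have h1 : lin (γ • p).1 g = lin (toV γ.a) (lin p.1 g) := by
    ext1
    · rfl
    · simp only [smul_eq, lin_apply, st_add_left]
      abel
  rw [eta_app, eta_app, gm_smul, h1, rin_lin]
  exact hB.inv γ _ _ _

/-- joint continuity of the exterior derivative of `eta` -/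
theorem dd_eta_cont {B : Cov j → Bil j} (hB : ContDiff ℝ 1 B) (g : Cov j) :
    Continuous fun q : ℝ × Cov j => dd (eta q.1 g B) q.2 := by
  have h1 : ContDiff ℝ 1 (Function.uncurry fun (q : ℝ × Cov j) (p : Cov j) => eta q.1 g B p) :=
    eta_diff' hB g (contDiff_fst.fst) contDiff_snd
  have h2 : ContDiff ℝ 0 fun q : ℝ × Cov j => fderiv ℝ (fun p => eta q.1 g B p) q.2 :=
    ContDiff.fderiv h1 contDiff_snd (by norm_num)
  have h3 : Continuous fun q : ℝ × Cov j => fderiv ℝ (eta q.1 g B) q.2 := h2.continuous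
  exact gen4 h3

private theorem fderiv_eta {B : Cov j → Bil j} (hB : ContDiff ℝ 1 B) (t : ℝ) (g p x y : Cov j) :
    fderiv ℝ (eta t g B) p x y =
      fderiv ℝ B (gm p (t • g)) (rin (t • g.1) x) (lin p.1 g) (rin (t • g.1) y) +
        B (gm p (t • g)) (0, st x.1 g.1) (rin (t • g.1) y) := by
  have hd : DifferentiableAt ℝ (eta t g B) p :=
    ((eta_diff hB t g).differentiable one_ne_zero).differentiableAt
  have hdB : DifferentiableAt ℝ B (gm p (t • g)) :=
    (hB.differentiable one_ne_zero).differentiableAt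
  have hc : HasDerivAt (fun s : ℝ => p + s • x) x 0 := by
    simpa using ((hasDerivAt_id (0 : ℝ)).smul_const x).const_add p
  have h2 : HasDerivAt (fun s : ℝ => eta t g B (p + s • x) y)
      (fderiv ℝ (eta t g B) p x y) 0 := gen1 hd x y
  have h5 : HasDerivAt (fun s : ℝ => lin (p + s • x).1 g) ((0, st x.1 g.1) : Cov j) 0 := by
    have h6 : (fun s : ℝ => lin (p + s • x).1 g) =
        fun s : ℝ => lin p.1 g + s • ((0, st x.1 g.1) : Cov j) := by
      funext s
      ext1
      · simp
      · simp only [lin_apply, Prod.fst_add, Prod.smul_fst, st_add_left, st_smul_left,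
          Prod.snd_add, Prod.smul_snd]
        abel
    rw [h6]
    simpa using ((hasDerivAt_id (0 : ℝ)).smul_const ((0, st x.1 g.1) : Cov j)).const_add
      (lin p.1 g)
  have h4 : HasDerivAt
      (fun s : ℝ => B (gm (p + s • x) (t • g)) (lin (p + s • x).1 g) (rin (t • g.1) y))
      (fderiv ℝ B (gm p (t • g)) (rin (t • g).1 x) (lin p.1 g) (rin (t • g.1) y) +
        B (gm p (t • g)) (0, st x.1 g.1) (rin (t • g.1) y) +
        B (gm p (t • g)) (lin p.1 g) 0) 0 :=
    gen2 hdB (by simp) (by simp) rfl (gm_deriv (t • g) hc) h5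
      (hasDerivAt_const (0 : ℝ) (rin (t • g.1) y))
  have h7 := h2.unique h4
  rw [h7]
  simp

/-- Cartan's formula. With `S = rin (t • g.1)`, `L = lin p.1 g`, `S' x = (0, x.1 ⋆ g.1)`, `q = gm p
(t • g)`: the derivative is `fderiv B q L (S x) (S y) + B q (S' x) (S y) + B q (S x) (S' y)`, and
`dd (eta t g B) p x y = fderiv B q (S x) L (S y) - fderiv B q (S y) L (S x) + B q (S' x) (S y) -
B q (S' y) (S x)`; use `hB.closed` and `hB.alt`. -/
theorem pull_deriv {B : Cov j → Bil j} (hB : Cl B) (g p x y : Cov j) (t : ℝ) :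
    HasDerivAt (fun t : ℝ => pull (t • g) B p x y) (dd (eta t g B) p x y) t := by
  have hdB : DifferentiableAt ℝ B (gm p (t • g)) :=
    (hB.diff.differentiable one_ne_zero).differentiableAt
  have h0 : HasDerivAt (fun s : ℝ => gm p (s • g)) (lin p.1 g) t := by
    have h6 : (fun s : ℝ => gm p (s • g)) = fun s : ℝ => p + s • lin p.1 g := by
      funext s
      ext1
      · rfl
      · simp only [gm, lin_apply, Prod.smul_fst, Prod.smul_snd, Prod.snd_add, st_smul_right,
          smul_add]
        abel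
    rw [h6]
    simpa using ((hasDerivAt_id t).smul_const (lin p.1 g)).const_add p
  have h2 : ∀ z : Cov j, HasDerivAt (fun s : ℝ => rin (s • g).1 z)
      ((0, st z.1 g.1) : Cov j) t := by
    intro z
    have h6 : (fun s : ℝ => rin (s • g).1 z) = fun s : ℝ => z + s • ((0, st z.1 g.1) : Cov j) := by
      funext s
      ext1
      · simp
      · simp [st_smul_right]
    rw [h6]
    simpa using ((hasDerivAt_id t).smul_const ((0, st z.1 g.1) : Cov j)).const_add z
  have h3 : HasDerivAt (fun s : ℝ => B (gm p (s • g)) (rin (s • g).1 x) (rin (s • g).1 y))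
      (fderiv ℝ B (gm p (t • g)) (lin p.1 g) (rin (t • g).1 x) (rin (t • g).1 y) +
        B (gm p (t • g)) ((0, st x.1 g.1) : Cov j) (rin (t • g).1 y) +
        B (gm p (t • g)) (rin (t • g).1 x) ((0, st y.1 g.1) : Cov j)) t :=
    gen2 hdB rfl rfl rfl h0 (h2 x) (h2 y)
  have hanti : ∀ q u v : Cov j, B q u v = -B q v u := by
    intro q u v
    have h := hB.alt q (u + v)
    simp only [map_add, add_apply, hB.alt] at h
    linarith
  have hanti' : ∀ q w u v : Cov j, fderiv ℝ B q w u v = -fderiv ℝ B q w v u := by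
    intro q w u v
    have h5 : ∀ u v : Cov j, HasDerivAt (fun s : ℝ => B (q + s • w) u v)
        (fderiv ℝ B q w u v) 0 := fun u v =>
      gen3 (hB.diff.differentiable one_ne_zero).differentiableAt w u v
    have h6 := (h5 v u).neg
    have h7 : (fun s : ℝ => B (q + s • w) u v) = -(fun s : ℝ => B (q + s • w) v u) := by
      funext s
      exact hanti _ _ _
    have h8 := h5 u v
    rw [h7] at h8
    exact h8.unique h6
  have h4 : dd (eta t g B) p x y =
      fderiv ℝ B (gm p (t • g)) (lin p.1 g) (rin (t • g).1 x) (rin (t • g).1 y) +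
        B (gm p (t • g)) ((0, st x.1 g.1) : Cov j) (rin (t • g).1 y) +
        B (gm p (t • g)) (rin (t • g).1 x) ((0, st y.1 g.1) : Cov j) := by
    have h5 : dd (eta t g B) p x y = fderiv ℝ (eta t g B) p x y - fderiv ℝ (eta t g B) p y x :=
      rfl
    have h6 := hB.closed (gm p (t • g)) (lin p.1 g) (rin (t • g.1) x) (rin (t • g.1) y)
    have h7 := hanti' (gm p (t • g)) (rin (t • g.1) x) (lin p.1 g) (rin (t • g.1) y)
    have h8 := hanti (gm p (t • g)) (rin (t • g.1) x) ((0, st y.1 g.1) : Cov j)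
    rw [h5, fderiv_eta hB.diff, fderiv_eta hB.diff]
    simp only [Prod.smul_fst] at h6 h7 h8 ⊢
    linarith
  rw [h4]
  exact h3

end Pool.Agent.MP1a66bd
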