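import Pool.Agent.Lib.MP_1a66bd_gt.Coc
import Pool.Agent.Lib.MP_1a66bd_gt.Pull

/-!
# The average of the pull backs
-/

set_option autoImplicit false

noncomputable section

namespace Pool.Agent.MP1a66bd

open MeasureTheory Finset

variable {j : ℕ} [NeZero j]

private theorem lin_zero_snd (a y : Vec j) : lin a ((0, y) : Cov j) = (0, y) := by
  rw [lin_apply]
  ext1
  · rfl
  · simp [st_zero_right]

private theorem rin_zero_snd (a y : Vec j) : rin a ((0, y) : Cov j) = (0, y) := by
  rw [rin_apply]
  ext1
  · rfl
  · simp [st_zero_left]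

private theorem anti {B : Cov j → Bil j} (hB : Cl B) (p x y : Cov j) :
    B p y x = - B p x y := by
  have h := hB.alt p (x + y)
  rw [map_add, map_add, add_apply, add_apply,
    hB.alt p x, hB.alt p y] at h
  linarith

private theorem fd2 {B : Cov j → Bil j} (hB : Cl B) (u u' p z : Cov j) :
    fderiv ℝ (fun q => B q u u') p z = fderiv ℝ B p z u u' := by
  have h1 : DifferentiableAt ℝ B p := (hB.diff.differentiable (by norm_num)) p
  have h2 := (h1.hasFDerivAt.clm_apply (hasFDerivAt_const u p)).clm_apply
    (hasFDerivAt_const u' p)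
  rw [h2.fderiv]
  simp

private theorem cd2 {B : Cov j → Bil j} (hB : Cl B) (u u' : Cov j) :
    ContDiff ℝ 1 (fun q => B q u u') :=
  (hB.diff.clm_apply contDiff_const).clm_apply contDiff_const

private theorem fiww {B : Cov j → Bil j} (hB : Cl B) (y y' : Vec j) :
    Fi fun p : Cov j => B p (0, y) (0, y') := by
  intro γ p
  have h := hB.inv γ p (0, y) (0, y')
  rw [lin_zero_snd, lin_zero_snd] at h
  exact h

private theorem per2 {B : Cov j → Bil j} (hB : Cl B) (v : Vec j) (u u' : Cov j) :
    Per fun w => B (v, w) u u' := by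
  intro c w
  have h := hB.inv ⟨0, c⟩ (v, w) u u'
  have h0 : toV ((⟨0, c⟩ : Gam j).a) = 0 := toV_zero
  have hl : ∀ x : Cov j, lin (0 : Vec j) x = x := by
    intro x
    rw [lin_apply]
    ext1
    · rfl
    · simp [st_zero_left]
  rw [h0, hl, hl, smul_eq] at h
  have h1 : ((toV ((⟨0, c⟩ : Gam j).a) + (v, w).1,
      toV ((⟨0, c⟩ : Gam j).c) + (v, w).2 + st (toV ((⟨0, c⟩ : Gam j).a)) (v, w).1) : Cov j) =
      (v, toV c + w) := by
    rw [h0]
    ext1
    · simp
    · simp [st_zero_left]
  rw [h1] at h
  exact h

private theorem wint {B : Cov j → Bil j} (hB : Cl B) (v x : Vec j) (u u' : Cov j) :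
    ∫ w in Bx j, fderiv ℝ B (v, w) (0, x) u u' = 0 := by
  have h1 : ContDiff ℝ 1 fun w : Vec j => B (v, w) u u' :=
    (cd2 hB u u').comp (contDiff_const.prodMk contDiff_id)
  have h2 := per_deriv h1 (per2 hB v u u') x
  rw [← h2]
  congr 1
  funext w
  have h3 : HasFDerivAt (fun w : Vec j => ((v, w) : Cov j))
      (ContinuousLinearMap.inr ℝ (Vec j) (Vec j)) w := hasFDerivAt_prodMk_right v w
  have h4 : HasFDerivAt (fun q : Cov j => B q u u') (fderiv ℝ (fun q => B q u u') (v, w))
      (v, w) := ((cd2 hB u u').differentiable (by norm_num) (v, w)).hasFDerivAt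
  have h5 := h4.comp w h3
  have h6 : fderiv ℝ (fun w : Vec j => B (v, w) u u') w =
      (fderiv ℝ (fun q => B q u u') (v, w)).comp (ContinuousLinearMap.inr ℝ (Vec j) (Vec j)) :=
    h5.fderiv
  rw [h6, ContinuousLinearMap.comp_apply, ContinuousLinearMap.inr_apply, fd2 hB]

/-- The function `h v = ∫ w in Bx j, B (v, w) (0, y) (0, y')` is constant: by `wmean_deriv` its
derivative in the direction `x` is `∫ w, fderiv B (v, w) (x, 0) (0, y) (0, y')`, and by `hB.closed`
this is minus the integral of derivatives in the directions `(0, y)` and `(0, y')` of functions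
which are periodic in `w`, which is `0` by `per_deriv`. The constant is `bb B (0, y) (0, y') = 0`
(`bx_vol`). -/
theorem wmean_ww (hj : 3 ≤ j) {B : Cov j → Bil j} (hB : Cl B) (v y y' : Vec j) :
    ∫ w in Bx j, B (v, w) (0, y) (0, y') = 0 := by
  have hF : ContDiff ℝ 1 fun p : Cov j => B p (0, y) (0, y') := cd2 hB _ _
  have hder : ∀ v x : Vec j, HasDerivAt
      (fun t : ℝ => ∫ w in Bx j, B (v + t • x, w) (0, y) (0, y')) 0 0 := by
    intro v x
    have h1 := wmean_deriv hF v x
    have h2 : ∫ w in Bx j, fderiv ℝ (fun p : Cov j => B p (0, y) (0, y')) (v, w) (x, 0) = 0 := by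
      have h3 : ∀ w : Vec j, fderiv ℝ (fun p : Cov j => B p (0, y) (0, y')) (v, w) (x, 0) =
          -(fderiv ℝ B (v, w) (0, y) (0, y') (x, 0)) -
            fderiv ℝ B (v, w) (0, y') (x, 0) (0, y) := by
        intro w
        rw [fd2 hB]
        have h4 := hB.closed (v, w) (x, 0) (0, y) (0, y')
        linarith
      have hc : ∀ z u u' : Cov j, Continuous fun w : Vec j => fderiv ℝ B (v, w) z u u' := by
        intro z u u'
        have h5 : Continuous (fderiv ℝ (fun q : Cov j => B q u u')) :=
          (cd2 hB u u').continuous_fderiv (by norm_num)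
        have h6 : Continuous fun w : Vec j => fderiv ℝ (fun q : Cov j => B q u u') (v, w) z :=
          (h5.comp (Continuous.prodMk_right v)).clm_apply continuous_const
        simpa only [fd2 hB] using h6
      simp_rw [h3]
      have h9 := integral_sub (μ := volume.restrict (Bx j))
        (f := fun w : Vec j => -(fderiv ℝ B (v, w) (0, y) (0, y') (x, 0)))
        (g := fun w : Vec j => fderiv ℝ B (v, w) (0, y') (x, 0) (0, y))
        (bx_integrable (hc _ _ _).neg) (bx_integrable (hc _ _ _))
      rw [h9, integral_neg, wint hB, wint hB]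
      simp
    rw [h2] at h1
    exact h1
  have hconst : ∀ v : Vec j, ∫ w in Bx j, B (v, w) (0, y) (0, y') =
      ∫ w in Bx j, B ((0 : Vec j), w) (0, y) (0, y') := by
    intro v
    have h1 : ∀ t : ℝ, HasDerivAt
        (fun t : ℝ => ∫ w in Bx j, B (t • v, w) (0, y) (0, y')) 0 t := by
      intro t
      have h2 := hder (t • v) v
      have h3 : HasDerivAt (fun s : ℝ => s - t) 1 t := (hasDerivAt_id t).sub_const t
      have h4 := HasDerivAt.comp (h₂ := fun s : ℝ =>
        ∫ w in Bx j, B (t • v + s • v, w) (0, y) (0, y')) t (by simpa using h2) h3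
      have h5 : ((fun s : ℝ => ∫ w in Bx j, B (t • v + s • v, w) (0, y) (0, y')) ∘
          fun s : ℝ => s - t) = fun t : ℝ => ∫ w in Bx j, B (t • v, w) (0, y) (0, y') := by
        funext s
        have h6 : t • v + (s - t) • v = s • v := by
          rw [← add_smul]
          congr 1
          ring
        simp only [Function.comp_apply, h6]
      rw [h5] at h4
      simpa using h4
    have h7 := is_const_of_deriv_eq_zero (fun t => (h1 t).differentiableAt)
      (fun t => (h1 t).deriv) 1 0
    simpa using h7
  have hM : Mean (fun p : Cov j => B p (0, y) (0, y')) = 0 := by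
    have h1 := bb_ww hj hB y y'
    unfold bb at h1
    simp only [lin_zero_snd] at h1
    exact h1
  unfold Mean at hM
  rw [hconst v]
  have h8 : ∫ v in Bx j, ∫ w in Bx j, B (v, w) (0, y) (0, y') =
      ∫ _ in Bx j, ∫ w in Bx j, B ((0 : Vec j), w) (0, y) (0, y') := by
    congr 1
    funext v
    exact hconst v
  rw [h8, setIntegral_const, Measure.real, bx_vol] at hM
  simpa using hM

/-- `pull (a, c) B p (0, y) (0, y') = B (gm p (a, c)) (0, y) (0, y')`: `mean_left`, `bb_ww`. -/
theorem avf_ww (hj : 3 ≤ j) {B : Cov j → Bil j} (hB : Cl B) (p : Cov j) (y y' : Vec j) :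
    avf B p (0, y) (0, y') = 0 := by
  have h1 : avf B p (0, y) (0, y') = Mean fun g => B (gm p g) (0, y) (0, y') := by
    unfold avf Mean
    congr 1
    funext a
    congr 1
    funext c
    unfold pull
    rw [ContinuousLinearMap.bilinearComp_apply, rin_zero_snd, rin_zero_snd]
  rw [h1, mean_left (F := fun q : Cov j => B q (0, y) (0, y')) (cd2 hB _ _).continuous
    (fiww hB y y')]
  have h2 := bb_ww hj hB y y'
  unfold bb at h2
  simp only [lin_zero_snd] at h2
  exact h2

/-- `pull (a, c) B p (x, 0) (0, y) = F (gm p (a, c)) + B (gm p (a, c)) (0, y'') (0, y)` with the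
invariant function `F q = B q (lin q.1 (x, 0)) (0, y)`, whose mean value is `bb B (x, 0) (0, y)`
(`mean_left`), and `y'' = x ⋆ a - (p.1 + a) ⋆ x`, which depends on `a` only: for fixed `a` the
integral over `c` of the second term vanishes by `per_shift` and `wmean_ww`. -/
theorem avf_vw (hj : 3 ≤ j) {B : Cov j → Bil j} (hB : Cl B) (p : Cov j) (x y : Vec j) :
    avf B p (x, 0) (0, y) = bb B (x, 0) (0, y) := by
  have hlin : Continuous fun q : Cov j => lin q.1 ((x, 0) : Cov j) := by
    have h1 : (fun q : Cov j => lin q.1 ((x, 0) : Cov j)) =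
        fun q : Cov j => ((x, 0 + st q.1 x) : Cov j) := by
      funext q
      rw [lin_apply]
    rw [h1]
    refine continuous_const.prodMk (continuous_const.add ?_)
    unfold st
    fun_prop
  have hFc : Continuous fun q : Cov j => B q (lin q.1 (x, 0)) (0, y) :=
    (hB.diff.continuous.clm_apply hlin).clm_apply continuous_const
  have hFi : Fi fun q : Cov j => B q (lin q.1 (x, 0)) (0, y) := by
    intro γ q
    have h := hB.inv γ q (lin q.1 (x, 0)) (0, y)
    rw [lin_zero_snd] at h
    have h2 : lin (toV γ.a) (lin q.1 ((x, 0) : Cov j)) = lin (γ • q).1 (x, 0) := by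
      have h3 : (γ • q).1 = toV γ.a + q.1 := by rw [smul_eq]
      rw [h3]
      simp only [lin_apply]
      ext1
      · rfl
      · simp only [st_add_left]
        abel
    rw [h2] at h
    exact h
  have hgm : Continuous fun q : Cov j => gm p q := by
    unfold gm st
    fun_prop
  have key : ∀ a : Vec j, ∫ c in Bx j, pull (a, c) B p (x, 0) (0, y) =
      ∫ c in Bx j, B (gm p (a, c)) (lin (gm p (a, c)).1 (x, 0)) (0, y) := by
    intro a
    have h1 : ∀ c : Vec j, pull (a, c) B p (x, 0) (0, y) =
        B (gm p (a, c)) (lin (gm p (a, c)).1 (x, 0)) (0, y) +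
          B (p.1 + a, c + (p.2 + st p.1 a)) (0, st x a - st (p.1 + a) x) (0, y) := by
      intro c
      unfold pull
      rw [ContinuousLinearMap.bilinearComp_apply, rin_zero_snd]
      have h2 : rin ((a, c) : Cov j).1 ((x, 0) : Cov j) =
          lin (gm p (a, c)).1 (x, 0) + (0, st x a - st (p.1 + a) x) := by
        simp only [lin_apply, rin_apply, gm]
        ext1
        · simp
        · simp
      have h3 : gm p (a, c) = (p.1 + a, c + (p.2 + st p.1 a)) := by
        unfold gm
        ext1
        · rfl
        · simp only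
          abel
      rw [h2, map_add, add_apply]
      rw [← h3]
    have hc1 : Continuous fun c : Vec j =>
        B (gm p (a, c)) (lin (gm p (a, c)).1 (x, 0)) (0, y) :=
      hFc.comp (hgm.comp (Continuous.prodMk_right a))
    have hc2 : Continuous fun w : Vec j =>
        B (p.1 + a, w) (0, st x a - st (p.1 + a) x) (0, y) :=
      (cd2 hB _ _).continuous.comp (Continuous.prodMk_right (p.1 + a))
    have hc3 : Continuous fun c : Vec j =>
        B (p.1 + a, c + (p.2 + st p.1 a)) (0, st x a - st (p.1 + a) x) (0, y) :=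
      hc2.comp (continuous_id.add continuous_const)
    simp_rw [h1]
    rw [integral_add (bx_integrable hc1) (bx_integrable hc3)]
    have h4 := per_shift hc2 (per2 hB (p.1 + a) (0, st x a - st (p.1 + a) x) (0, y))
      (p.2 + st p.1 a)
    rw [h4, wmean_ww hj hB, add_zero]
  have h5 : avf B p (x, 0) (0, y) =
      Mean fun g => B (gm p g) (lin (gm p g).1 (x, 0)) (0, y) := by
    unfold avf Mean
    congr 1
    funext a
    exact key a
  rw [h5, mean_left (F := fun q : Cov j => B q (lin q.1 (x, 0)) (0, y)) hFc hFi]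
  unfold bb
  simp only [lin_zero_snd]

theorem avf_antisymm {B : Cov j → Bil j} (hB : Cl B) (p x y : Cov j) :
    avf B p y x = -avf B p x y := by
  unfold avf
  rw [← integral_neg]
  congr 1
  funext a
  rw [← integral_neg]
  congr 1
  funext c
  unfold pull
  rw [ContinuousLinearMap.bilinearComp_apply, ContinuousLinearMap.bilinearComp_apply]
  exact anti hB _ _ _

end Pool.Agent.MP1a66bd
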