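import Pool.Agent.Lib.MP_1a66bd_gt.Brk

/-!
# Cocycles on the complex Lie algebra are complex linear; the determinant is non-negative
-/

set_option autoImplicit false

noncomputable section

namespace Pool.Agent.MP1a66bd

open Finset

variable {j : ℕ} [NeZero j]

private theorem br_I_left (x y : Vec j) : br (Complex.I • x) y = Complex.I • br x y := by
  funext i
  simp only [br, st, Pi.sub_apply, Pi.smul_apply, smul_eq_mul]
  ring

private theorem br_I_right (x y : Vec j) : br x (Complex.I • y) = Complex.I • br x y := by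
  funext i
  simp only [br, st, Pi.sub_apply, Pi.smul_apply, smul_eq_mul]
  ring

omit [NeZero j] in
private theorem I_I (x : Vec j) : Complex.I • Complex.I • x = -x := by
  rw [smul_smul, Complex.I_mul_I, neg_one_smul]

/-- the defect of complex linearity -/
private def NN (b : Vec j →ₗ[ℝ] Vec j →ₗ[ℝ] ℝ) (x : Vec j) : Vec j →ₗ[ℝ] ℝ where
  toFun w := b (Complex.I • x) w - b x (Complex.I • w)
  map_add' := by
    intro u w
    rw [smul_add, map_add, map_add]
    ring
  map_smul' := by
    intro c w
    have h1 := LinearMap.map_smul (b (Complex.I • x)) c w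
    have h2 := LinearMap.map_smul (b x) c (Complex.I • w)
    rw [smul_comm Complex.I c w, h1, h2, smul_eq_mul, smul_eq_mul, RingHom.id_apply, smul_eq_mul]
    ring

omit [NeZero j] in
private theorem NN_apply (b : Vec j →ₗ[ℝ] Vec j →ₗ[ℝ] ℝ) (x w : Vec j) :
    NN b x w = b (Complex.I • x) w - b x (Complex.I • w) := rfl

omit [NeZero j] in
private theorem NN_I (b : Vec j →ₗ[ℝ] Vec j →ₗ[ℝ] ℝ) (x w : Vec j) :
    NN b (Complex.I • x) w = -NN b x (Complex.I • w) := by
  rw [NN_apply, NN_apply, I_I, I_I, map_neg, map_neg, LinearMap.neg_apply]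
  ring

/-- Let `N x w = b (I • x) w - b x (I • w)` and `P x y z = N x (br y z)`. The difference of `hc` at
`(I • x, y, z)` and at `(x, I • y, z)` gives `P x y z = P y z x`. Moreover `N (I • x) w = - N x (I • w)`,
hence `P (I • x) y z = - P x (I • y) z = - P x y (I • z)`. By the cyclic symmetry
`P (I • x) y z = P y z (I • x) = P y (I • z) x = P x y (I • z)`; so `P = 0`, and `N = 0` by
`br_span`. -/
theorem cpx_lin (hj : 3 ≤ j) (b : Vec j →ₗ[ℝ] Vec j →ₗ[ℝ] ℝ)
    (hc : ∀ x y z, b x (br y z) + b y (br z x) + b z (br x y) = 0) (x w : Vec j) :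
    b (Complex.I • x) w = b x (Complex.I • w) := by
  have cyc : ∀ x y z, NN b x (br y z) = NN b y (br z x) := by
    intro x y z
    have h1 := hc (Complex.I • x) y z
    have h2 := hc x (Complex.I • y) z
    rw [br_I_right, br_I_left] at h1
    rw [br_I_left, br_I_right] at h2
    rw [NN_apply, NN_apply]
    linarith
  have z0 : ∀ x y z, NN b (Complex.I • x) (br y z) = 0 := by
    intro x y z
    have h1 : NN b (Complex.I • x) (br y z) = -NN b x (br y (Complex.I • z)) := by
      rw [NN_I, br_I_right]
    have h2 : NN b (Complex.I • x) (br y z) = NN b x (br y (Complex.I • z)) := by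
      rw [cyc, cyc x y (Complex.I • z), br_I_right, br_I_left]
    linarith
  have z1 : ∀ x y z, NN b x (br y z) = 0 := by
    intro x y z
    have h := z0 (-(Complex.I • x)) y z
    rwa [smul_neg, I_I, neg_neg] at h
  have h := LinearMap.congr_fun (br_span hj (NN b x) (z1 x)) w
  rw [NN_apply, LinearMap.zero_apply] at h
  exact sub_eq_zero.mp h

omit [NeZero j] in
private theorem I_single_one (i : Fin j) :
    Complex.I • (Pi.single i 1 : Vec j) = Pi.single i Complex.I := by
  rw [← Pi.single_smul, smul_eq_mul, mul_one]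

omit [NeZero j] in
private theorem I_single_I (i : Fin j) :
    Complex.I • (Pi.single i Complex.I : Vec j) = -Pi.single i 1 := by
  rw [← Pi.single_smul, smul_eq_mul, Complex.I_mul_I, ← Pi.single_neg]

/-- `A x i = b x (Pi.single i 1) - I * b x (Pi.single i I)`. -/
theorem exists_cpx (b : Vec j →ₗ[ℝ] Vec j →ₗ[ℝ] ℝ)
    (h : ∀ x w, b (Complex.I • x) w = b x (Complex.I • w)) :
    ∃ A : Vec j →ₗ[ℂ] Vec j, ∀ x w, b x w = prr (A x) w := by
  let F : Vec j → Vec j := fun x i =>
    ((b x (Pi.single i 1) : ℝ) : ℂ) - Complex.I * ((b x (Pi.single i Complex.I) : ℝ) : ℂ)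
  have hF : ∀ x i, F x i =
    ((b x (Pi.single i 1) : ℝ) : ℂ) - Complex.I * ((b x (Pi.single i Complex.I) : ℝ) : ℂ) :=
    fun _ _ => rfl
  have hadd : ∀ x y, F (x + y) = F x + F y := by
    intro x y
    funext i
    rw [Pi.add_apply, hF, hF, hF, map_add, LinearMap.add_apply, LinearMap.add_apply,
      Complex.ofReal_add, Complex.ofReal_add]
    ring
  have hreal : ∀ (c : ℝ) (x : Vec j), F (c • x) = c • F x := by
    intro c x
    funext i
    rw [Pi.smul_apply, hF, hF, map_smul, LinearMap.smul_apply, LinearMap.smul_apply, smul_eq_mul,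
      smul_eq_mul, Complex.ofReal_mul, Complex.ofReal_mul, Complex.real_smul]
    ring
  have hI : ∀ x : Vec j, F (Complex.I • x) = Complex.I • F x := by
    intro x
    funext i
    rw [Pi.smul_apply, hF, hF, h, h, I_single_one, I_single_I, map_neg, Complex.ofReal_neg,
      smul_eq_mul]
    linear_combination ((b x (Pi.single i Complex.I) : ℝ) : ℂ) * Complex.I_mul_I
  have hsmul : ∀ (c : ℂ) (x : Vec j), F (c • x) = c • F x := by
    intro c x
    have e : ∀ y : Vec j, c • y = c.re • y + c.im • (Complex.I • y) := by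
      intro y
      funext i
      simp only [Pi.smul_apply, Pi.add_apply, smul_eq_mul, Complex.real_smul]
      conv_lhs => rw [← Complex.re_add_im c]
      ring
    rw [e x, hadd, hreal, hreal, hI, ← e (F x)]
  refine ⟨{ toFun := F, map_add' := hadd, map_smul' := hsmul }, fun x w => ?_⟩
  have hw : w = ∑ i, ((w i).re • (Pi.single i 1 : Vec j) + (w i).im • (Pi.single i Complex.I : Vec j)) := by
    funext k
    rw [Finset.sum_apply, Finset.sum_eq_single k]
    · simp only [Pi.add_apply, Pi.smul_apply, Pi.single_eq_same, Complex.real_smul, mul_one]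
      exact (Complex.re_add_im (w k)).symm
    · intro i _ hik
      simp only [Pi.add_apply, Pi.smul_apply, Pi.single_eq_of_ne hik.symm, smul_zero, add_zero]
    · intro hk
      exact absurd (Finset.mem_univ k) hk
  have h1 : b x w = ∑ i, ((w i).re * b x (Pi.single i 1) + (w i).im * b x (Pi.single i Complex.I)) := by
    conv_lhs => rw [hw]
    rw [map_sum]
    refine Finset.sum_congr rfl fun i _ => ?_
    rw [map_add, map_smul, map_smul, smul_eq_mul, smul_eq_mul]
  rw [h1]
  change _ = (∑ i, F x i * w i).re
  rw [Complex.re_sum]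
  refine Finset.sum_congr rfl fun i _ => ?_
  rw [hF, Complex.mul_re, Complex.sub_re, Complex.sub_im, Complex.ofReal_re, Complex.ofReal_im,
    Complex.mul_re, Complex.mul_im, Complex.I_re, Complex.I_im, Complex.ofReal_re,
    Complex.ofReal_im]
  ring

/-- `LinearMap.det_restrictScalars` and `Algebra.norm_complex_apply` -/
theorem det_cpx_nonneg (A : Vec j →ₗ[ℂ] Vec j) : 0 ≤ LinearMap.det (A.restrictScalars ℝ) := by
  rw [LinearMap.det_restrictScalars, Algebra.norm_complex_apply]
  exact Complex.normSq_nonneg _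

end Pool.Agent.MP1a66bd
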