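import Pool.Agent.Lib.MP_1a66bd_gt.Defs

/-!
# Vanishing by cyclic symmetry
-/

set_option autoImplicit false

noncomputable section

namespace Pool.Agent.MP1a66bd

open Finset

variable {K E : Type*} [Fintype K] [DecidableEq K]

/-- Let `c` be the cyclic permutation `inl i₀ → inl i → inr i → inl i₀`, of sign `1`. The sum `S`
does not change if `σ` is replaced by `σ * c` and by `σ * c * c` (`Equiv.sum_comp`,
`Equiv.mulRight`); the arguments of the other factors are not moved by `c`, so the sum of the three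
expressions is `0` by `hC`: `3 S = 0`. -/
theorem cyc_zero (x : K ⊕ K → E) (i₀ i : K) (hi : i ≠ i₀) (η : E → ℝ) (C : E → E → E → ℝ)
    (hC : ∀ x y z, C x y z + C y z x + C z x y = 0) (B : K → E → E → ℝ) :
    ∑ σ : Equiv.Perm (K ⊕ K), ((Equiv.Perm.sign σ : ℤ) : ℝ) *
      (η (x (σ (Sum.inr i₀))) *
        (C (x (σ (Sum.inl i₀))) (x (σ (Sum.inl i))) (x (σ (Sum.inr i))) *
        ∏ i' ∈ (univ.erase i₀).erase i, B i' (x (σ (Sum.inl i'))) (x (σ (Sum.inr i'))))) = 0 := by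
  obtain ⟨c, hc⟩ : ∃ c : Equiv.Perm (K ⊕ K), c = Equiv.swap (Sum.inl i₀) (Sum.inl i) *
      Equiv.swap (Sum.inl i) (Sum.inr i) := ⟨_, rfl⟩
  have hne1 : (Sum.inl i₀ : K ⊕ K) ≠ Sum.inl i := fun h => hi (Sum.inl.inj h).symm
  have hne2 : (Sum.inl i : K ⊕ K) ≠ Sum.inr i := by simp
  have hne3 : (Sum.inl i₀ : K ⊕ K) ≠ Sum.inr i := by simp
  have hsign : Equiv.Perm.sign c = 1 := by
    rw [hc, Equiv.Perm.sign_mul, Equiv.Perm.sign_swap hne1, Equiv.Perm.sign_swap hne2]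
    rfl
  have h1 : c (Sum.inl i₀) = Sum.inl i := by
    rw [hc, Equiv.Perm.mul_apply, Equiv.swap_apply_of_ne_of_ne hne1 hne3, Equiv.swap_apply_left]
  have h2 : c (Sum.inl i) = Sum.inr i := by
    rw [hc, Equiv.Perm.mul_apply, Equiv.swap_apply_left,
      Equiv.swap_apply_of_ne_of_ne hne3.symm hne2.symm]
  have h3 : c (Sum.inr i) = Sum.inl i₀ := by
    rw [hc, Equiv.Perm.mul_apply, Equiv.swap_apply_right, Equiv.swap_apply_right]
  have h4 : ∀ y : K ⊕ K, y ≠ Sum.inl i₀ → y ≠ Sum.inl i → y ≠ Sum.inr i → c y = y := by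
    intro y hy1 hy2 hy3
    rw [hc, Equiv.Perm.mul_apply, Equiv.swap_apply_of_ne_of_ne hy2 hy3,
      Equiv.swap_apply_of_ne_of_ne hy1 hy2]
  have h5 : c (Sum.inr i₀) = Sum.inr i₀ := by
    refine h4 _ (by simp) (by simp) ?_
    intro h
    exact hi (Sum.inr.inj h).symm
  -- the general term
  obtain ⟨F, hF⟩ : ∃ F : Equiv.Perm (K ⊕ K) → ℝ, F = fun σ => ((Equiv.Perm.sign σ : ℤ) : ℝ) *
      (η (x (σ (Sum.inr i₀))) *
        (C (x (σ (Sum.inl i₀))) (x (σ (Sum.inl i))) (x (σ (Sum.inr i))) *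
        ∏ i' ∈ (univ.erase i₀).erase i, B i' (x (σ (Sum.inl i'))) (x (σ (Sum.inr i'))))) :=
    ⟨_, rfl⟩
  have hprod : ∀ σ : Equiv.Perm (K ⊕ K), ∏ i' ∈ (univ.erase i₀).erase i,
      B i' (x ((σ * c) (Sum.inl i'))) (x ((σ * c) (Sum.inr i'))) =
      ∏ i' ∈ (univ.erase i₀).erase i, B i' (x (σ (Sum.inl i'))) (x (σ (Sum.inr i'))) := by
    intro σ
    refine prod_congr rfl (fun i' hi' => ?_)
    rw [mem_erase, mem_erase] at hi'
    have e1 : c (Sum.inl i') = Sum.inl i' := by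
      refine h4 _ ?_ ?_ (by simp)
      · intro h
        exact hi'.2.1 (Sum.inl.inj h)
      · intro h
        exact hi'.1 (Sum.inl.inj h)
    have e2 : c (Sum.inr i') = Sum.inr i' := by
      refine h4 _ (by simp) (by simp) ?_
      intro h
      exact hi'.1 (Sum.inr.inj h)
    rw [Equiv.Perm.mul_apply, Equiv.Perm.mul_apply, e1, e2]
  have hs : ∀ σ : Equiv.Perm (K ⊕ K), Equiv.Perm.sign (σ * c) = Equiv.Perm.sign σ := by
    intro σ
    rw [Equiv.Perm.sign_mul, hsign, mul_one]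
  have hF1 : ∀ σ, F (σ * c) = ((Equiv.Perm.sign σ : ℤ) : ℝ) *
      (η (x (σ (Sum.inr i₀))) *
        (C (x (σ (Sum.inl i))) (x (σ (Sum.inr i))) (x (σ (Sum.inl i₀))) *
        ∏ i' ∈ (univ.erase i₀).erase i, B i' (x (σ (Sum.inl i'))) (x (σ (Sum.inr i'))))) := by
    intro σ
    rw [hF]
    beta_reduce
    rw [hprod σ, hs σ, Equiv.Perm.mul_apply, Equiv.Perm.mul_apply, Equiv.Perm.mul_apply,
      Equiv.Perm.mul_apply, h1, h2, h3, h5]
  have hF2 : ∀ σ, F (σ * c * c) = ((Equiv.Perm.sign σ : ℤ) : ℝ) *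
      (η (x (σ (Sum.inr i₀))) *
        (C (x (σ (Sum.inr i))) (x (σ (Sum.inl i₀))) (x (σ (Sum.inl i))) *
        ∏ i' ∈ (univ.erase i₀).erase i, B i' (x (σ (Sum.inl i'))) (x (σ (Sum.inr i'))))) := by
    intro σ
    rw [hF1 (σ * c), hprod σ, hs σ, Equiv.Perm.mul_apply, Equiv.Perm.mul_apply,
      Equiv.Perm.mul_apply, Equiv.Perm.mul_apply, h1, h2, h3, h5]
  have hsum1 : ∑ σ, F (σ * c) = ∑ σ, F σ := Equiv.sum_comp (Equiv.mulRight c) F
  have hsum2 : ∑ σ, F (σ * c * c) = ∑ σ, F σ := by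
    rw [← hsum1]
    exact Equiv.sum_comp (Equiv.mulRight c) (fun σ => F (σ * c))
  have h0 : ∑ σ, F σ + ∑ σ, F (σ * c) + ∑ σ, F (σ * c * c) = 0 := by
    rw [← sum_add_distrib, ← sum_add_distrib]
    refine sum_eq_zero (fun σ _ => ?_)
    rw [hF1, hF2, hF]
    beta_reduce
    have h6 := hC (x (σ (Sum.inl i₀))) (x (σ (Sum.inl i))) (x (σ (Sum.inr i)))
    linear_combination ((Equiv.Perm.sign σ : ℤ) : ℝ) * η (x (σ (Sum.inr i₀))) *
      (∏ i' ∈ (univ.erase i₀).erase i, B i' (x (σ (Sum.inl i'))) (x (σ (Sum.inr i')))) * h6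
  rw [hsum1, hsum2] at h0
  have h7 : ∑ σ, F σ = 0 := by linarith
  rw [hF] at h7
  exact h7

end Pool.Agent.MP1a66bd
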