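import Mathlib

/-!
# Definitions: a complex nilmanifold of real dimension `4 j`

`Cov j = ℂ^j × ℂ^j` with the group law `(v, w) (v', w') = (v + v', w + w' + v ⋆ v')`, where
`(v ⋆ v') i = v i * v' (i + 1)` (indices modulo `j`), and the lattice `Gam j` of its Gaussian
integer points, acting by left translations.
-/

set_option autoImplicit false

noncomputable section

namespace Pool.Agent.MP1a66bd

open MeasureTheory Finset

/-! ## The group, the lattice and the action -/

/-- `ℂ^j` -/
abbrev Vec (j : ℕ) : Type := Fin j → ℂ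

/-- `ℂ^j × ℂ^j`, the universal cover of the manifold -/
abbrev Cov (j : ℕ) : Type := Vec j × Vec j

/-- the product `(v ⋆ v') i = v i * v' (i + 1)`, indices modulo `j` -/
def st {R : Type*} [Mul R] {j : ℕ} [NeZero j] (v v' : Fin j → R) : Fin j → R :=
  fun i => v i * v' (i + 1)

/-- the lattice `ℤ[i]^j × ℤ[i]^j` -/
@[ext] structure Gam (j : ℕ) : Type where
  /-- first component -/
  a : Fin j → GaussianInt
  /-- second component -/
  c : Fin j → GaussianInt

variable {j : ℕ} [NeZero j]

theorem st_add_left {R : Type*} [Ring R] (u v w : Fin j → R) : st (u + v) w = st u w + st v w := by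
  funext i; simp [st, add_mul]

theorem st_add_right {R : Type*} [Ring R] (u v w : Fin j → R) :
    st u (v + w) = st u v + st u w := by
  funext i; simp [st, mul_add]

theorem st_neg_left {R : Type*} [Ring R] (u v : Fin j → R) : st (-u) v = -st u v := by
  funext i; simp [st]

theorem st_neg_right {R : Type*} [Ring R] (u v : Fin j → R) : st u (-v) = -st u v := by
  funext i; simp [st]

theorem st_zero_left {R : Type*} [Ring R] (u : Fin j → R) : st 0 u = 0 := by
  funext i; simp [st]

theorem st_zero_right {R : Type*} [Ring R] (u : Fin j → R) : st u 0 = 0 := by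
  funext i; simp [st]

theorem st_smul_left (c : ℝ) (u v : Vec j) : st (c • u) v = c • st u v := by
  funext i; simp [st, mul_assoc]

theorem st_smul_right (c : ℝ) (u v : Vec j) : st u (c • v) = c • st u v := by
  funext i; simp [st, mul_left_comm]

instance : Mul (Gam j) := ⟨fun γ δ => ⟨γ.a + δ.a, γ.c + δ.c + st γ.a δ.a⟩⟩
instance : One (Gam j) := ⟨⟨0, 0⟩⟩
instance : Inv (Gam j) := ⟨fun γ => ⟨-γ.a, -γ.c + st γ.a γ.a⟩⟩

@[simp] theorem mul_a (γ δ : Gam j) : (γ * δ).a = γ.a + δ.a := rfl
@[simp] theorem mul_c (γ δ : Gam j) : (γ * δ).c = γ.c + δ.c + st γ.a δ.a := rfl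
omit [NeZero j] in
@[simp] theorem one_a : (1 : Gam j).a = 0 := rfl
omit [NeZero j] in
@[simp] theorem one_c : (1 : Gam j).c = 0 := rfl
@[simp] theorem inv_a (γ : Gam j) : (γ⁻¹).a = -γ.a := rfl
@[simp] theorem inv_c (γ : Gam j) : (γ⁻¹).c = -γ.c + st γ.a γ.a := rfl

instance : Group (Gam j) := Group.ofLeftAxioms
  (by
    intro x y z
    ext1
    · simp [add_assoc]
    · simp only [mul_c, mul_a, st_add_left, st_add_right]
      abel)
  (by
    intro x
    ext1
    · simp
    · simp [st_zero_left])
  (by
    intro x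
    ext1
    · simp
    · simp [st_neg_left])

/-- the inclusion `ℤ[i]^j → ℂ^j` -/
def toV (a : Fin j → GaussianInt) : Vec j := fun i => GaussianInt.toComplex (a i)

omit [NeZero j] in
theorem toV_add (a b : Fin j → GaussianInt) : toV (a + b) = toV a + toV b := by
  funext i; simp [toV]

omit [NeZero j] in
theorem toV_zero : toV (0 : Fin j → GaussianInt) = 0 := by
  funext i; simp [toV]

theorem toV_st (a b : Fin j → GaussianInt) : toV (st a b) = st (toV a) (toV b) := by
  funext i; simp [toV, st]

/-- the group law of `Cov j` -/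
def gm (p q : Cov j) : Cov j := (p.1 + q.1, p.2 + q.2 + st p.1 q.1)

theorem gm_assoc (p q r : Cov j) : gm (gm p q) r = gm p (gm q r) := by
  unfold gm
  ext1
  · simp [add_assoc]
  · simp only [st_add_left, st_add_right]
    abel

/-- the inclusion of the lattice -/
def emb (γ : Gam j) : Cov j := (toV γ.a, toV γ.c)

theorem emb_mul (γ δ : Gam j) : emb (γ * δ) = gm (emb γ) (emb δ) := by
  simp [emb, gm, toV_add, toV_st]

instance : MulAction (Gam j) (Cov j) where
  smul γ p := gm (emb γ) p
  one_smul p := by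
    change gm (emb 1) p = p
    simp [gm, emb, toV_zero, st_zero_left]
  mul_smul γ δ p := by
    change gm (emb (γ * δ)) p = gm (emb γ) (gm (emb δ) p)
    rw [emb_mul, gm_assoc]

theorem smul_def (γ : Gam j) (p : Cov j) : γ • p = gm (emb γ) p := rfl

theorem smul_eq (γ : Gam j) (p : Cov j) :
    γ • p = (toV γ.a + p.1, toV γ.c + p.2 + st (toV γ.a) p.1) := rfl

/-- the linear part of the left translation by `(a, c)` -/
def lin (a : Vec j) : Cov j →L[ℝ] Cov j :=
  LinearMap.toContinuousLinearMap
    { toFun := fun x => (x.1, x.2 + st a x.1)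
      map_add' := by
        intro x y
        ext1
        · rfl
        · simp only [Prod.snd_add, Prod.fst_add, st_add_right]
          abel
      map_smul' := by
        intro c x
        ext1
        · rfl
        · simp [st_smul_right] }

/-- the linear part of the right translation by `(a, c)` -/
def rin (a : Vec j) : Cov j →L[ℝ] Cov j :=
  LinearMap.toContinuousLinearMap
    { toFun := fun x => (x.1, x.2 + st x.1 a)
      map_add' := by
        intro x y
        ext1
        · rfl
        · simp only [Prod.snd_add, Prod.fst_add, st_add_left]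
          abel
      map_smul' := by
        intro c x
        ext1
        · rfl
        · simp [st_smul_left] }

@[simp] theorem lin_apply (a : Vec j) (x : Cov j) : lin a x = (x.1, x.2 + st a x.1) := rfl
@[simp] theorem rin_apply (a : Vec j) (x : Cov j) : rin a x = (x.1, x.2 + st x.1 a) := rfl

/-! ## Differential forms on the manifold = invariant forms on the cover -/

/-- differential 2-forms on the cover -/
abbrev Form2 (j : ℕ) : Type := Cov j → Cov j [⋀^Fin 2]→L[ℝ] ℝ

/-- invariance under the lattice: the form is the pull back of a form on the manifold -/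
def Invt (ω : Form2 j) : Prop :=
  ∀ (γ : Gam j) (p : Cov j),
    (ω (γ • p)).compContinuousLinearMap (fderiv ℝ (fun q : Cov j => γ • q) p) = ω p

/-- non-degenerate at every point -/
def NonDeg (ω : Form2 j) : Prop := ∀ (p x : Cov j), x ≠ 0 → ∃ y : Cov j, ω p ![x, y] ≠ 0

/-- closed forms of class `C^1` -/
def ClosedF (ω : Form2 j) : Prop := ContDiff ℝ 1 ω ∧ ∀ p, extDeriv ω p = 0

/-! ## Bilinear forms and the Pfaffian -/

/-- bilinear forms on the tangent space -/
abbrev Bil (j : ℕ) : Type := Cov j →L[ℝ] Cov j →L[ℝ] ℝ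

/-- closed invariant 2-forms of class `C^1`, as bilinear forms -/
structure Cl (B : Cov j → Bil j) : Prop where
  alt : ∀ p x, B p x x = 0
  diff : ContDiff ℝ 1 B
  closed : ∀ p x y z, fderiv ℝ B p x y z + fderiv ℝ B p y z x + fderiv ℝ B p z x y = 0
  inv : ∀ (γ : Gam j) (p x y : Cov j),
    B (γ • p) (lin (toV γ.a) x) (lin (toV γ.a) y) = B p x y

/-- the mixed Pfaffian of a family of bilinear forms on a family of vectors -/
def Wd {K E : Type*} [Fintype K] [DecidableEq K] (B : K → E → E → ℝ) (x : K ⊕ K → E) : ℝ :=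
  ∑ σ : Equiv.Perm (K ⊕ K), ((Equiv.Perm.sign σ : ℤ) : ℝ) *
    ∏ i, B i (x (σ (Sum.inl i))) (x (σ (Sum.inr i)))

/-- the index set of the real basis of `ℂ^j` -/
abbrev KK (j : ℕ) : Type := (_ : Fin j) × Fin 2

/-- the real basis of `ℂ^j` -/
def bv (j : ℕ) : Module.Basis (KK j) ℝ (Vec j) := Pi.basis fun _ => Complex.basisOneI

/-- the real basis of `ℂ^j × ℂ^j` -/
def bs (j : ℕ) : Module.Basis (KK j ⊕ KK j) ℝ (Cov j) := (bv j).prod (bv j)

/-- the mixed Pfaffian with respect to the real basis -/
def pf (C : KK j → Bil j) : ℝ := Wd (fun i x y => C i x y) (bs j)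

/-- the coordinate functionals -/
def coor (s : KK j ⊕ KK j) : Cov j →L[ℝ] ℝ := LinearMap.toContinuousLinearMap ((bs j).coord s)

/-! ## Integration over the manifold -/

/-- the fundamental domain `[0,1)^(2j)` of the lattice in `ℂ^j` -/
def Bx (j : ℕ) : Set (Vec j) :=
  {v | ∀ i, 0 ≤ (v i).re ∧ (v i).re < 1 ∧ 0 ≤ (v i).im ∧ (v i).im < 1}

/-- the mean value -/
def Mean (F : Cov j → ℝ) : ℝ := ∫ v in Bx j, ∫ w in Bx j, F (v, w)

/-- invariant functions -/
def Fi (F : Cov j → ℝ) : Prop := ∀ (γ : Gam j) (p : Cov j), F (γ • p) = F p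

/-! ## Exterior derivative, divergence, pull back by right translations -/

/-- the exterior derivative of a 1-form -/
def dd (η : Cov j → (Cov j →L[ℝ] ℝ)) (p : Cov j) : Bil j := fderiv ℝ η p - (fderiv ℝ η p).flip

/-- the divergence of a vector field -/
def dv (Y : Cov j → Cov j) (p : Cov j) : ℝ := ∑ s, coor s (fderiv ℝ Y p (bs j s))

/-- the vector field which represents the form `η ∧ ∏_{i ≠ i₀} B i` of degree `n - 1` -/
def Yv (i₀ : KK j) (η : Cov j → (Cov j →L[ℝ] ℝ)) (B : KK j → Cov j → Bil j) (p : Cov j) : Cov j :=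
  ∑ s, pf (Function.update (fun i => B i p) i₀ ((coor s).smulRight (η p))) • bs j s

/-- the pull back by the right translation by `g` -/
def pull (g : Cov j) (B : Cov j → Bil j) (p : Cov j) : Bil j :=
  (B (gm p g)).bilinearComp (rin g.1) (rin g.1)

/-- the primitive of the derivative of `t ↦ pull (t • g) B` -/
def eta (t : ℝ) (g : Cov j) (B : Cov j → Bil j) (p : Cov j) : Cov j →L[ℝ] ℝ :=
  (B (gm p (t • g)) (lin p.1 g)).comp (rin (t • g.1))

/-- the average of the pull backs by right translations -/
def avf (B : Cov j → Bil j) (p x y : Cov j) : ℝ :=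
  ∫ a in Bx j, ∫ c in Bx j, pull (a, c) B p x y

/-- the left invariant form obtained by averaging -/
def bb (B : Cov j → Bil j) (x y : Cov j) : ℝ := Mean fun p => B p (lin p.1 x) (lin p.1 y)

/-- the Lie bracket of `ℂ^j × ℂ^j`, as a map `ℂ^j × ℂ^j → ℂ^j` -/
def br (x y : Vec j) : Vec j := st x y - st y x

/-- the pairing `Re ∑ x i * y i` -/
def prr (x y : Vec j) : ℝ := (∑ i, x i * y i).re

end Pool.Agent.MP1a66bd
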