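import Pool.Agent.Lib.MP_1a66bd_gt.Alt
import Pool.Agent.Lib.MP_1a66bd_gt.Cyc

/-!
# An exact top form is a divergence
-/

set_option autoImplicit false

noncomputable section

namespace Pool.Agent.MP1a66bd

open Finset

variable {j : ℕ} [NeZero j]

/-- the value of the coordinate functionals on the basis -/
theorem coor_bs (s t : KK j ⊕ KK j) : coor s (bs j t) = if s = t then 1 else 0 := by
  change (bs j).coord s (bs j t) = _
  rw [Module.Basis.coord_apply, Module.Basis.repr_self, Finsupp.single_apply]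
  exact if_congr eq_comm rfl rfl

private theorem div_hasD {B : Cov j → Bil j} (hB : ContDiff ℝ 1 B) (p y z : Cov j) :
    HasFDerivAt (fun q => B q y z) (((fderiv ℝ B p).flip y).flip z) p := by
  have h1 : HasFDerivAt B (fderiv ℝ B p) p :=
    (hB.differentiable (by norm_num)).differentiableAt.hasFDerivAt
  have h2 := (h1.clm_apply (hasFDerivAt_const y p)).clm_apply (hasFDerivAt_const z p)
  refine h2.congr_fderiv (ContinuousLinearMap.ext fun v => ?_)
  simp

private theorem div_hasD1 {η : Cov j → (Cov j →L[ℝ] ℝ)} (hη : ContDiff ℝ 1 η) (p y : Cov j) :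
    HasFDerivAt (fun q => η q y) ((ContinuousLinearMap.apply ℝ ℝ y).comp (fderiv ℝ η p)) p :=
  (ContinuousLinearMap.apply ℝ ℝ y).hasFDerivAt.comp p
    ((hη.differentiable (by norm_num)).differentiableAt.hasFDerivAt)

private theorem div_Wd_update {K E : Type*} [Fintype K] [DecidableEq K] (B : K → E → E → ℝ)
    (x : K ⊕ K → E) (i₀ : K) (D : E → E → ℝ) :
    Wd (Function.update B i₀ D) x = ∑ σ : Equiv.Perm (K ⊕ K), ((Equiv.Perm.sign σ : ℤ) : ℝ) *
      (D (x (σ (Sum.inl i₀))) (x (σ (Sum.inr i₀))) *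
        ∏ i ∈ univ.erase i₀, B i (x (σ (Sum.inl i))) (x (σ (Sum.inr i)))) := by
  unfold Wd
  refine sum_congr rfl fun σ _ => ?_
  rw [← mul_prod_erase univ _ (mem_univ i₀), Function.update_self]
  congr 2
  refine prod_congr rfl fun i hi => ?_
  rw [Function.update_of_ne (ne_of_mem_erase hi)]

private theorem div_pf_update (C : KK j → Bil j) (i₀ : KK j) (D : Bil j) :
    pf (Function.update C i₀ D) =
      Wd (Function.update (fun i x y => C i x y) i₀ fun x y => D x y) (bs j) := by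
  unfold pf
  congr 1
  funext i x y
  by_cases h : i = i₀
  · subst h
    rw [Function.update_self, Function.update_self]
  · rw [Function.update_of_ne h, Function.update_of_ne h]

/-- the function of the `σ`-term -/
private def div_h (i₀ : KK j) (η : Cov j → (Cov j →L[ℝ] ℝ)) (B : KK j → Cov j → Bil j)
    (σ : Equiv.Perm (KK j ⊕ KK j)) (p : Cov j) : ℝ :=
  η p (bs j (σ (Sum.inr i₀))) *
    ∏ i ∈ univ.erase i₀, B i p (bs j (σ (Sum.inl i))) (bs j (σ (Sum.inr i)))

private theorem div_pf_eq (i₀ : KK j) (η : Cov j → (Cov j →L[ℝ] ℝ)) (B : KK j → Cov j → Bil j)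
    (s : KK j ⊕ KK j) (p : Cov j) :
    pf (Function.update (fun i => B i p) i₀ ((coor s).smulRight (η p))) =
      ∑ σ : Equiv.Perm (KK j ⊕ KK j), (((Equiv.Perm.sign σ : ℤ) : ℝ) *
        (if s = σ (Sum.inl i₀) then 1 else 0)) * div_h i₀ η B σ p := by
  rw [div_pf_update, div_Wd_update]
  refine sum_congr rfl fun σ _ => ?_
  rw [ContinuousLinearMap.smulRight_apply, ContinuousLinearMap.smul_apply, smul_eq_mul, coor_bs]
  unfold div_h
  ring

private theorem div_h_diff (i₀ : KK j) {η : Cov j → (Cov j →L[ℝ] ℝ)} {B : KK j → Cov j → Bil j}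
    (hη : ContDiff ℝ 1 η) (hB : ∀ i, ContDiff ℝ 1 (B i)) (σ : Equiv.Perm (KK j ⊕ KK j)) :
    ContDiff ℝ 1 (div_h i₀ η B σ) := by
  unfold div_h
  refine ContDiff.mul (hη.clm_apply contDiff_const) ?_
  exact contDiff_prod fun i _ => ((hB i).clm_apply contDiff_const).clm_apply contDiff_const

private theorem div_h_deriv (i₀ : KK j) {η : Cov j → (Cov j →L[ℝ] ℝ)} {B : KK j → Cov j → Bil j}
    (hη : ContDiff ℝ 1 η) (hB : ∀ i, ContDiff ℝ 1 (B i)) (σ : Equiv.Perm (KK j ⊕ KK j))
    (p v : Cov j) :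
    fderiv ℝ (div_h i₀ η B σ) p v =
      fderiv ℝ η p v (bs j (σ (Sum.inr i₀))) *
        ∏ i ∈ univ.erase i₀, B i p (bs j (σ (Sum.inl i))) (bs j (σ (Sum.inr i))) +
      ∑ i ∈ univ.erase i₀, η p (bs j (σ (Sum.inr i₀))) *
        (fderiv ℝ (B i) p v (bs j (σ (Sum.inl i))) (bs j (σ (Sum.inr i))) *
          ∏ i' ∈ (univ.erase i₀).erase i,
            B i' p (bs j (σ (Sum.inl i'))) (bs j (σ (Sum.inr i')))) := by
  have h1 := div_hasD1 hη p (bs j (σ (Sum.inr i₀)))
  have h2 := HasFDerivAt.finsetProd (u := univ.erase i₀) (x := p)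
    (g := fun i q => B i q (bs j (σ (Sum.inl i))) (bs j (σ (Sum.inr i))))
    (fun i _ => div_hasD (hB i) p (bs j (σ (Sum.inl i))) (bs j (σ (Sum.inr i))))
  have h3 := (h1.mul h2).fderiv
  have h4 : div_h i₀ η B σ = fun q => η q (bs j (σ (Sum.inr i₀))) *
      ∏ i ∈ univ.erase i₀, B i q (bs j (σ (Sum.inl i))) (bs j (σ (Sum.inr i))) := rfl
  rw [h4]
  have h5 := congrArg (fun L : Cov j →L[ℝ] ℝ => L v) h3
  refine Eq.trans h5 ?_
  simp only [ContinuousLinearMap.add_apply, ContinuousLinearMap.smul_apply, smul_eq_mul,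
    ContinuousLinearMap.sum_apply, ContinuousLinearMap.comp_apply, mul_sum]
  rw [add_comm, mul_comm]
  congr 1
  refine sum_congr rfl fun i _ => ?_
  rw [mul_comm (∏ i' ∈ (univ.erase i₀).erase i, _)]
  rfl

theorem Yv_diff (i₀ : KK j) {η : Cov j → (Cov j →L[ℝ] ℝ)} {B : KK j → Cov j → Bil j}
    (hη : ContDiff ℝ 1 η) (hB : ∀ i, ContDiff ℝ 1 (B i)) : ContDiff ℝ 1 (Yv i₀ η B) := by
  have h1 : Yv i₀ η B = fun p => ∑ s, (∑ σ : Equiv.Perm (KK j ⊕ KK j),
      (((Equiv.Perm.sign σ : ℤ) : ℝ) * (if s = σ (Sum.inl i₀) then 1 else 0)) *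
        div_h i₀ η B σ p) • bs j s := by
    funext p
    unfold Yv
    exact sum_congr rfl fun s _ => by rw [div_pf_eq]
  rw [h1]
  refine ContDiff.sum fun s _ => ContDiff.fun_smul ?_ contDiff_const
  exact ContDiff.sum fun σ _ => contDiff_const.mul (div_h_diff i₀ hη hB σ)

/-- `dv (Yv i₀ η B) p = ∑ s, fderiv (p ↦ pf (update .. (coor s ⊗ η p))) p (bs s)`. Insert the
definition of `Wd` and exchange the sums; `coor s (bs (σ (inl i₀)))` selects `s = σ (inl i₀)`:
`∑ σ, sign σ * fderiv (p ↦ η p (bs (σ (inr i₀))) * ∏ i ≠ i₀, B i p (bs ..) (bs ..)) p (bs (σ (inl i₀)))`.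
Product rule: the derivative of `η` gives `Wd (update .. (fderiv η p))`, which is half of
`Wd (update .. (dd η p))` (`Wd_swap`, `Wd_update_add`, `Wd_update_smul`); the derivative of `B i`
gives `0` by `cyc_zero` with `C x y z = fderiv (B i) p x y z`. -/
theorem stokes_div (i₀ : KK j) {η : Cov j → (Cov j →L[ℝ] ℝ)} {B : KK j → Cov j → Bil j}
    (hη : ContDiff ℝ 1 η) (hB : ∀ i, ContDiff ℝ 1 (B i))
    (hc : ∀ i p x y z, fderiv ℝ (B i) p x y z + fderiv ℝ (B i) p y z x +
      fderiv ℝ (B i) p z x y = 0) (p : Cov j) :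
    pf (Function.update (fun i => B i p) i₀ (dd η p)) = 2 * dv (Yv i₀ η B) p := by
  -- the left hand side
  obtain ⟨b, hb⟩ : ∃ b : KK j → Cov j → Cov j → ℝ, b = fun i x y => B i p x y := ⟨_, rfl⟩
  obtain ⟨D, hD⟩ : ∃ D : Cov j → Cov j → ℝ, D = fun y z => fderiv ℝ η p y z := ⟨_, rfl⟩
  have hL : pf (Function.update (fun i => B i p) i₀ (dd η p)) =
      2 * Wd (Function.update b i₀ D) (bs j) := by
    have h1 : (fun x y : Cov j => dd η p x y) = fun y z => D y z + (-1 : ℝ) * D z y := by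
      funext y z
      rw [hD]
      unfold dd
      rw [ContinuousLinearMap.sub_apply, ContinuousLinearMap.sub_apply,
        ContinuousLinearMap.flip_apply]
      ring
    have h2 := Wd_update_add b (bs j) i₀ D fun y z => (-1 : ℝ) * D z y
    have h3 := Wd_update_smul b (bs j) i₀ (-1) fun y z => D z y
    have h4 := Wd_swap (Function.update b i₀ D) (bs j) i₀
    rw [Function.update_self, Function.update_idem] at h4
    rw [div_pf_update, h1, ← hb, h2, h3, h4]
    ring
  -- the right hand side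
  have hdiff : Differentiable ℝ (Yv i₀ η B) := (Yv_diff i₀ hη hB).differentiable (by norm_num)
  have hcoor : ∀ s, coor s (fderiv ℝ (Yv i₀ η B) p (bs j s)) =
      ∑ σ : Equiv.Perm (KK j ⊕ KK j), (((Equiv.Perm.sign σ : ℤ) : ℝ) *
        (if s = σ (Sum.inl i₀) then 1 else 0)) * fderiv ℝ (div_h i₀ η B σ) p (bs j s) := by
    intro s
    have h1 : (fun q => coor s (Yv i₀ η B q)) = fun q => ∑ σ : Equiv.Perm (KK j ⊕ KK j),
        (((Equiv.Perm.sign σ : ℤ) : ℝ) * (if s = σ (Sum.inl i₀) then 1 else 0)) *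
          div_h i₀ η B σ q := by
      funext q
      rw [← div_pf_eq]
      unfold Yv
      rw [map_sum]
      simp only [map_smul, smul_eq_mul, coor_bs]
      rw [sum_eq_single s]
      · rw [if_pos rfl, mul_one]
      · intro t _ hts
        rw [if_neg (Ne.symm hts), mul_zero]
      · intro h
        exact absurd (mem_univ s) h
    have h2 : fderiv ℝ (fun q => coor s (Yv i₀ η B q)) p =
        (coor s).comp (fderiv ℝ (Yv i₀ η B) p) :=
      ((coor s).hasFDerivAt.comp p (hdiff p).hasFDerivAt).fderiv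
    have h3 : coor s (fderiv ℝ (Yv i₀ η B) p (bs j s)) =
        fderiv ℝ (fun q => coor s (Yv i₀ η B q)) p (bs j s) := by
      rw [h2]
      rfl
    rw [h3, h1]
    have h4 : ∀ σ ∈ (univ : Finset (Equiv.Perm (KK j ⊕ KK j))),
        HasFDerivAt (fun q => (((Equiv.Perm.sign σ : ℤ) : ℝ) *
          (if s = σ (Sum.inl i₀) then 1 else 0)) * div_h i₀ η B σ q)
          ((((Equiv.Perm.sign σ : ℤ) : ℝ) * (if s = σ (Sum.inl i₀) then 1 else 0)) •
            fderiv ℝ (div_h i₀ η B σ) p) p := by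
      intro σ _
      exact (((div_h_diff i₀ hη hB σ).differentiable (by norm_num)) p).hasFDerivAt.const_mul _
    rw [(HasFDerivAt.fun_sum h4).fderiv, ContinuousLinearMap.sum_apply]
    rfl
  have hR : dv (Yv i₀ η B) p = Wd (Function.update b i₀ D) (bs j) := by
    unfold dv
    simp only [hcoor]
    rw [sum_comm]
    have h1 : ∀ σ : Equiv.Perm (KK j ⊕ KK j),
        ∑ s, (((Equiv.Perm.sign σ : ℤ) : ℝ) * (if s = σ (Sum.inl i₀) then 1 else 0)) *
          fderiv ℝ (div_h i₀ η B σ) p (bs j s) =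
        ((Equiv.Perm.sign σ : ℤ) : ℝ) *
          fderiv ℝ (div_h i₀ η B σ) p (bs j (σ (Sum.inl i₀))) := by
      intro σ
      rw [sum_eq_single (σ (Sum.inl i₀))]
      · rw [if_pos rfl, mul_one]
      · intro t _ hts
        rw [if_neg hts, mul_zero, zero_mul]
      · intro h
        exact absurd (mem_univ _) h
    simp only [h1]
    have h2 : ∀ σ : Equiv.Perm (KK j ⊕ KK j), ((Equiv.Perm.sign σ : ℤ) : ℝ) *
          fderiv ℝ (div_h i₀ η B σ) p (bs j (σ (Sum.inl i₀))) =
        ((Equiv.Perm.sign σ : ℤ) : ℝ) * (D (bs j (σ (Sum.inl i₀))) (bs j (σ (Sum.inr i₀))) *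
          ∏ i ∈ univ.erase i₀, b i (bs j (σ (Sum.inl i))) (bs j (σ (Sum.inr i)))) +
        ∑ i ∈ univ.erase i₀, ((Equiv.Perm.sign σ : ℤ) : ℝ) * (η p (bs j (σ (Sum.inr i₀))) *
          (fderiv ℝ (B i) p (bs j (σ (Sum.inl i₀))) (bs j (σ (Sum.inl i)))
            (bs j (σ (Sum.inr i))) *
          ∏ i' ∈ (univ.erase i₀).erase i,
            b i' (bs j (σ (Sum.inl i'))) (bs j (σ (Sum.inr i'))))) := by
      intro σ
      rw [div_h_deriv i₀ hη hB, mul_add, mul_sum, hD, hb]
    simp only [h2]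
    rw [sum_add_distrib, sum_comm, div_Wd_update]
    rw [sum_eq_zero (s := univ.erase i₀), add_zero]
    intro i hi
    exact cyc_zero (bs j) i₀ i (ne_of_mem_erase hi) (fun y => η p y)
      (fun x y z => fderiv ℝ (B i) p x y z) (fun x y z => hc i p x y z) b
  rw [hL, hR]

end Pool.Agent.MP1a66bd
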