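import Pool.Agent.Lib.MP_1a66bd_gt.Alt

/-!
# Equivariance
-/

set_option autoImplicit false

noncomputable section

namespace Pool.Agent.MP1a66bd

open Finset

variable {j : ℕ} [NeZero j]

omit [NeZero j] in
private theorem equi_mul (L : Vec j →ₗ[ℝ] Vec j) (S S' T : Cov j →ₗ[ℝ] Cov j)
    (L' : Vec j →ₗ[ℝ] Vec j)
    (hS : ∀ x, S x = (x.1, x.2 + L x.1)) (hS' : ∀ x, S' x = (x.1, x.2 + L' x.1))
    (hT : ∀ x, T x = (x.1, x.2 + (L + L') x.1)) :
    LinearMap.det S * LinearMap.det S' = LinearMap.det T := by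
  rw [← LinearMap.det_comp]
  congr 1
  refine LinearMap.ext fun x => ?_
  rw [LinearMap.comp_apply, hS', hS, hT, LinearMap.add_apply]
  ext1
  · rfl
  · change x.2 + L' x.1 + L x.1 = x.2 + (L x.1 + L' x.1)
    abel

/-- The shear. -/
private def equiS (L : Vec j →ₗ[ℝ] Vec j) : Cov j →ₗ[ℝ] Cov j where
  toFun x := (x.1, x.2 + L x.1)
  map_add' x y := by
    ext1
    · rfl
    · simp only [Prod.snd_add, Prod.fst_add, map_add]
      abel
  map_smul' c x := by
    ext1
    · rfl
    · simp

/-- The stretching of the second factor. -/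
private def equiC (j : ℕ) : Cov j ≃ₗ[ℝ] Cov j :=
  LinearEquiv.prodCongr (LinearEquiv.refl ℝ (Vec j))
    (LinearEquiv.smulOfNeZero ℝ (Vec j) (2 : ℝ) two_ne_zero)

/-- For `L : ℂ^j → ℂ^j` linear let `S_L (x, y) = (x, y + L x)`. Then `S_L S_L' = S_(L + L')`, and
`S_(2 L)` is conjugate to `S_L` by `(x, y) ↦ (x, 2 y)`: `(det S_L)^2 = det S_L ≠ 0`. -/
theorem det_shear (L : Vec j →ₗ[ℝ] Vec j) (S : Cov j →ₗ[ℝ] Cov j)
    (hS : ∀ x, S x = (x.1, x.2 + L x.1)) : LinearMap.det S = 1 := by
  have h1 : LinearMap.det S * LinearMap.det S = LinearMap.det (equiS (L + L)) :=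
    equi_mul L S S _ L hS hS fun _ => rfl
  have h2 : LinearMap.det (equiS (L + L)) = LinearMap.det S := by
    rw [← LinearMap.det_conj S (equiC j)]
    congr 1
    refine LinearMap.ext fun x => ?_
    rw [LinearMap.comp_apply, LinearMap.comp_apply, LinearEquiv.coe_coe, LinearEquiv.coe_coe, hS]
    have h3 : ∀ y : Vec j, (2 : ℝ) • y = y + y := fun y => two_smul ℝ y
    have h4 : (equiC j) ((equiC j).symm x) = x := (equiC j).apply_symm_apply x
    have h5 : ((equiC j) ((equiC j).symm x)).1 = x.1 := congrArg Prod.fst h4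
    have h6 : ((equiC j) ((equiC j).symm x)).2 = x.2 := congrArg Prod.snd h4
    change ((equiC j).symm x).1 = x.1 at h5
    change (2 : ℝ) • ((equiC j).symm x).2 = x.2 at h6
    change (x.1, x.2 + (L + L) x.1) = (((equiC j).symm x).1,
      (2 : ℝ) • (((equiC j).symm x).2 + L ((equiC j).symm x).1))
    rw [h5, smul_add, h6, h3, LinearMap.add_apply]
  have h3 : LinearMap.det S * LinearMap.det (equiS (-L)) = 1 := by
    rw [equi_mul L S (equiS (-L)) LinearMap.id (-L) hS (fun _ => rfl), LinearMap.det_id]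
    intro x
    rw [add_neg_cancel, LinearMap.zero_apply, add_zero]
    rfl
  have h4 : LinearMap.det S ≠ 0 := left_ne_zero_of_mul_eq_one h3
  rw [h2] at h1
  exact mul_left_cancel₀ h4 (by rw [h1, mul_one])

theorem det_lin (a : Vec j) : LinearMap.det ((lin a : Cov j →L[ℝ] Cov j) : Cov j →ₗ[ℝ] Cov j) = 1 :=
  det_shear { toFun := fun x => st a x
              map_add' := fun x y => st_add_right a x y
              map_smul' := fun c x => st_smul_right c a x } _ fun _ => rfl

theorem det_rin (a : Vec j) : LinearMap.det ((rin a : Cov j →L[ℝ] Cov j) : Cov j →ₗ[ℝ] Cov j) = 1 :=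
  det_shear { toFun := fun x => st x a
              map_add' := fun x y => st_add_left x y a
              map_smul' := fun c x => st_smul_left c x a } _ fun _ => rfl

/-- The bilinear form as a linear map. -/
private def equiB (C : Bil j) : Cov j →ₗ[ℝ] Cov j →ₗ[ℝ] ℝ :=
  LinearMap.mk₂ ℝ (fun x y => C x y) (fun x x' y => by rw [map_add]; rfl)
    (fun c x y => by rw [map_smul]; rfl) (fun x y y' => by rw [map_add])
    (fun c x y => by rw [map_smul])

/-- The Pfaffian does not change under a linear substitution of determinant one (`Wd_map`). -/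
theorem pf_lin (C : KK j → Bil j) (a : Vec j) :
    pf (fun i => (C i).bilinearComp (lin a) (lin a)) = pf C := by
  have h := Wd_map (fun i => equiB (C i)) (bs j)
    ((lin a : Cov j →L[ℝ] Cov j) : Cov j →ₗ[ℝ] Cov j)
  rw [det_lin, one_mul] at h
  exact h

/-- The Pfaffian of invariant forms is an invariant function. -/
theorem pf_inv {B : KK j → Cov j → Bil j}
    (hB : ∀ i (γ : Gam j) (p x y : Cov j),
      B i (γ • p) (lin (toV γ.a) x) (lin (toV γ.a) y) = B i p x y) :
    Fi fun p => pf fun i => B i p := by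
  intro γ p
  have h := pf_lin (fun i => B i (γ • p)) (toV γ.a)
  change pf (fun i => B i (γ • p)) = pf fun i => B i p
  rw [← h]
  refine congrArg pf (funext fun i => ?_)
  refine ContinuousLinearMap.ext fun x => ContinuousLinearMap.ext fun y => ?_
  exact hB i γ p x y

omit [NeZero j] in
private theorem equi_pf (C : KK j → Bil j) (i₀ : KK j) (D : Bil j) :
    pf (Function.update C i₀ D) =
      Wd (Function.update (fun i x y => C i x y) i₀ (fun x y => D x y)) (bs j) := by
  unfold pf
  refine congrArg (fun B => Wd B (bs j)) (funext fun i => ?_)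
  by_cases h : i = i₀
  · subst h
    rw [Function.update_self, Function.update_self]
  · rw [Function.update_of_ne h, Function.update_of_ne h]

/-- The Pfaffian with `θ ⊗ f` in the slot `i₀`, as a linear map in `θ`. -/
private def equiP (C : KK j → Bil j) (i₀ : KK j) (f : Cov j →L[ℝ] ℝ) :
    (Cov j →L[ℝ] ℝ) →ₗ[ℝ] ℝ where
  toFun θ := pf (Function.update C i₀ (θ.smulRight f))
  map_add' θ θ' := by
    rw [equi_pf, equi_pf, equi_pf, ← Wd_update_add]
    refine congrArg (fun B => Wd (Function.update (fun i x y => C i x y) i₀ B) (bs j)) ?_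
    funext x y
    change (θ x + θ' x) * f y = θ x * f y + θ' x * f y
    rw [add_mul]
  map_smul' c θ := by
    rw [equi_pf, equi_pf, RingHom.id_apply, smul_eq_mul, ← Wd_update_smul]
    refine congrArg (fun B => Wd (Function.update (fun i x y => C i x y) i₀ B) (bs j)) ?_
    funext x y
    change (c * θ x) * f y = c * (θ x * f y)
    rw [mul_assoc]

omit [NeZero j] in
private theorem equi_functional (i₀ : KK j) (η : Cov j → (Cov j →L[ℝ] ℝ))
    (B : KK j → Cov j → Bil j) (p : Cov j) (θ : Cov j →L[ℝ] ℝ) :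
    θ (Yv i₀ η B p) = pf (Function.update (fun i => B i p) i₀ (θ.smulRight (η p))) := by
  have h1 : θ = ∑ s, θ (bs j s) • coor s := by
    refine ContinuousLinearMap.ext fun x => ?_
    conv_lhs => rw [← (bs j).sum_repr x]
    rw [map_sum, _root_.sum_apply]
    refine sum_congr rfl fun s _ => ?_
    rw [map_smul, _root_.smul_apply, smul_eq_mul, smul_eq_mul, mul_comm]
    rfl
  have h2 : pf (Function.update (fun i => B i p) i₀ (θ.smulRight (η p))) =
      equiP (fun i => B i p) i₀ (η p) θ := rfl
  rw [h2]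
  conv_rhs => rw [h1]
  rw [map_sum, Yv, map_sum]
  refine sum_congr rfl fun s _ => ?_
  rw [map_smul, map_smul, smul_eq_mul, smul_eq_mul, mul_comm]
  rfl

/-- For every linear functional `θ`, `θ (Yv i₀ η B p) = pf (update (B · p) i₀ (θ ⊗ η p))` (the
functional `θ` is `∑ s, θ (bs s) • coor s`). With `θ = coor s` at `γ • p` and
`θ = coor s ∘ lin (toV γ.a)` at `p`, and `pf_lin`, both sides have the same coordinates. -/
theorem Yv_equi (i₀ : KK j) {η : Cov j → (Cov j →L[ℝ] ℝ)} {B : KK j → Cov j → Bil j}
    (hη : ∀ (γ : Gam j) (p x : Cov j), η (γ • p) (lin (toV γ.a) x) = η p x)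
    (hB : ∀ i (γ : Gam j) (p x y : Cov j),
      B i (γ • p) (lin (toV γ.a) x) (lin (toV γ.a) y) = B i p x y)
    (γ : Gam j) (p : Cov j) : Yv i₀ η B (γ • p) = lin (toV γ.a) (Yv i₀ η B p) := by
  refine (bs j).ext_elem fun s => ?_
  have h1 : (coor s) (Yv i₀ η B (γ • p)) =
      ((coor s).comp (lin (toV γ.a))) (Yv i₀ η B p) := by
    rw [equi_functional, equi_functional, ← pf_lin _ (toV γ.a)]
    refine congrArg pf (funext fun i => ?_)
    by_cases h : i = i₀
    · subst h
      rw [Function.update_self, Function.update_self]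
      refine ContinuousLinearMap.ext fun x => ContinuousLinearMap.ext fun y => ?_
      change (coor s) (lin (toV γ.a) x) * (η (γ • p) (lin (toV γ.a) y)) =
        (coor s) (lin (toV γ.a) x) * (η p y)
      rw [hη]
    · rw [Function.update_of_ne h, Function.update_of_ne h]
      refine ContinuousLinearMap.ext fun x => ContinuousLinearMap.ext fun y => ?_
      exact hB i γ p x y
  exact h1

end Pool.Agent.MP1a66bd
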