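import Pool.Agent.Lib.MP_1a66bd_gt.Defs

/-!
# The action of the lattice
-/

set_option autoImplicit false

noncomputable section

namespace Pool.Agent.MP1a66bd

open scoped ContDiff

variable {j : ℕ} [NeZero j]

omit [NeZero j] in
private theorem toV_eq_zero (a : Fin j → GaussianInt) (h : toV a = 0) : a = 0 := by
  funext i
  have h1 := congrFun h i
  simp only [toV, Pi.zero_apply] at h1
  simpa using h1

theorem act_free (γ : Gam j) (p : Cov j) (h : γ • p = p) : γ = 1 := by
  rw [smul_eq] at h
  have h1 : toV γ.a + p.1 = p.1 := congrArg Prod.fst h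
  have h2 : toV γ.c + p.2 + st (toV γ.a) p.1 = p.2 := congrArg Prod.snd h
  have h3 : toV γ.a = 0 := by
    rwa [add_eq_right] at h1
  rw [h3, st_zero_left, add_zero, add_eq_right] at h2
  exact Gam.ext (toV_eq_zero _ h3) (toV_eq_zero _ h2)

private theorem act_eq (γ : Gam j) :
    (fun p : Cov j => γ • p) = fun p => emb γ + lin (toV γ.a) p := by
  funext p
  rw [smul_eq, lin_apply, emb, Prod.mk_add_mk, add_assoc]

theorem act_smooth (γ : Gam j) : ContDiff ℝ ∞ fun p : Cov j => γ • p := by
  rw [act_eq]
  exact contDiff_const.add (lin (toV γ.a)).contDiff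

theorem act_fderiv (γ : Gam j) (p : Cov j) :
    fderiv ℝ (fun q : Cov j => γ • q) p = lin (toV γ.a) := by
  rw [act_eq]
  have h : HasFDerivAt (fun q : Cov j => emb γ + lin (toV γ.a) q) (lin (toV γ.a)) p :=
    (lin (toV γ.a)).hasFDerivAt.const_add (emb γ)
  exact h.fderiv

theorem finrank_cov : Module.finrank ℝ (Cov j) = 2 * (2 * j) := by
  rw [Module.finrank_prod, Module.finrank_pi_fintype]
  simp only [Complex.finrank_real_complex, Finset.sum_const, Finset.card_univ, Fintype.card_fin,
    smul_eq_mul]
  ring

private def linL (j : ℕ) [NeZero j] : Vec j →ₗ[ℝ] (Cov j →L[ℝ] Cov j) where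
  toFun a := lin a - lin 0
  map_add' a b := by
    refine ContinuousLinearMap.ext fun x => ?_
    simp only [_root_.add_apply, _root_.sub_apply, lin_apply,
      st_add_left, st_zero_left, Prod.mk_sub_mk, Prod.mk_add_mk]
    ext1
    · simp
    · simp only
      abel
  map_smul' c a := by
    refine ContinuousLinearMap.ext fun x => ?_
    simp only [_root_.smul_apply, _root_.sub_apply, lin_apply,
      st_smul_left, st_zero_left, Prod.mk_sub_mk, RingHom.id_apply]
    ext1
    · simp
    · simp

private theorem lin_smooth : ContDiff ℝ ∞ fun p : Cov j => lin p.1 := by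
  have h : (fun p : Cov j => lin p.1) =
      fun p : Cov j => lin 0 + LinearMap.toContinuousLinearMap (linL j) p.1 := by
    funext p
    change lin p.1 = lin 0 + (lin p.1 - lin 0)
    rw [add_sub_cancel]
  rw [h]
  exact contDiff_const.add
    ((LinearMap.toContinuousLinearMap (linL j)).contDiff.comp contDiff_fst)

private theorem lin_comp (a b : Vec j) : lin (a + b) = (lin a).comp (lin b) := by
  refine ContinuousLinearMap.ext fun x => ?_
  rw [ContinuousLinearMap.comp_apply, lin_apply, lin_apply, lin_apply, st_add_left]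
  ext1
  · rfl
  · simp only
    abel

private theorem lin_bij (a : Vec j) : Function.Bijective (lin a) := by
  have h0 : ∀ x : Cov j, lin 0 x = x := by
    intro x
    rw [lin_apply, st_zero_left, add_zero]
  constructor
  · intro x y h
    have h1 : (lin (-a)) (lin a x) = (lin (-a)) (lin a y) := by rw [h]
    rw [← ContinuousLinearMap.comp_apply, ← ContinuousLinearMap.comp_apply, ← lin_comp,
      neg_add_cancel, h0, h0] at h1
    exact h1
  · intro x
    refine ⟨lin (-a) x, ?_⟩
    rw [← ContinuousLinearMap.comp_apply, ← lin_comp, add_neg_cancel, h0]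

/-- the left invariant fields trivialise the tangent bundle -/
theorem act_frame : ∃ X : Cov j → (Cov j →L[ℝ] Cov j), ContDiff ℝ ∞ X ∧
    (∀ p, Function.Bijective (X p)) ∧
    ∀ (γ : Gam j) (p : Cov j), X (γ • p) = (fderiv ℝ (fun q : Cov j => γ • q) p).comp (X p) := by
  refine ⟨fun p => lin p.1, lin_smooth, fun p => lin_bij p.1, ?_⟩
  intro γ p
  rw [act_fderiv, ← lin_comp]
  rfl

end Pool.Agent.MP1a66bd
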