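import Pool.Agent.Lib.MP_1a66bd_gt.Defs
import Pool.Agent.Lib.MP_1a66bd_gt.Grp

/-!
# Alternating forms and bilinear forms
-/

set_option autoImplicit false

noncomputable section

namespace Pool.Agent.MP1a66bd

open scoped ContDiff

variable {j : ℕ}

private theorem frm_add_left (φ : Cov j [⋀^Fin 2]→L[ℝ] ℝ) (x x' y : Cov j) :
    φ ![x + x', y] = φ ![x, y] + φ ![x', y] := by
  have h := φ.map_update_add ![x, y] 0 x x'
  have e : ∀ w : Cov j, Function.update ![x, y] 0 w = ![w, y] := by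
    intro w; funext i; fin_cases i <;> rfl
  rwa [e, e, e] at h

private theorem frm_smul_left (φ : Cov j [⋀^Fin 2]→L[ℝ] ℝ) (c : ℝ) (x y : Cov j) :
    φ ![c • x, y] = c * φ ![x, y] := by
  have h := φ.map_update_smul ![x, y] 0 c x
  have e : ∀ w : Cov j, Function.update ![x, y] 0 w = ![w, y] := by
    intro w; funext i; fin_cases i <;> rfl
  rwa [e, e] at h

private theorem frm_swap (φ : Cov j [⋀^Fin 2]→L[ℝ] ℝ) (x y : Cov j) :
    φ ![x, y] = - φ ![y, x] := by
  have h := φ.map_swap ![y, x] (i := 0) (j := 1) (by decide)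
  have h2 : (![y, x] : Fin 2 → Cov j) ∘ (Equiv.swap (0 : Fin 2) 1) = ![x, y] := by
    funext i
    fin_cases i <;> simp
  rw [h2] at h
  exact h

private theorem frm_add_right (φ : Cov j [⋀^Fin 2]→L[ℝ] ℝ) (x y y' : Cov j) :
    φ ![x, y + y'] = φ ![x, y] + φ ![x, y'] := by
  rw [frm_swap φ x (y + y'), frm_add_left, frm_swap φ x y, frm_swap φ x y']
  ring

private theorem frm_smul_right (φ : Cov j [⋀^Fin 2]→L[ℝ] ℝ) (c : ℝ) (x y : Cov j) :
    φ ![x, c • y] = c * φ ![x, y] := by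
  rw [frm_swap φ x (c • y), frm_smul_left, frm_swap φ x y]
  ring

/-- the bilinear form of an alternating form -/
theorem exists_bilL (j : ℕ) : ∃ T : (Cov j [⋀^Fin 2]→L[ℝ] ℝ) →L[ℝ] Bil j,
    ∀ φ x y, T φ x y = φ ![x, y] := by
  have hb : ∀ (φ : Cov j [⋀^Fin 2]→L[ℝ] ℝ) (x y : Cov j), ‖φ ![x, y]‖ ≤ ‖φ‖ * ‖x‖ * ‖y‖ := by
    intro φ x y
    have h := φ.le_opNorm ![x, y]
    simpa [Fin.prod_univ_two, mul_assoc] using h
  let S : (Cov j [⋀^Fin 2]→L[ℝ] ℝ) → Bil j := fun φ =>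
    LinearMap.mkContinuous₂
      (LinearMap.mk₂ ℝ (fun x y => φ ![x, y]) (fun x x' y => frm_add_left φ x x' y)
        (fun c x y => frm_smul_left φ c x y) (fun x y y' => frm_add_right φ x y y')
        (fun c x y => frm_smul_right φ c x y)) ‖φ‖ (fun x y => hb φ x y)
  have hS : ∀ φ x y, S φ x y = φ ![x, y] := fun φ x y => rfl
  let T0 : (Cov j [⋀^Fin 2]→L[ℝ] ℝ) →ₗ[ℝ] Bil j :=
    { toFun := S
      map_add' := by
        intro φ ψ
        exact ContinuousLinearMap.ext fun x => ContinuousLinearMap.ext fun y => rfl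
      map_smul' := by
        intro c φ
        exact ContinuousLinearMap.ext fun x => ContinuousLinearMap.ext fun y => rfl }
  have hT0 : ∀ φ, ‖T0 φ‖ ≤ 1 * ‖φ‖ := ?_
  · refine ⟨LinearMap.mkContinuous (E := Cov j [⋀^Fin 2]→L[ℝ] ℝ) (F := Bil j) T0 1 hT0,
      fun φ x y => ?_⟩
    exact hS φ x y
  intro φ
  rw [one_mul]
  refine ContinuousLinearMap.opNorm_le_bound _ (norm_nonneg φ) fun x => ?_
  refine ContinuousLinearMap.opNorm_le_bound _ (by positivity) fun y => ?_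
  exact hb φ x y

/-- the bilinear form of an alternating form -/
def bilL (j : ℕ) : (Cov j [⋀^Fin 2]→L[ℝ] ℝ) →L[ℝ] Bil j := (exists_bilL j).choose

theorem bilL_apply (φ : Cov j [⋀^Fin 2]→L[ℝ] ℝ) (x y : Cov j) : bilL j φ x y = φ ![x, y] :=
  (exists_bilL j).choose_spec φ x y

/-- the antisymmetrisation of a bilinear form (for instance with
`ContinuousAlternatingMap.alternatizeUncurryFin` and `ContinuousAlternatingMap.ofSubsingleton`) -/
theorem exists_alt2 (j : ℕ) : ∃ T : Bil j →L[ℝ] (Cov j [⋀^Fin 2]→L[ℝ] ℝ),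
    ∀ B x y, T B ![x, y] = (B x y - B y x) / 2 := by
  let L : (Cov j →L[ℝ] ℝ) →L[ℝ] (Cov j [⋀^Fin 1]→L[ℝ] ℝ) :=
    (ContinuousAlternatingMap.ofSubsingletonLIE (𝕜 := ℝ) (E := Cov j) (F := ℝ)
      (0 : Fin 1)).toContinuousLinearEquiv
  let C : Bil j →L[ℝ] (Cov j →L[ℝ] (Cov j [⋀^Fin 1]→L[ℝ] ℝ)) :=
    ContinuousLinearMap.compL ℝ (Cov j) (Cov j →L[ℝ] ℝ) (Cov j [⋀^Fin 1]→L[ℝ] ℝ) L
  refine ⟨(1 / 2 : ℝ) •
    (ContinuousAlternatingMap.alternatizeUncurryFinCLM ℝ (Cov j) ℝ).comp C, fun B x y => ?_⟩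
  have h := ContinuousAlternatingMap.alternatizeUncurryFin_apply (C B) ![x, y]
  have h2 : ((1 / 2 : ℝ) •
      (ContinuousAlternatingMap.alternatizeUncurryFinCLM ℝ (Cov j) ℝ).comp C) B ![x, y]
      = (1 / 2 : ℝ) * ContinuousAlternatingMap.alternatizeUncurryFin (C B) ![x, y] := rfl
  rw [h2, h, Fin.sum_univ_two]
  have h3 : (C B) (![x, y] 0) (Fin.removeNth 0 ![x, y]) = B x y := rfl
  have h4 : (C B) (![x, y] 1) (Fin.removeNth 1 ![x, y]) = B y x := rfl
  rw [h3, h4]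
  simp
  ring

/-- the antisymmetrisation of a bilinear form -/
def alt2 (j : ℕ) : Bil j →L[ℝ] (Cov j [⋀^Fin 2]→L[ℝ] ℝ) := (exists_alt2 j).choose

theorem alt2_apply (B : Bil j) (x y : Cov j) : alt2 j B ![x, y] = (B x y - B y x) / 2 :=
  (exists_alt2 j).choose_spec B x y

private theorem fderiv_bilL {τ : Form2 j} {p : Cov j} (h : DifferentiableAt ℝ τ p)
    (x y z : Cov j) :
    fderiv ℝ (fun q => bilL j (τ q)) p x y z = (fderiv ℝ τ p x) ![y, z] := by
  have hT : HasFDerivAt (fun φ : Cov j [⋀^Fin 2]→L[ℝ] ℝ => bilL j φ) (bilL j) (τ p) :=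
    ContinuousLinearMap.hasFDerivAt (𝕜 := ℝ) (E := Cov j [⋀^Fin 2]→L[ℝ] ℝ) (F := Bil j) (bilL j)
  have h1 : HasFDerivAt (fun q => bilL j (τ q)) ((bilL j).comp (fderiv ℝ τ p)) p :=
    HasFDerivAt.comp (E := Cov j) (F := Cov j [⋀^Fin 2]→L[ℝ] ℝ) (G := Bil j) p hT h.hasFDerivAt
  rw [h1.fderiv]
  exact bilL_apply _ _ _

/-- `extDeriv_apply` for `n = 2` -/
theorem extDeriv_eq {τ : Form2 j} {p : Cov j} (h : DifferentiableAt ℝ τ p) (x y z : Cov j) :
    extDeriv τ p ![x, y, z] = fderiv ℝ (fun q => bilL j (τ q)) p x y z +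
      fderiv ℝ (fun q => bilL j (τ q)) p y z x + fderiv ℝ (fun q => bilL j (τ q)) p z x y := by
  rw [fderiv_bilL h, fderiv_bilL h, fderiv_bilL h]
  have h1 : extDeriv τ p ![x, y, z]
      = ContinuousAlternatingMap.alternatizeUncurryFin (fderiv ℝ τ p) ![x, y, z] := rfl
  rw [h1, ContinuousAlternatingMap.alternatizeUncurryFin_apply, Fin.sum_univ_three]
  have e0 : Fin.removeNth 0 ![x, y, z] = ![y, z] := by
    funext i; fin_cases i <;> rfl
  have e1 : Fin.removeNth 1 ![x, y, z] = ![x, z] := by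
    funext i; fin_cases i <;> rfl
  have e2 : Fin.removeNth 2 ![x, y, z] = ![x, y] := by
    funext i; fin_cases i <;> rfl
  rw [e0, e1, e2]
  have h5 : (fderiv ℝ τ p y) ![z, x] = -(fderiv ℝ τ p y) ![x, z] := frm_swap _ _ _
  rw [h5]
  simp

/-- invariance in terms of the bilinear form -/
private theorem invt_iff' [NeZero j] (τ : Form2 j) : Invt τ ↔ ∀ (γ : Gam j) (p x y : Cov j),
    bilL j (τ (γ • p)) (lin (toV γ.a) x) (lin (toV γ.a) y) = bilL j (τ p) x y := by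
  constructor
  · intro h γ p x y
    have h1 := h γ p
    rw [act_fderiv] at h1
    rw [bilL_apply, bilL_apply, ← h1]
    rw [ContinuousAlternatingMap.compContinuousLinearMap_apply]
    congr 1
    funext i
    fin_cases i <;> rfl
  · intro h γ p
    rw [act_fderiv]
    ext v
    have h1 := h γ p (v 0) (v 1)
    rw [bilL_apply, bilL_apply] at h1
    rw [ContinuousAlternatingMap.compContinuousLinearMap_apply]
    have e1 : (fun i => (lin (toV γ.a)) (v i)) = ![lin (toV γ.a) (v 0), lin (toV γ.a) (v 1)] := by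
      funext i; fin_cases i <;> rfl
    have e2 : v = ![v 0, v 1] := by
      funext i; fin_cases i <;> rfl
    have e3 : (⇑(lin (toV γ.a)) ∘ v) = ![lin (toV γ.a) (v 0), lin (toV γ.a) (v 1)] := by
      funext i; fin_cases i <;> rfl
    rw [e3, h1, ← e2]

/-- closed invariant forms give elements of `Cl` -/
theorem cl_of_form [NeZero j] {τ : Form2 j} (hi : Invt τ) (hc : ClosedF τ) :
    Cl fun p => bilL j (τ p) where
  alt := by
    intro p x
    rw [bilL_apply]
    exact (τ p).map_eq_zero_of_eq ![x, x] (i := 0) (j := 1) rfl (by decide)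
  diff := by
    have hT : ContDiff ℝ 1 (fun φ : Cov j [⋀^Fin 2]→L[ℝ] ℝ => bilL j φ) :=
      ContinuousLinearMap.contDiff (𝕜 := ℝ) (E := Cov j [⋀^Fin 2]→L[ℝ] ℝ) (F := Bil j) (bilL j)
    exact hT.comp hc.1
  closed := by
    intro p x y z
    have hd : DifferentiableAt ℝ τ p := (hc.1.differentiable (by norm_num)).differentiableAt
    rw [← extDeriv_eq hd, hc.2 p]
    rfl
  inv := (invt_iff' τ).1 hi

/-- invariance in terms of the bilinear form -/
theorem invt_iff [NeZero j] (τ : Form2 j) : Invt τ ↔ ∀ (γ : Gam j) (p x y : Cov j),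
    bilL j (τ (γ • p)) (lin (toV γ.a) x) (lin (toV γ.a) y) = bilL j (τ p) x y :=
  invt_iff' τ

end Pool.Agent.MP1a66bd
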