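import Pool.Agent.Lib.MP_1a66bd_gt.Defs

/-!
# The Pfaffian of the standard symplectic form
-/

set_option autoImplicit false

noncomputable section

namespace Pool.Agent.MP1a66bd

open Finset

variable {K E : Type*} [Fintype K] [DecidableEq K]

/-- The vectors `x` form a symplectic basis of `B`. -/
structure Gr (B : E → E → ℝ) (x : K ⊕ K → E) : Prop where
  ll : ∀ i i', B (x (Sum.inl i)) (x (Sum.inl i')) = 0
  rr : ∀ i i', B (x (Sum.inr i)) (x (Sum.inr i')) = 0
  lr : ∀ i i', B (x (Sum.inl i)) (x (Sum.inr i')) = if i = i' then 1 else 0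
  rl : ∀ i i', B (x (Sum.inr i)) (x (Sum.inl i')) = if i = i' then -1 else 0

/-- the term of `σ` -/
private def tm (B : E → E → ℝ) (x : K ⊕ K → E) (σ : Equiv.Perm (K ⊕ K)) : ℝ :=
  ((Equiv.Perm.sign σ : ℤ) : ℝ) * ∏ i, B (x (σ (Sum.inl i))) (x (σ (Sum.inr i)))

omit [Fintype K] in
private theorem anti {B : E → E → ℝ} {x : K ⊕ K → E} (h : Gr B x) (a b : K ⊕ K) :
    B (x a) (x b) = - B (x b) (x a) := by
  rcases a with a | a <;> rcases b with b | b
  · rw [h.ll, h.ll, neg_zero]
  · rw [h.lr, h.rl]
    by_cases e : a = b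
    · rw [if_pos e, if_pos e.symm, neg_neg]
    · rw [if_neg e, if_neg (Ne.symm e), neg_zero]
  · rw [h.lr, h.rl]
    by_cases e : a = b
    · rw [if_pos e, if_pos e.symm]
    · rw [if_neg e, if_neg (Ne.symm e), neg_zero]
  · rw [h.rr, h.rr, neg_zero]

private theorem tm_swap {B : E → E → ℝ} {x : K ⊕ K → E} (h : Gr B x)
    (σ : Equiv.Perm (K ⊕ K)) (i : K) :
    tm B x (σ * Equiv.swap (Sum.inl i) (Sum.inr i)) = tm B x σ := by
  unfold tm
  have hs : ((Equiv.Perm.sign (σ * Equiv.swap (Sum.inl i) (Sum.inr i)) : ℤ) : ℝ) =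
      - ((Equiv.Perm.sign σ : ℤ) : ℝ) := by
    rw [Equiv.Perm.sign_mul, Equiv.Perm.sign_swap (by simp)]
    push_cast
    simp
  rw [hs, ← Finset.mul_prod_erase Finset.univ
    (fun k => B (x ((σ * Equiv.swap (Sum.inl i) (Sum.inr i)) (Sum.inl k)))
      (x ((σ * Equiv.swap (Sum.inl i) (Sum.inr i)) (Sum.inr k)))) (Finset.mem_univ i),
    ← Finset.mul_prod_erase Finset.univ
    (fun k => B (x (σ (Sum.inl k))) (x (σ (Sum.inr k)))) (Finset.mem_univ i)]
  have h1 : B (x ((σ * Equiv.swap (Sum.inl i) (Sum.inr i)) (Sum.inl i)))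
      (x ((σ * Equiv.swap (Sum.inl i) (Sum.inr i)) (Sum.inr i))) =
      - B (x (σ (Sum.inl i))) (x (σ (Sum.inr i))) := by
    rw [Equiv.Perm.mul_apply, Equiv.Perm.mul_apply, Equiv.swap_apply_left,
      Equiv.swap_apply_right]
    exact anti h _ _
  have h2 : ∏ k ∈ Finset.univ.erase i,
      B (x ((σ * Equiv.swap (Sum.inl i) (Sum.inr i)) (Sum.inl k)))
        (x ((σ * Equiv.swap (Sum.inl i) (Sum.inr i)) (Sum.inr k))) =
      ∏ k ∈ Finset.univ.erase i, B (x (σ (Sum.inl k))) (x (σ (Sum.inr k))) := by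
    refine Finset.prod_congr rfl fun k hk => ?_
    have hk' : k ≠ i := (Finset.mem_erase.1 hk).1
    rw [Equiv.Perm.mul_apply, Equiv.Perm.mul_apply,
      Equiv.swap_apply_of_ne_of_ne (by simpa using hk') (by simp),
      Equiv.swap_apply_of_ne_of_ne (by simp) (by simpa using hk')]
  rw [h1, h2]
  ring

private theorem tm_base {B : E → E → ℝ} {x : K ⊕ K → E} (h : Gr B x)
    (σ : Equiv.Perm (K ⊕ K)) (hσ : ∀ i, (σ (Sum.inl i)).isLeft = true) : 0 ≤ tm B x σ := by
  by_cases h0 : ∏ i, B (x (σ (Sum.inl i))) (x (σ (Sum.inr i))) = 0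
  · unfold tm
    rw [h0, mul_zero]
  · rw [Finset.prod_eq_zero_iff] at h0
    push Not at h0
    have h1 : ∀ i, ∃ k, σ (Sum.inl i) = Sum.inl k ∧ σ (Sum.inr i) = Sum.inr k := by
      intro i
      have hi := h0 i (Finset.mem_univ i)
      obtain ⟨k, hk⟩ := Sum.isLeft_iff.1 (hσ i)
      rw [hk] at hi
      refine ⟨k, hk, ?_⟩
      rcases e : σ (Sum.inr i) with l | l
      · rw [e, h.ll] at hi
        exact absurd rfl hi
      · rw [e, h.lr] at hi
        by_cases hkl : k = l
        · rw [hkl]
        · rw [if_neg hkl] at hi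
          exact absurd rfl hi
    choose π hl hr using h1
    have hinj : Function.Injective π := by
      intro a b hab
      have : σ (Sum.inl a) = σ (Sum.inl b) := by rw [hl, hl, hab]
      exact Sum.inl_injective (σ.injective this)
    let p : Equiv.Perm K := Equiv.ofBijective π (Finite.injective_iff_bijective.1 hinj)
    have hp : ∀ i, p i = π i := fun i => rfl
    have hσp : σ = Equiv.Perm.sumCongr p p := by
      ext a
      rcases a with a | a
      · rw [hl]; simp [hp]
      · rw [hr]; simp [hp]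
    have hsign : ((Equiv.Perm.sign σ : ℤ) : ℝ) = 1 := by
      rw [hσp, Equiv.Perm.sign_sumCongr, Int.units_mul_self]
      simp
    unfold tm
    rw [hsign, one_mul]
    refine Finset.prod_nonneg fun i _ => ?_
    rw [hl, hr, h.lr, if_pos rfl]
    exact zero_le_one

private theorem tm_nonneg {B : E → E → ℝ} {x : K ⊕ K → E} (h : Gr B x) :
    ∀ (n : ℕ) (σ : Equiv.Perm (K ⊕ K)),
      (Finset.univ.filter fun i => (σ (Sum.inl i)).isLeft = false).card = n →
      0 ≤ tm B x σ := by
  intro n
  induction n with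
  | zero =>
    intro σ hσ
    apply tm_base h
    intro i
    rw [Finset.card_eq_zero, Finset.filter_eq_empty_iff] at hσ
    have := hσ (Finset.mem_univ i)
    simpa using this
  | succ n ih =>
    intro σ hσ
    by_cases h0 : ∏ i, B (x (σ (Sum.inl i))) (x (σ (Sum.inr i))) = 0
    · unfold tm
      rw [h0, mul_zero]
    rw [Finset.prod_eq_zero_iff] at h0
    push Not at h0
    have hne : (Finset.univ.filter fun i => (σ (Sum.inl i)).isLeft = false).Nonempty := by
      rw [← Finset.card_pos, hσ]
      exact Nat.succ_pos n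
    obtain ⟨i, hi⟩ := hne
    have hi' := (Finset.mem_filter.1 hi).2
    rw [← tm_swap h σ i]
    apply ih
    have hset : (Finset.univ.filter fun k =>
        ((σ * Equiv.swap (Sum.inl i) (Sum.inr i)) (Sum.inl k)).isLeft = false) =
        (Finset.univ.filter fun k => (σ (Sum.inl k)).isLeft = false).erase i := by
      ext k
      rw [Finset.mem_erase, Finset.mem_filter, Finset.mem_filter]
      by_cases hk : k = i
      · subst hk
        constructor
        · rintro ⟨_, h2⟩
          exfalso
          rw [Equiv.Perm.mul_apply, Equiv.swap_apply_left] at h2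
          have h3 := h0 k (Finset.mem_univ k)
          rcases e : σ (Sum.inl k) with l | l
          · rw [e] at hi'
            simp at hi'
          · rcases e' : σ (Sum.inr k) with l' | l'
            · rw [e'] at h2
              simp at h2
            · rw [e, e', h.rr] at h3
              exact h3 rfl
        · rintro ⟨h1, _⟩
          exact absurd rfl h1
      · rw [Equiv.Perm.mul_apply, Equiv.swap_apply_of_ne_of_ne (by simpa using hk) (by simp)]
        constructor
        · rintro ⟨h1, h2⟩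
          exact ⟨hk, h1, h2⟩
        · rintro ⟨_, h1, h2⟩
          exact ⟨h1, h2⟩
    rw [hset, Finset.card_erase_of_mem hi, hσ]
    rfl

/-- Every term of the sum is `≥ 0` and the term of `σ = 1` is `1`. Indeed, if the product of `σ` is
not zero, then `σ (inl i)` and `σ (inr i)` have the same index `π i` for every `i`, and `π` is a
permutation of `K`. Let `S` be the set of the `i` with `σ (inl i) = inr (π i)`, and
`τ = ∏ i ∈ S, swap (inl i) (inr i)`; then `σ * τ = Equiv.Perm.sumCongr π π` has the sign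
`sign π * sign π = 1` (`Equiv.Perm.sign_sumCongr`), the sign of `τ` is `(-1) ^ |S|`, and the product
`∏ i, B ..` is `(-1) ^ |S|` too. (Induction on the number of elements of `S` is another way: multiply
`σ` by one transposition, the term does not change.) -/
theorem Wd_gram_pos (B : E → E → ℝ) (x : K ⊕ K → E) (h : Gr B x) :
    0 < Wd (fun _ => B) x := by
  have e : Wd (fun _ => B) x = ∑ σ : Equiv.Perm (K ⊕ K), tm B x σ := rfl
  rw [e]
  have h1 : tm B x 1 = 1 := by
    unfold tm
    rw [Equiv.Perm.sign_one]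
    have : ∀ i : K, B (x ((1 : Equiv.Perm (K ⊕ K)) (Sum.inl i)))
        (x ((1 : Equiv.Perm (K ⊕ K)) (Sum.inr i))) = 1 := by
      intro i
      rw [Equiv.Perm.one_apply, Equiv.Perm.one_apply, h.lr, if_pos rfl]
    rw [Finset.prod_congr rfl fun i _ => this i]
    simp
  have h2 : tm B x 1 ≤ ∑ σ : Equiv.Perm (K ⊕ K), tm B x σ :=
    Finset.single_le_sum (f := fun σ => tm B x σ) (fun σ _ => tm_nonneg h _ σ rfl)
      (Finset.mem_univ 1)
  rw [h1] at h2
  exact lt_of_lt_of_le zero_lt_one h2

end Pool.Agent.MP1a66bd
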