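import Pool.Agent.Lib.MP_1a66bd_gt.Tor

/-!
# The action of the lattice: proper discontinuity and compactness of the quotient
-/

set_option autoImplicit false

noncomputable section

namespace Pool.Agent.MP1a66bd

variable {j : ℕ} [NeZero j]

private theorem gauss_fin (R : ℝ) :
    {z : GaussianInt | ‖GaussianInt.toComplex z‖ ≤ R}.Finite := by
  have hfin : (Set.Icc (-⌈R⌉) ⌈R⌉ ×ˢ Set.Icc (-⌈R⌉) ⌈R⌉ : Set (ℤ × ℤ)).Finite :=
    (Set.finite_Icc _ _).prod (Set.finite_Icc _ _)
  refine (hfin.preimage (f := fun z : GaussianInt => (z.re, z.im)) ?_).subset ?_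
  · intro a _ b _ h
    exact Zsqrtd.ext (congrArg Prod.fst h) (congrArg Prod.snd h)
  · intro z hz
    have hz' : ‖GaussianInt.toComplex z‖ ≤ R := hz
    have h1 : |(z.re : ℝ)| ≤ R := by
      have h := Complex.abs_re_le_norm (GaussianInt.toComplex z)
      rw [← GaussianInt.intCast_re] at h
      exact h.trans hz'
    have h2 : |(z.im : ℝ)| ≤ R := by
      have h := Complex.abs_im_le_norm (GaussianInt.toComplex z)
      rw [← GaussianInt.intCast_im] at h
      exact h.trans hz'
    have key : ∀ m : ℤ, |(m : ℝ)| ≤ R → -⌈R⌉ ≤ m ∧ m ≤ ⌈R⌉ := by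
      intro m hm
      have e1 : (|m| : ℤ) ≤ ⌈R⌉ := by
        have e2 : ((|m| : ℤ) : ℝ) ≤ (⌈R⌉ : ℝ) := by
          rw [Int.cast_abs]
          exact hm.trans (Int.le_ceil R)
        exact_mod_cast e2
      exact abs_le.mp e1
    exact ⟨key _ h1, key _ h2⟩

omit [NeZero j] in
private theorem toV_fin (R : ℝ) : {a : Fin j → GaussianInt | ‖toV a‖ ≤ R}.Finite := by
  have h : (Set.pi Set.univ fun _ : Fin j =>
      {z : GaussianInt | ‖GaussianInt.toComplex z‖ ≤ R}).Finite :=
    Set.Finite.pi fun _ => gauss_fin R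
  refine h.subset ?_
  intro a ha i _
  exact (norm_le_pi_norm (toV a) i).trans ha

private theorem st_norm (u v : Vec j) : ‖st u v‖ ≤ ‖u‖ * ‖v‖ := by
  refine (pi_norm_le_iff_of_nonneg (by positivity)).mpr fun i => ?_
  change ‖u i * v (i + 1)‖ ≤ _
  rw [norm_mul]
  exact mul_le_mul (norm_le_pi_norm u i) (norm_le_pi_norm v (i + 1)) (norm_nonneg _)
    (norm_nonneg _)

/-- For compact `K`, `L`: `γ • p ∈ L`, `p ∈ K` bound `toV γ.a` and then `toV γ.c`; there are finitely
many Gaussian integers in a bounded set. -/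
theorem act_pd : ProperlyDiscontinuousSMul (Gam j) (Cov j) := by
  constructor
  intro K L hK hL
  obtain ⟨R, hR⟩ := hK.isBounded.exists_norm_le
  obtain ⟨R', hR'⟩ := hL.isBounded.exists_norm_le
  have hfin : ({a : Fin j → GaussianInt | ‖toV a‖ ≤ R' + R} ×ˢ
      {c : Fin j → GaussianInt | ‖toV c‖ ≤ R' + R + (R' + R) * R}).Finite :=
    (toV_fin _).prod (toV_fin _)
  refine (hfin.preimage (f := fun γ : Gam j => (γ.a, γ.c)) ?_).subset ?_
  · intro γ _ δ _ h
    exact Gam.ext (congrArg Prod.fst h) (congrArg Prod.snd h)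
  · rintro γ ⟨q, ⟨p, hp, hpq⟩, hq⟩
    have e0 : γ • p = q := hpq
    rw [smul_eq] at e0
    have e1 : toV γ.a + p.1 = q.1 := congrArg Prod.fst e0
    have e2 : toV γ.c + p.2 + st (toV γ.a) p.1 = q.2 := congrArg Prod.snd e0
    have np := hR p hp
    have nq := hR' q hq
    have np1 : ‖p.1‖ ≤ R := (norm_fst_le p).trans np
    have np2 : ‖p.2‖ ≤ R := (norm_snd_le p).trans np
    have nq1 : ‖q.1‖ ≤ R' := (norm_fst_le q).trans nq
    have nq2 : ‖q.2‖ ≤ R' := (norm_snd_le q).trans nq
    have b1 : ‖toV γ.a‖ ≤ R' + R := by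
      have e3 : toV γ.a = q.1 - p.1 := eq_sub_of_add_eq e1
      rw [e3]
      exact (norm_sub_le _ _).trans (add_le_add nq1 np1)
    have b2 : ‖st (toV γ.a) p.1‖ ≤ (R' + R) * R :=
      (st_norm _ _).trans (mul_le_mul b1 np1 (norm_nonneg _) ((norm_nonneg _).trans b1))
    have b3 : ‖toV γ.c‖ ≤ R' + R + (R' + R) * R := by
      have e3 : toV γ.c = q.2 - p.2 - st (toV γ.a) p.1 := by
        rw [← e2]
        abel
      rw [e3]
      exact (norm_sub_le _ _).trans (add_le_add ((norm_sub_le _ _).trans (add_le_add nq2 np2)) b2)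
    exact ⟨b1, b3⟩

/-- the closure of `Bx j ×ˢ Bx j` is compact and meets every orbit (`bx_exists` for the first
component, then for the second one) -/
theorem act_compact : CompactSpace (Quotient (MulAction.orbitRel (Gam j) (Cov j))) := by
  have hK : IsCompact (closure (Bx j) ×ˢ closure (Bx j)) :=
    bx_bdd.isCompact_closure.prod bx_bdd.isCompact_closure
  have himg : IsCompact ((Quotient.mk (MulAction.orbitRel (Gam j) (Cov j))) ''
      (closure (Bx j) ×ˢ closure (Bx j))) := hK.image continuous_quotient_mk'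
  refine ⟨?_⟩
  have huniv : (Quotient.mk (MulAction.orbitRel (Gam j) (Cov j))) ''
      (closure (Bx j) ×ˢ closure (Bx j)) = Set.univ := by
    refine Set.eq_univ_of_forall fun x => ?_
    induction x using Quotient.inductionOn with
    | h p =>
      obtain ⟨a, ha⟩ := bx_exists p.1
      obtain ⟨c, hc⟩ := bx_exists (p.2 + st (toV a) p.1)
      refine ⟨(⟨a, c⟩ : Gam j) • p, ⟨?_, ?_⟩, Quotient.sound ⟨⟨a, c⟩, rfl⟩⟩
      · rw [smul_eq]
        exact subset_closure ha
      · rw [smul_eq]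
        refine subset_closure ?_
        change toV c + p.2 + st (toV a) p.1 ∈ Bx j
        rw [add_assoc]
        exact hc
  rw [← huniv]
  exact himg

end Pool.Agent.MP1a66bd
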