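import Pool.Agent.Lib.MP_1a66bd_gt.MeanF

/-!
# The divergence theorem on the manifold
-/

set_option autoImplicit false

noncomputable section

namespace Pool.Agent.MP1a66bd

open MeasureTheory Finset

variable {j : ℕ} [NeZero j]

private def MeanV_N (j : ℕ) [NeZero j] : Vec j →L[ℝ] (Cov j →L[ℝ] Cov j) :=
  LinearMap.toContinuousLinearMap
    { toFun := fun a => lin a - ContinuousLinearMap.id ℝ (Cov j)
      map_add' := by
        intro a b
        refine ContinuousLinearMap.ext fun x => Prod.ext ?_ ?_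
        · simp
        · simp [st_add_left]
      map_smul' := by
        intro c a
        refine ContinuousLinearMap.ext fun x => Prod.ext ?_ ?_
        · simp
        · simp [st_smul_left] }

private theorem MeanV_N_apply (a : Vec j) (x : Cov j) : MeanV_N j a x = (0, st a x.1) := by
  change (lin a - ContinuousLinearMap.id ℝ (Cov j)) x = (0, st a x.1)
  refine Prod.ext ?_ ?_
  · simp
  · simp

private theorem MeanV_lin (a : Vec j) (x : Cov j) : lin a x = x + MeanV_N j a x := by
  rw [MeanV_N_apply]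
  refine Prod.ext ?_ ?_
  · simp
  · simp

private theorem MeanV_lin_lin (a b : Vec j) (x : Cov j) : lin a (lin b x) = lin (a + b) x := by
  refine Prod.ext ?_ ?_
  · rfl
  · simp only [lin_apply, st_add_left]
    abel

private theorem MeanV_lin_zero (x : Cov j) : lin (0 : Vec j) x = x := by
  refine Prod.ext ?_ ?_
  · rfl
  · simp only [lin_apply, st_zero_left, add_zero]

omit [NeZero j] in
private theorem MeanV_trace (A : Cov j →ₗ[ℝ] Cov j) :
    ∑ s, coor s (A (bs j s)) = LinearMap.trace ℝ (Cov j) A := by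
  rw [LinearMap.trace_eq_matrix_trace ℝ (bs j), Matrix.trace]
  refine Finset.sum_congr rfl fun s _ => ?_
  rw [Matrix.diag_apply, LinearMap.toMatrix_apply]
  rfl

/-- the twisted field -/
private def MeanV_Z (Y : Cov j → Cov j) (p : Cov j) : Cov j := lin (-p.1) (Y p)

private theorem MeanV_Z_eq (Y : Cov j → Cov j) :
    MeanV_Z Y = fun p => Y p - MeanV_N j p.1 (Y p) := by
  funext p
  unfold MeanV_Z
  rw [MeanV_lin, map_neg, sub_eq_add_neg]
  rfl

private theorem MeanV_Z_diff {Y : Cov j → Cov j} (hY : ContDiff ℝ 1 Y) :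
    ContDiff ℝ 1 (MeanV_Z Y) := by
  rw [MeanV_Z_eq]
  refine hY.sub ?_
  exact ((MeanV_N j).contDiff.comp contDiff_fst).clm_apply hY

private theorem MeanV_Z_deriv {Y : Cov j → Cov j} (hY : ContDiff ℝ 1 Y) (p x : Cov j) :
    fderiv ℝ (MeanV_Z Y) p x = lin (-p.1) (fderiv ℝ Y p x) - (0, st x.1 (Y p).1) := by
  have h1 : HasFDerivAt Y (fderiv ℝ Y p) p := (hY.differentiable one_ne_zero p).hasFDerivAt
  have h2 : HasFDerivAt (fun p : Cov j => MeanV_N j p.1)
      ((MeanV_N j).comp (ContinuousLinearMap.fst ℝ (Vec j) (Vec j))) p :=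
    (MeanV_N j).hasFDerivAt.comp p (ContinuousLinearMap.fst ℝ (Vec j) (Vec j)).hasFDerivAt
  have h3 := h1.sub (h2.clm_apply h1)
  rw [MeanV_Z_eq]
  have h4 := h3.fderiv
  change fderiv ℝ (fun p => Y p - MeanV_N j p.1 (Y p)) p = _ at h4
  rw [h4, MeanV_lin, map_neg]
  simp only [sub_apply, add_apply, neg_apply,
    ContinuousLinearMap.comp_apply, ContinuousLinearMap.flip_apply,
    ContinuousLinearMap.coe_fst', MeanV_N_apply]
  abel

/-- The functions `ζ s p = coor s (lin (-p.1) (Y p))` are invariant; `mean_field` with `ξ = bs j s`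
and the sum over `s`. Pointwise `∑ s, fderiv (ζ s) p (lin p.1 (bs j s)) = dv Y p`: with
`ζ = (Y_V, Y_W - v ⋆ Y_V)` the difference of the two sides is
`tr (x ↦ fderiv Y_V p (0, v ⋆ x)) - tr (y ↦ v ⋆ fderiv Y_V p (0, y)) = 0`
(`LinearMap.trace_mul_comm` or `Matrix.trace_mul_comm`). -/
theorem mean_div {Y : Cov j → Cov j} (hY : ContDiff ℝ 1 Y)
    (he : ∀ (γ : Gam j) (p : Cov j), Y (γ • p) = lin (toV γ.a) (Y p)) : Mean (dv Y) = 0 := by
  have hZ := MeanV_Z_diff hY
  have hζ : ∀ s, ContDiff ℝ 1 (fun p => coor s (MeanV_Z Y p)) := fun s =>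
    (coor s).contDiff.comp hZ
  have hinv : ∀ s, Fi (fun p => coor s (MeanV_Z Y p)) := by
    intro s γ p
    have h1 : MeanV_Z Y (γ • p) = MeanV_Z Y p := by
      unfold MeanV_Z
      rw [he, MeanV_lin_lin]
      have h2 : -(γ • p).1 + toV γ.a = -p.1 := by
        rw [smul_eq, neg_add_rev, neg_add_cancel_right]
      rw [h2]
    show coor s (MeanV_Z Y (γ • p)) = coor s (MeanV_Z Y p)
    rw [h1]
  have hmean : ∀ s, Mean (fun p => fderiv ℝ (fun p => coor s (MeanV_Z Y p)) p
      (lin p.1 (bs j s))) = 0 := fun s => mean_field (hζ s) (hinv s) (bs j s)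
  have hlin : ∀ ξ : Cov j, Continuous fun p : Cov j => lin p.1 ξ := by
    intro ξ
    have h1 : (fun p : Cov j => lin p.1 ξ) = fun p => ξ + MeanV_N j p.1 ξ :=
      funext fun p => MeanV_lin _ _
    rw [h1]
    exact continuous_const.add (((MeanV_N j).continuous.comp continuous_fst).clm_apply
      continuous_const)
  have hcont : ∀ s ∈ (univ : Finset (KK j ⊕ KK j)), Continuous fun p =>
      fderiv ℝ (fun p => coor s (MeanV_Z Y p)) p (lin p.1 (bs j s)) := fun s _ =>
    ((hζ s).continuous_fderiv one_ne_zero).clm_apply (hlin _)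
  have hsum := mean_sum univ _ hcont
  rw [Finset.sum_eq_zero fun s _ => hmean s] at hsum
  rw [← hsum]
  congr 1
  funext p
  unfold dv
  have h1 : ∀ s, fderiv ℝ (fun p => coor s (MeanV_Z Y p)) p (lin p.1 (bs j s)) =
      coor s (lin (-p.1) (fderiv ℝ Y p (lin p.1 (bs j s)))) := by
    intro s
    have h2 : HasFDerivAt (MeanV_Z Y) (fderiv ℝ (MeanV_Z Y) p) p :=
      (hZ.differentiable one_ne_zero p).hasFDerivAt
    have h3 : HasFDerivAt (fun p => coor s (MeanV_Z Y p))
        ((coor s).comp (fderiv ℝ (MeanV_Z Y) p)) p := (coor s).hasFDerivAt.comp p h2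
    rw [h3.fderiv, ContinuousLinearMap.comp_apply, MeanV_Z_deriv hY, map_sub]
    have h4 : coor s ((0, st (lin p.1 (bs j s)).1 (Y p).1) : Cov j) = 0 := by
      rcases s with k | k
      · show (bs j).repr (0, st (lin p.1 (bs j (Sum.inl k))).1 (Y p).1) (Sum.inl k) = 0
        unfold bs
        rw [Module.Basis.prod_repr_inl]
        simp
      · have h5 : (lin p.1 (bs j (Sum.inr k))).1 = 0 := by
          rw [lin_apply]
          unfold bs
          simp
        rw [h5, st_zero_left]
        exact map_zero _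
    rw [h4, sub_zero]
  rw [Finset.sum_congr rfl fun s _ => h1 s]
  have h6 := MeanV_trace (j := j) ((lin (-p.1)).toLinearMap.comp
    ((fderiv ℝ Y p).toLinearMap.comp (lin p.1).toLinearMap))
  have h7 := MeanV_trace (j := j) (fderiv ℝ Y p).toLinearMap
  have h8 : LinearMap.trace ℝ (Cov j) ((lin (-p.1)).toLinearMap.comp
      ((fderiv ℝ Y p).toLinearMap.comp (lin p.1).toLinearMap)) =
      LinearMap.trace ℝ (Cov j) (fderiv ℝ Y p).toLinearMap := by
    have h9 := LinearMap.trace_mul_comm ℝ (lin (-p.1)).toLinearMap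
      ((fderiv ℝ Y p).toLinearMap.comp (lin p.1).toLinearMap)
    refine h9.trans ?_
    congr 1
    refine LinearMap.ext fun x => ?_
    show fderiv ℝ Y p (lin p.1 (lin (-p.1) x)) = fderiv ℝ Y p x
    rw [MeanV_lin_lin, add_neg_cancel, MeanV_lin_zero]
  exact (h7.trans h8.symm).trans h6.symm

end Pool.Agent.MP1a66bd
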