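import Pool.Agent.Lib.MP_1a66bd_gt.Div
import Pool.Agent.Lib.MP_1a66bd_gt.MeanV
import Pool.Agent.Lib.MP_1a66bd_gt.Equi
import Pool.Agent.Lib.MP_1a66bd_gt.Pull

/-!
# The mean value of the Pfaffian is a cohomological invariant
-/

set_option autoImplicit false

noncomputable section

namespace Pool.Agent.MP1a66bd

open Finset

variable {j : ℕ} [NeZero j]

/-- the Pfaffian depends continuously on the forms -/
theorem pf_cont {X : Type*} [TopologicalSpace X] {C : X → KK j → Bil j}
    (hC : ∀ i, Continuous fun p => C p i) : Continuous fun p => pf (C p) := by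
  unfold pf Wd
  refine continuous_finsetSum _ fun σ _ => ?_
  refine continuous_const.mul ?_
  refine continuous_finsetProd _ fun i _ => ?_
  exact ((hC i).clm_apply continuous_const).clm_apply continuous_const

/-- Stokes: `stokes_div`, `Yv_equi`, `Yv_diff`, `mean_div`. -/
theorem mean_exact (i₀ : KK j) {η : Cov j → (Cov j →L[ℝ] ℝ)} (hη : ContDiff ℝ 1 η)
    (hi : ∀ (γ : Gam j) (p x : Cov j), η (γ • p) (lin (toV γ.a) x) = η p x)
    {B : KK j → Cov j → Bil j} (hB : ∀ i, Cl (B i)) :
    Mean (fun p => pf (Function.update (fun i => B i p) i₀ (dd η p))) = 0 := by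
  have h1 : (fun p => pf (Function.update (fun i => B i p) i₀ (dd η p))) =
      fun p => 2 * dv (Yv i₀ η B) p := by
    funext p
    exact stokes_div i₀ hη (fun i => (hB i).diff) (fun i => (hB i).closed) p
  have h2 : Mean (dv (Yv i₀ η B)) = 0 :=
    mean_div (Yv_diff i₀ hη fun i => (hB i).diff) (Yv_equi i₀ hi fun i => (hB i).inv)
  rw [h1, mean_smul, h2, mul_zero]

private theorem invc_pf_update (F : KK j → Bil j) (i₀ : KK j) (C : Bil j) :
    pf (Function.update F i₀ C) = ∑ σ : Equiv.Perm (KK j ⊕ KK j),
      ((Equiv.Perm.sign σ : ℤ) : ℝ) * (C (bs j (σ (Sum.inl i₀))) (bs j (σ (Sum.inr i₀))) *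
        ∏ i ∈ univ.erase i₀, F i (bs j (σ (Sum.inl i))) (bs j (σ (Sum.inr i)))) := by
  unfold pf Wd
  refine Finset.sum_congr rfl fun σ _ => ?_
  rw [← Finset.mul_prod_erase univ _ (mem_univ i₀)]
  beta_reduce
  rw [Function.update_self]
  have h1 : ∏ i ∈ univ.erase i₀, (Function.update F i₀ C i) (bs j (σ (Sum.inl i)))
      (bs j (σ (Sum.inr i))) =
      ∏ i ∈ univ.erase i₀, F i (bs j (σ (Sum.inl i))) (bs j (σ (Sum.inr i))) := by
    refine Finset.prod_congr rfl fun i hi => ?_
    rw [Function.update_of_ne (Finset.mem_erase.1 hi).1]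
  rw [h1]

private theorem invc_deriv (F : KK j → Bil j) (i₀ : KK j) (C : ℝ → Bil j) (C' : Bil j) (t : ℝ)
    (h : ∀ x y, HasDerivAt (fun t => C t x y) (C' x y) t) :
    HasDerivAt (fun t => pf (Function.update F i₀ (C t))) (pf (Function.update F i₀ C')) t := by
  have h1 : (fun t => pf (Function.update F i₀ (C t))) = fun t =>
      ∑ σ : Equiv.Perm (KK j ⊕ KK j),
      ((Equiv.Perm.sign σ : ℤ) : ℝ) * (C t (bs j (σ (Sum.inl i₀))) (bs j (σ (Sum.inr i₀))) *
        ∏ i ∈ univ.erase i₀, F i (bs j (σ (Sum.inl i))) (bs j (σ (Sum.inr i)))) := by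
    funext t
    exact invc_pf_update F i₀ (C t)
  rw [h1, invc_pf_update F i₀ C']
  refine HasDerivAt.fun_sum fun σ _ => ?_
  exact HasDerivAt.const_mul _ (HasDerivAt.mul_const (h _ _) _)

private theorem invc_c1 {B : Cov j → Bil j} (hB : Continuous B) (g : Cov j) :
    Continuous fun q : ℝ × Cov j => pull (q.1 • g) B q.2 := by
  have h1 : Continuous fun q : ℝ × Cov j => ((q.1 • g, q.2) : Cov j × Cov j) := by
    fun_prop
  have h2 := pull_cont hB
  exact Continuous.comp (g := fun q : Cov j × Cov j => pull q.1 B q.2)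
    (f := fun q : ℝ × Cov j => ((q.1 • g, q.2) : Cov j × Cov j)) h2 h1

private theorem invc_c2 (F : KK j → Cov j → Bil j) (hF : ∀ i, Continuous (F i)) (i₀ : KK j)
    (G : ℝ → Cov j → Bil j) (hG : Continuous fun q : ℝ × Cov j => G q.1 q.2) :
    Continuous fun q : ℝ × Cov j => pf (Function.update (fun i => F i q.2) i₀ (G q.1 q.2)) := by
  refine pf_cont (X := ℝ × Cov j)
      (C := fun q => Function.update (fun i => F i q.2) i₀ (G q.1 q.2)) ?_
  intro i
  by_cases h : i = i₀
  · rw [h]
    simp only [Function.update_self]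
    exact hG
  · simp only [Function.update_of_ne h]
    exact (hF i).comp continuous_snd

/-- `mean_const_of_deriv` with `Ψ t p = pf (update (B · p) i₀ (pull (t • g) (B i₀) p))`,
`Ψ' t p = pf (update (B · p) i₀ (dd (eta t g (B i₀)) p))`, `pull_deriv` and `mean_exact`. -/
theorem mean_pull {B : KK j → Cov j → Bil j} (hB : ∀ i, Cl (B i)) (i₀ : KK j) (g : Cov j) :
    Mean (fun p => pf (Function.update (fun i => B i p) i₀ (pull g (B i₀) p))) =
      Mean (fun p => pf fun i => B i p) := by
  have hcont : ∀ i, Continuous (B i) := fun i => (hB i).diff.continuous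
  obtain ⟨Ψ, hΨ⟩ : ∃ Ψ : ℝ → Cov j → ℝ, Ψ = fun t p =>
    pf (Function.update (fun i => B i p) i₀ (pull (t • g) (B i₀) p)) := ⟨_, rfl⟩
  obtain ⟨Ψ', hΨ'⟩ : ∃ Ψ' : ℝ → Cov j → ℝ, Ψ' = fun t p =>
    pf (Function.update (fun i => B i p) i₀ (dd (eta t g (B i₀)) p)) := ⟨_, rfl⟩
  have hd : ∀ t p, HasDerivAt (fun t => Ψ t p) (Ψ' t p) t := by
    intro t p
    rw [hΨ, hΨ']
    exact invc_deriv (fun i => B i p) i₀ (fun t => pull (t • g) (B i₀) p)
      (dd (eta t g (B i₀)) p) t (fun x y => pull_deriv (hB i₀) g p x y t)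
  have hc : Continuous fun q : ℝ × Cov j => Ψ q.1 q.2 := by
    rw [hΨ]
    exact invc_c2 B hcont i₀ (fun t p => pull (t • g) (B i₀) p) (invc_c1 (hcont i₀) g)
  have hc' : Continuous fun q : ℝ × Cov j => Ψ' q.1 q.2 := by
    rw [hΨ']
    exact invc_c2 B hcont i₀ (fun t p => dd (eta t g (B i₀)) p) (dd_eta_cont (hB i₀).diff g)
  have h0 : ∀ t, Mean (Ψ' t) = 0 := by
    intro t
    rw [hΨ']
    exact mean_exact i₀ (eta_diff (hB i₀).diff t g) (fun γ p x => eta_inv (hB i₀) t g γ p x) hB
  have key := mean_const_of_deriv hd hc hc' h0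
  have e1 : Ψ 1 = fun p => pf (Function.update (fun i => B i p) i₀ (pull g (B i₀) p)) := by
    rw [hΨ]
    funext p
    beta_reduce
    rw [one_smul]
  have e0 : Ψ 0 = fun p => pf fun i => B i p := by
    rw [hΨ]
    funext p
    beta_reduce
    rw [zero_smul, pull_zero]
    have h2 : Function.update (fun i => B i p) i₀ (B i₀ p) = fun i => B i p :=
      Function.update_eq_self i₀ (fun i => B i p)
    rw [h2]
  rw [e1, e0] at key
  exact key

private theorem invc_step {B : Cov j → Bil j} (g : KK j → Cov j) (a : KK j)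
    (s : Finset (KK j)) (ha : a ∉ s) (p : Cov j) :
    Function.update (fun i => (if i ∈ s then pull (g i) B else B) p) a
      (pull (g a) (if a ∈ s then pull (g a) B else B) p) =
      fun i => if i ∈ insert a s then pull (g i) B p else B p := by
  funext i
  by_cases hi : i = a
  · subst hi
    rw [Function.update_self, if_neg ha, if_pos (mem_insert_self _ _)]
  · rw [Function.update_of_ne hi]
    by_cases hs : i ∈ s
    · rw [if_pos hs, if_pos (mem_insert_of_mem hs)]
    · rw [if_neg hs, if_neg (by
        rw [mem_insert, not_or]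
        exact ⟨hi, hs⟩)]

/-- `mean_pull` for one index after the other (`Finset.induction_on` over the set of the indices
`i` with `pull (g i) B` instead of `B`). -/
theorem mean_pull_all {B : Cov j → Bil j} (hB : Cl B) (g : KK j → Cov j) :
    Mean (fun p => pf fun i => pull (g i) B p) = Mean (fun p => pf fun _ => B p) := by
  have key : ∀ s : Finset (KK j), Mean (fun p => pf fun i => if i ∈ s then pull (g i) B p
      else B p) = Mean (fun p => pf fun _ => B p) := by
    intro s
    induction s using Finset.induction_on with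
    | empty => simp only [Finset.notMem_empty, if_false]
    | insert a s ha ih =>
      rw [← ih]
      obtain ⟨Bs, hBs⟩ : ∃ Bs : KK j → Cov j → Bil j, Bs = fun i =>
        if i ∈ s then pull (g i) B else B := ⟨_, rfl⟩
      have hcl : ∀ i, Cl (Bs i) := by
        intro i
        rw [hBs]
        by_cases hi : i ∈ s
        · simp only [hi, if_true]
          exact pull_cl hB _
        · simp only [hi, if_false]
          exact hB
      have h1 := mean_pull hcl a (g a)
      have h2 : (fun p => pf fun i => Bs i p) =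
          fun p => pf fun i => if i ∈ s then pull (g i) B p else B p := by
        funext p
        have h5 : (fun i => Bs i p) = fun i => if i ∈ s then pull (g i) B p else B p := by
          rw [hBs]
          funext i
          beta_reduce
          by_cases hi : i ∈ s
          · rw [if_pos hi, if_pos hi]
          · rw [if_neg hi, if_neg hi]
        rw [h5]
      have h3 : (fun p => pf (Function.update (fun i => Bs i p) a (pull (g a) (Bs a) p))) =
          fun p => pf fun i => if i ∈ insert a s then pull (g i) B p else B p := by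
        funext p
        rw [hBs]
        beta_reduce
        rw [invc_step g a s ha p]
      rw [h2, h3] at h1
      exact h1
  have h := key univ
  simp only [mem_univ, if_true] at h
  exact h

end Pool.Agent.MP1a66bd
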