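import Pool.Agent.Lib.MP_1a66bd_gt.Symp
import Pool.Agent.Lib.MP_1a66bd_gt.Block

/-!
# Constant forms with Lagrangian second factor
-/

set_option autoImplicit false

noncomputable section

namespace Pool.Agent.MP1a66bd

open Finset

variable {j : ℕ} [NeZero j]

/-- the form `Re ∑ (A x)_i ∧ y_i` on `ℂ^j × ℂ^j` -/
def om (A : Vec j →ₗ[ℝ] Vec j) (x y : Cov j) : ℝ := prr (A x.1) y.2 - prr (A y.1) x.2

omit [NeZero j] in
private theorem prr_add_l (x y z : Vec j) : prr (x + y) z = prr x z + prr y z := by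
  simp [prr, add_mul, Finset.sum_add_distrib]

omit [NeZero j] in
private theorem prr_add_r (x y z : Vec j) : prr x (y + z) = prr x y + prr x z := by
  simp [prr, mul_add, Finset.sum_add_distrib]

omit [NeZero j] in
private theorem prr_smul_l (c : ℝ) (x z : Vec j) : prr (c • x) z = c * prr x z := by
  unfold prr
  rw [← Complex.re_ofReal_mul, Finset.mul_sum]
  congr 1
  refine Finset.sum_congr rfl fun i _ => ?_
  rw [Pi.smul_apply, Complex.real_smul, mul_assoc]

omit [NeZero j] in
private theorem prr_smul_r (c : ℝ) (x z : Vec j) : prr x (c • z) = c * prr x z := by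
  unfold prr
  rw [← Complex.re_ofReal_mul, Finset.mul_sum]
  congr 1
  refine Finset.sum_congr rfl fun i _ => ?_
  rw [Pi.smul_apply, Complex.real_smul, mul_left_comm]

omit [NeZero j] in
private theorem prr_zero_l (z : Vec j) : prr 0 z = 0 := by
  simp [prr]

omit [NeZero j] in
private theorem prr_zero_r (z : Vec j) : prr z 0 = 0 := by
  simp [prr]

omit [NeZero j] in
private theorem prr_star {x : Vec j} (hx : x ≠ 0) :
    prr x (fun i => (starRingEnd ℂ) (x i)) ≠ 0 := by
  have h1 : prr x (fun i => (starRingEnd ℂ) (x i)) = ∑ i, Complex.normSq (x i) := by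
    unfold prr
    rw [Complex.re_sum]
    refine Finset.sum_congr rfl fun i _ => ?_
    rw [Complex.mul_conj, Complex.ofReal_re]
  obtain ⟨i, hi⟩ : ∃ i, x i ≠ 0 := by
    by_contra h
    push Not at h
    exact hx (funext h)
  rw [h1]
  have h2 : 0 < ∑ i, Complex.normSq (x i) :=
    Finset.sum_pos' (fun i _ => Complex.normSq_nonneg _)
      ⟨i, Finset.mem_univ i, Complex.normSq_pos.mpr hi⟩
  exact h2.ne'

omit [NeZero j] in
private theorem prr_star' {x : Vec j} (hx : x ≠ 0) :
    prr (fun i => (starRingEnd ℂ) (x i)) x ≠ 0 := by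
  have h1 : prr (fun i => (starRingEnd ℂ) (x i)) x = prr x (fun i => (starRingEnd ℂ) (x i)) := by
    unfold prr
    congr 1
    exact Finset.sum_congr rfl fun i _ => mul_comm _ _
  rw [h1]
  exact prr_star hx

/-- `om id` as a bilinear map -/
private def omL (j : ℕ) : Cov j →ₗ[ℝ] Cov j →ₗ[ℝ] ℝ :=
  LinearMap.mk₂ ℝ (fun x y => prr x.1 y.2 - prr y.1 x.2)
    (fun x y z => by
      simp only [Prod.fst_add, Prod.snd_add, prr_add_l, prr_add_r]
      ring)
    (fun c x y => by
      simp only [Prod.smul_fst, Prod.smul_snd, prr_smul_l, prr_smul_r, smul_eq_mul]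
      ring)
    (fun x y z => by
      simp only [Prod.fst_add, Prod.snd_add, prr_add_l, prr_add_r]
      ring)
    (fun c x y => by
      simp only [Prod.smul_fst, Prod.smul_snd, prr_smul_l, prr_smul_r, smul_eq_mul]
      ring)

omit [NeZero j] in
private theorem omL_apply (x y : Cov j) : omL j x y = prr x.1 y.2 - prr y.1 x.2 := rfl

/-- `om A` is the pull back of `om id` by `A × id`, whose determinant is `det A`
(`LinearMap.det_prodMap`), and `Wd_map`. -/
theorem wd_om (A : Vec j →ₗ[ℝ] Vec j) :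
    Wd (fun _ : KK j => om A) (bs j) =
      LinearMap.det A * Wd (fun _ : KK j => om LinearMap.id) (bs j) := by
  have h1 := Wd_map (fun _ : KK j => omL j) (bs j) (A.prodMap LinearMap.id)
  rw [LinearMap.det_prodMap, LinearMap.det_id, mul_one] at h1
  exact h1

/-- for `x ≠ 0` there is `y` with `om A x y ≠ 0`, if `A` is injective (`prr` is non-degenerate:
`prr x (conj x) = ∑ ‖x i‖^2`) -/
theorem om_nondeg (A : Vec j →ₗ[ℝ] Vec j) (hA : LinearMap.det A ≠ 0) (x : Cov j) (hx : x ≠ 0) :
    ∃ y, om A x y ≠ 0 := by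
  by_cases h1 : x.1 = 0
  · have h2 : x.2 ≠ 0 := by
      intro h2
      exact hx (Prod.ext h1 h2)
    let e := LinearMap.equivOfDetNeZero A hA
    refine ⟨(e.symm (fun i => (starRingEnd ℂ) (x.2 i)), 0), ?_⟩
    have h3 : A (e.symm (fun i => (starRingEnd ℂ) (x.2 i))) =
        fun i => (starRingEnd ℂ) (x.2 i) := e.apply_symm_apply _
    unfold om
    simp only
    rw [h1, map_zero, prr_zero_l, h3, zero_sub, neg_ne_zero]
    exact prr_star' h2
  · have h2 : A x.1 ≠ 0 := by
      intro h2
      have h3 := (LinearMap.equivOfDetNeZero A hA).injective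
      apply h1
      apply h3
      rw [map_zero]
      exact h2
    refine ⟨(0, fun i => (starRingEnd ℂ) (A x.1 i)), ?_⟩
    unfold om
    simp only
    rw [map_zero, prr_zero_l, sub_zero]
    exact prr_star h2

theorem wd_om_ne : Wd (fun _ : KK j => om (LinearMap.id : Vec j →ₗ[ℝ] Vec j)) (bs j) ≠ 0 := by
  have h1 := Wd_ne_zero (K := KK j) (omL j) (fun x => by
    rw [omL_apply]
    exact sub_self _) (fun x hx => by
      obtain ⟨y, hy⟩ := om_nondeg LinearMap.id (by
        rw [LinearMap.det_id]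
        exact one_ne_zero) x hx
      exact ⟨y, hy⟩) (bs j)
  exact h1

/-- forms with the same mixed part as `om A`, by `Wd_block` -/
theorem wd_of_vw (A : Vec j →ₗ[ℝ] Vec j) (C : Cov j → Cov j → ℝ)
    (hw : ∀ y y' : Vec j, C (0, y) (0, y') = 0)
    (hv : ∀ x y : Vec j, C (x, 0) (0, y) = prr (A x) y)
    (hv' : ∀ x y : Vec j, C (0, y) (x, 0) = -prr (A x) y) :
    Wd (fun _ : KK j => C) (bs j) = Wd (fun _ : KK j => om A) (bs j) := by
  have hl : ∀ i : KK j, bs j (Sum.inl i) = (bv j i, 0) := fun i => by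
    unfold bs
    exact Prod.ext (Module.Basis.prod_apply_inl_fst _ _ _) (Module.Basis.prod_apply_inl_snd _ _ _)
  have hr : ∀ i : KK j, bs j (Sum.inr i) = (0, bv j i) := fun i => by
    unfold bs
    exact Prod.ext (Module.Basis.prod_apply_inr_fst _ _ _) (Module.Basis.prod_apply_inr_snd _ _ _)
  refine Wd_block C (om A) (bs j) ?_ ?_ ?_ ?_
  · intro i i'
    rw [hr, hr]
    exact hw _ _
  · intro i i'
    rw [hr, hr]
    unfold om
    simp only
    rw [map_zero, prr_zero_l, prr_zero_l, sub_zero]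
  · intro i i'
    rw [hl, hr, hv]
    unfold om
    simp only
    rw [map_zero, prr_zero_l, sub_zero]
  · intro i i'
    rw [hl, hr, hv']
    unfold om
    simp only
    rw [map_zero, prr_zero_l, zero_sub]

end Pool.Agent.MP1a66bd
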