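import Pool.Agent.Lib.MP_1a66bd_gt.Frm
import Pool.Agent.Lib.MP_1a66bd_gt.Om
import Pool.Agent.Lib.MP_1a66bd_gt.Equi

/-!
# Left invariant forms
-/

set_option autoImplicit false

noncomputable section

namespace Pool.Agent.MP1a66bd

open scoped ContDiff
open Finset

variable {j : ℕ} [NeZero j]

omit [NeZero j] in
private theorem lif_add_l (x y z : Vec j) : prr (x + y) z = prr x z + prr y z := by
  simp [prr, add_mul, Finset.sum_add_distrib]

omit [NeZero j] in
private theorem lif_add_r (x y z : Vec j) : prr x (y + z) = prr x y + prr x z := by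
  simp [prr, mul_add, Finset.sum_add_distrib]

omit [NeZero j] in
private theorem lif_smul_l (c : ℝ) (x z : Vec j) : prr (c • x) z = c * prr x z := by
  unfold prr
  rw [← Complex.re_ofReal_mul, Finset.mul_sum]
  congr 1
  refine Finset.sum_congr rfl fun i _ => ?_
  rw [Pi.smul_apply, Complex.real_smul, mul_assoc]

omit [NeZero j] in
private theorem lif_smul_r (c : ℝ) (x z : Vec j) : prr x (c • z) = c * prr x z := by
  unfold prr
  rw [← Complex.re_ofReal_mul, Finset.mul_sum]
  congr 1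
  refine Finset.sum_congr rfl fun i _ => ?_
  rw [Pi.smul_apply, Complex.real_smul, mul_left_comm]

/-- the trilinear part -/
private def lifT (u v w : Vec j) : ℝ := prr u (st v w)

private theorem lifT_symm (u v w : Vec j) : lifT u v w = lifT v u w := by
  unfold lifT prr st
  congr 1
  exact Finset.sum_congr rfl fun i _ => mul_left_comm _ _ _

private theorem lifT_add (u v v' w : Vec j) : lifT u (v + v') w = lifT u v w + lifT u v' w := by
  unfold lifT
  rw [st_add_left, lif_add_r]

private theorem lifT_smul (c : ℝ) (u v w : Vec j) : lifT u (c • v) w = c * lifT u v w := by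
  unfold lifT
  rw [st_smul_left, lif_smul_r]

private theorem lifT_neg (u v w : Vec j) : lifT u (-v) w = -lifT u v w := by
  have h := lifT_smul (-1) u v w
  rw [neg_one_smul, neg_one_mul] at h
  exact h

/-- the form at the point `p`, explicitly -/
private theorem lif_om (A : Vec j →ₗ[ℝ] Vec j) (p x y : Cov j) :
    om A (lin (-p.1) x) (lin (-p.1) y) =
      prr (A x.1) y.2 - prr (A y.1) x.2 - lifT (A x.1) p.1 y.1 + lifT (A y.1) p.1 x.1 := by
  rw [lin_apply, lin_apply]
  change prr (A x.1) (y.2 + st (-p.1) y.1) - prr (A y.1) (x.2 + st (-p.1) x.1) = _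
  rw [lif_add_r, lif_add_r]
  have h1 : prr (A x.1) (st (-p.1) y.1) = -lifT (A x.1) p.1 y.1 := lifT_neg _ _ _
  have h2 : prr (A y.1) (st (-p.1) x.1) = -lifT (A y.1) p.1 x.1 := lifT_neg _ _ _
  rw [h1, h2]
  ring

/-- the bilinear form whose antisymmetrisation is the invariant form -/
private def lifB (A : Vec j →ₗ[ℝ] Vec j) (p : Cov j) : Bil j :=
  LinearMap.toContinuousLinearMap
    ((LinearMap.toContinuousLinearMap : (Cov j →ₗ[ℝ] ℝ) ≃ₗ[ℝ] (Cov j →L[ℝ] ℝ)).toLinearMap ∘ₗ
      LinearMap.mk₂ ℝ (fun x y : Cov j => 2 * (prr (A x.1) y.2 - lifT (A x.1) p.1 y.1))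
        (fun x y z => by
          simp only [Prod.fst_add, map_add, lif_add_l, lifT]
          ring)
        (fun c x y => by
          simp only [Prod.smul_fst, map_smul, lif_smul_l, lifT, smul_eq_mul]
          ring)
        (fun x y z => by
          simp only [Prod.fst_add, Prod.snd_add, lif_add_r, lifT, st_add_right]
          ring)
        (fun c x y => by
          simp only [Prod.smul_fst, Prod.smul_snd, lif_smul_r, lifT, st_smul_right, smul_eq_mul]
          ring))

private theorem lifB_apply (A : Vec j →ₗ[ℝ] Vec j) (p x y : Cov j) :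
    lifB A p x y = 2 * (prr (A x.1) y.2 - lifT (A x.1) p.1 y.1) := rfl

/-- the linear functional of the trilinear part -/
private def lifL (u w : Vec j) : Cov j →L[ℝ] ℝ :=
  LinearMap.toContinuousLinearMap
    { toFun := fun q => lifT u q.1 w
      map_add' := fun q q' => lifT_add u q.1 q'.1 w
      map_smul' := fun c q => lifT_smul c u q.1 w }

private theorem lifL_apply (u w : Vec j) (q : Cov j) : lifL u w q = lifT u q.1 w := rfl

omit [NeZero j] in
private theorem lif_alt2_smooth : ContDiff ℝ ∞ fun B : Bil j => alt2 j B :=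
  ContinuousLinearMap.contDiff (𝕜 := ℝ) (E := Bil j) (F := Cov j [⋀^Fin 2]→L[ℝ] ℝ) (alt2 j)

omit [NeZero j] in
private theorem lif_bilL_smooth :
    ContDiff ℝ ∞ fun φ : Cov j [⋀^Fin 2]→L[ℝ] ℝ => bilL j φ :=
  ContinuousLinearMap.contDiff (𝕜 := ℝ) (E := Cov j [⋀^Fin 2]→L[ℝ] ℝ) (F := Bil j) (bilL j)

/-- For every real linear `A : ℂ^j → ℂ^j` there is a smooth invariant form with the value
`om A (lin (-p.1) x) (lin (-p.1) y)` (`alt2` of a bilinear form which is a polynomial in `p`;
`contDiff_clm_apply_iff`). -/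
theorem exists_lif (A : Vec j →ₗ[ℝ] Vec j) : ∃ τ : Form2 j, ContDiff ℝ ∞ τ ∧ Invt τ ∧
    ∀ p x y, τ p ![x, y] = om A (lin (-p.1) x) (lin (-p.1) y) := by
  have hv : ∀ p x y, alt2 j (lifB A p) ![x, y] = om A (lin (-p.1) x) (lin (-p.1) y) := by
    intro p x y
    rw [alt2_apply, lifB_apply, lifB_apply, lif_om]
    ring
  refine ⟨fun p => alt2 j (lifB A p), ?_, ?_, hv⟩
  · refine lif_alt2_smooth.comp ?_
    refine contDiff_clm_apply_iff.2 fun x => contDiff_clm_apply_iff.2 fun y => ?_
    have h1 : (fun p => lifB A p x y) =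
        fun p => 2 * (prr (A x.1) y.2 - lifL (A x.1) y.1 p) := rfl
    rw [h1]
    exact contDiff_const.mul (contDiff_const.sub (lifL (A x.1) y.1).contDiff)
  · rw [invt_iff]
    intro γ p x y
    have hl : ∀ z : Cov j, lin (-(γ • p).1) (lin (toV γ.a) z) = lin (-p.1) z := by
      intro z
      simp only [lin_apply]
      ext1
      · rfl
      · change z.2 + st (toV γ.a) z.1 + st (-(toV γ.a + p.1)) z.1 = z.2 + st (-p.1) z.1
        rw [neg_add, st_add_left, st_neg_left]
        abel
    rw [bilL_apply, bilL_apply, hv, hv, hl, hl]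

/-- non-degenerate if `det A ≠ 0` (`om_nondeg`) -/
theorem lif_nondeg {A : Vec j →ₗ[ℝ] Vec j} (hA : LinearMap.det A ≠ 0) {τ : Form2 j}
    (h : ∀ p x y, τ p ![x, y] = om A (lin (-p.1) x) (lin (-p.1) y)) : NonDeg τ := by
  intro p x hx
  have h1 : lin (-p.1) x ≠ 0 := by
    intro h2
    rw [lin_apply] at h2
    have h3 : x.1 = 0 := congrArg Prod.fst h2
    have h4 : x.2 + st (-p.1) x.1 = 0 := congrArg Prod.snd h2
    rw [h3, st_zero_right, add_zero] at h4
    exact hx (Prod.ext h3 h4)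
  obtain ⟨y, hy⟩ := om_nondeg A hA _ h1
  refine ⟨lin p.1 y, ?_⟩
  have h2 : lin (-p.1) (lin p.1 y) = y := by
    simp only [lin_apply]
    ext1
    · rfl
    · change y.2 + st p.1 y.1 + st (-p.1) y.1 = y.2
      rw [st_neg_left]
      abel
  rw [h, h2]
  exact hy

/-- the derivative of the form -/
private theorem lif_deriv {τ : Form2 j} (hs : ContDiff ℝ ∞ τ)
    (h : ∀ p x y, τ p ![x, y] = om LinearMap.id (lin (-p.1) x) (lin (-p.1) y))
    (p x y z : Cov j) : fderiv ℝ (fun q => bilL j (τ q)) p x y z =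
      -lifT y.1 x.1 z.1 + lifT z.1 x.1 y.1 := by
  have hb : ContDiff ℝ ∞ fun q => bilL j (τ q) := lif_bilL_smooth.comp hs
  have h1 : HasFDerivAt (fun q => bilL j (τ q)) (fderiv ℝ (fun q => bilL j (τ q)) p) p :=
    (hb.differentiable (by simp)).differentiableAt.hasFDerivAt
  have h2 := (h1.clm_apply (hasFDerivAt_const y p)).clm_apply (hasFDerivAt_const z p)
  have h3 : (fun q => bilL j (τ q) y z) =
      fun q => (prr y.1 z.2 - prr z.1 y.2) + (-lifL y.1 z.1 + lifL z.1 y.1) q := by
    funext q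
    rw [bilL_apply, h, lif_om]
    change prr y.1 z.2 - prr z.1 y.2 - lifT y.1 q.1 z.1 + lifT z.1 q.1 y.1 =
      prr y.1 z.2 - prr z.1 y.2 + (-lifT y.1 q.1 z.1 + lifT z.1 q.1 y.1)
    ring
  have h4 : HasFDerivAt (fun q => bilL j (τ q) y z) (-lifL y.1 z.1 + lifL z.1 y.1) p := by
    rw [h3]
    exact ((-lifL y.1 z.1 + lifL z.1 y.1).hasFDerivAt).const_add _
  have h5 := congrArg (fun T : Cov j →L[ℝ] ℝ => T x) (h2.unique h4)
  have h6 : (-lifL y.1 z.1 + lifL z.1 y.1) x = -lifT y.1 x.1 z.1 + lifT z.1 x.1 y.1 := rfl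
  rw [h6] at h5
  rw [← h5]
  rw [ContinuousLinearMap.comp_zero, ContinuousLinearMap.comp_zero, zero_add, zero_add]
  rfl

/-- the form with `A = id` is closed: `τ p ![x, y] = Re ∑ i, (x.1 i * y.2 i - y.1 i * x.2 i -
p.1 i * (x.1 i * y.1 (i + 1) - y.1 i * x.1 (i + 1)))`, `extDeriv_eq` -/
theorem lif_closed {τ : Form2 j} (hs : ContDiff ℝ ∞ τ)
    (h : ∀ p x y, τ p ![x, y] = om LinearMap.id (lin (-p.1) x) (lin (-p.1) y)) :
    ∀ p, extDeriv τ p = 0 := by
  intro p
  refine ContinuousAlternatingMap.ext fun v => ?_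
  have hv : v = ![v 0, v 1, v 2] := by
    funext i
    fin_cases i <;> rfl
  rw [hv, extDeriv_eq (hs.differentiable (by simp)).differentiableAt, lif_deriv hs h,
    lif_deriv hs h, lif_deriv hs h, lifT_symm (v 1).1 (v 0).1, lifT_symm (v 2).1 (v 0).1,
    lifT_symm (v 2).1 (v 1).1]
  change _ = (0 : ℝ)
  ring

/-- its Pfaffian (`Wd_map` or `pf_lin`, `det_lin`) -/
theorem lif_pf {A : Vec j →ₗ[ℝ] Vec j} {τ : Form2 j}
    (h : ∀ p x y, τ p ![x, y] = om A (lin (-p.1) x) (lin (-p.1) y)) (p : Cov j) :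
    pf (fun _ => bilL j (τ p)) = Wd (fun _ : KK j => om A) (bs j) := by
  have h0 : ∀ x y, bilL j (τ 0) x y = om A x y := by
    intro x y
    have hl : ∀ z : Cov j, lin (-(0 : Cov j).1) z = z := by
      intro z
      rw [lin_apply]
      ext1
      · rfl
      · change z.2 + st (-(0 : Vec j)) z.1 = z.2
        rw [neg_zero, st_zero_left, add_zero]
    rw [bilL_apply, h, hl, hl]
  have h1 : bilL j (τ p) = (bilL j (τ 0)).bilinearComp (lin (-p.1)) (lin (-p.1)) := by
    refine ContinuousLinearMap.ext fun x => ContinuousLinearMap.ext fun y => ?_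
    change bilL j (τ p) x y = bilL j (τ 0) (lin (-p.1) x) (lin (-p.1) y)
    rw [h0, bilL_apply, h]
  have h2 := pf_lin (fun _ : KK j => bilL j (τ 0)) (-p.1)
  rw [h1, h2]
  unfold pf
  refine congrArg (fun B => Wd B (bs j)) (funext fun _ => ?_)
  funext x y
  exact h0 x y

/-- complex conjugation of the coordinate `0` -/
theorem exists_conj : ∃ A : Vec j →ₗ[ℝ] Vec j, LinearMap.det A = -1 := by
  classical
  refine ⟨Matrix.toLin (bv j) (bv j)
    (Matrix.diagonal fun k : KK j => if k = ⟨0, 1⟩ then (-1 : ℝ) else 1), ?_⟩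
  rw [LinearMap.det_toLin, Matrix.det_diagonal, Finset.prod_ite_eq']
  simp

end Pool.Agent.MP1a66bd
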