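import Pool.Agent.Lib.MP_1a66bd_gt.MeanP
import Pool.Agent.Lib.MP_1a66bd_gt.Lif
import Pool.Agent.Lib.MP_1a66bd_gt.Grp
import Pool.Agent.Lib.MP_1a66bd_gt.GrpT

/-!
# Almost symplectic structures which are not homotopic to a closed form
-/

set_option autoImplicit false

noncomputable section

namespace Pool.Agent.MP1a66bd

open scoped ContDiff
open Finset

variable {j : ℕ} [NeZero j]

private theorem main_sign {X : Type*} [TopologicalSpace X] [PreconnectedSpace X] {f : X → ℝ}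
    (hf : Continuous f) (h0 : ∀ x, f x ≠ 0) (x y : X) : 0 < f x * f y := by
  by_contra h
  have h1 : f x * f y < 0 := lt_of_le_of_ne (not_lt.1 h) (mul_ne_zero (h0 x) (h0 y))
  have h2 : (0 : ℝ) ∈ Set.range f := by
    rcases mul_neg_iff.1 h1 with ⟨h3, h4⟩ | ⟨h3, h4⟩
    · exact mem_range_of_exists_le_of_exists_ge hf ⟨y, h4.le⟩ ⟨x, h3.le⟩
    · exact mem_range_of_exists_le_of_exists_ge hf ⟨x, h3.le⟩ ⟨y, h4.le⟩
  obtain ⟨z, hz⟩ := h2
  exact h0 z hz

/-- the Pfaffian of a non-degenerate form does not vanish (`Wd_ne_zero`) -/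
theorem pf_ne_zero {τ : Form2 j} (h : NonDeg τ) (p : Cov j) :
    pf (fun _ => bilL j (τ p)) ≠ 0 := by
  obtain ⟨C, hC⟩ : ∃ C : Bil j, C = bilL j (τ p) := ⟨_, rfl⟩
  rw [← hC]
  have ha : ∀ x, C x x = 0 := by
    intro x
    rw [hC, bilL_apply]
    exact (τ p).map_eq_zero_of_eq ![x, x] (i := 0) (j := 1) rfl (by decide)
  have hn : ∀ x, x ≠ 0 → ∃ y, C x y ≠ 0 := by
    intro x hx
    obtain ⟨y, hy⟩ := h p x hx
    exact ⟨y, by rw [hC, bilL_apply]; exact hy⟩
  exact Wd_ne_zero (LinearMap.mk₂ ℝ (fun x y => C x y) (by simp) (by simp) (by simp) (by simp))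
    ha hn (bs j)

/-- the sign of the Pfaffian of a non-degenerate closed form is the one of the form `om id` -/
theorem pf_sign (hj : 3 ≤ j) {τ : Form2 j} (hi : Invt τ) (hn : NonDeg τ) (hc : ClosedF τ)
    (p : Cov j) : 0 < pf (fun _ => bilL j (τ p)) *
      Wd (fun _ : KK j => om (LinearMap.id : Vec j →ₗ[ℝ] Vec j)) (bs j) := by
  obtain ⟨W, hW⟩ : ∃ W : ℝ,
      W = Wd (fun _ : KK j => om (LinearMap.id : Vec j →ₗ[ℝ] Vec j)) (bs j) := ⟨_, rfl⟩
  have hW0 : W ≠ 0 := hW ▸ wd_om_ne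
  have hB := cl_of_form hi hc
  have hcont : Continuous fun q : Cov j => pf (fun _ => bilL j (τ q)) :=
    pf_cont fun _ => hB.diff.continuous
  obtain ⟨d, hd, hm⟩ := mean_pf hj hB
  rw [← hW] at hm ⊢
  by_contra hneg
  have h1 : ∀ q : Cov j, 0 < -W * pf (fun _ => bilL j (τ q)) := by
    intro q
    have h2 := main_sign hcont (fun x => pf_ne_zero hn x) p q
    have h3 : pf (fun _ => bilL j (τ p)) * W < 0 :=
      lt_of_le_of_ne (not_lt.1 hneg) (mul_ne_zero (pf_ne_zero hn p) hW0)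
    have h4 : 0 < pf (fun _ => bilL j (τ p)) ^ 2 := by
      have := pf_ne_zero hn p
      positivity
    by_contra h5
    have h6 : 0 ≤ W * pf (fun _ => bilL j (τ q)) := by
      have := not_lt.1 h5
      linarith
    have h7 : (pf (fun _ => bilL j (τ p)) * W) * (pf (fun _ => bilL j (τ p)) *
        pf (fun _ => bilL j (τ q))) < 0 := mul_neg_of_neg_of_pos h3 h2
    have h8 : (pf (fun _ => bilL j (τ p)) * W) * (pf (fun _ => bilL j (τ p)) *
        pf (fun _ => bilL j (τ q))) = pf (fun _ => bilL j (τ p)) ^ 2 *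
        (W * pf (fun _ => bilL j (τ q))) := by ring
    rw [h8] at h7
    exact absurd h7 (not_lt.2 (mul_nonneg h4.le h6))
  have h10 : Continuous fun q : Cov j => -W * pf (fun _ => bilL j (τ q)) :=
    continuous_const.mul hcont
  have h9 := mean_pos h10 h1
  rw [mean_smul, hm] at h9
  nlinarith [mul_nonneg hd (sq_nonneg W)]

/-- the sign is constant along a path of non-degenerate forms -/
theorem pf_path {H : unitInterval → Form2 j}
    (hH : Continuous fun q : unitInterval × Cov j => H q.1 q.2) (hn : ∀ t, NonDeg (H t))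
    (p : Cov j) : 0 < pf (fun _ => bilL j (H 0 p)) * pf (fun _ => bilL j (H 1 p)) := by
  have h1 : Continuous fun t : unitInterval => H t p :=
    hH.comp (continuous_id.prodMk continuous_const)
  have h2 : Continuous fun t : unitInterval => pf (fun _ => bilL j (H t p)) :=
    pf_cont fun _ => (bilL j).continuous.comp h1
  exact main_sign h2 (fun t => pf_ne_zero (hn t) p) 0 1

/-- The manifold `Gam j \ Cov j`: the lattice acts freely, properly discontinuously and with compact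
quotient, the quotient is parallelizable of dimension `2 (2 j)`; it has a symplectic form; and it has
an almost symplectic structure which is not homotopic, through non-degenerate forms, to a closed
form. -/
theorem main (hj : 3 ≤ j) :
    Module.finrank ℝ (Cov j) = 2 * (2 * j) ∧
    (∀ (γ : Gam j) (p : Cov j), γ • p = p → γ = 1) ∧
    ProperlyDiscontinuousSMul (Gam j) (Cov j) ∧
    CompactSpace (Quotient (MulAction.orbitRel (Gam j) (Cov j))) ∧
    (∀ γ : Gam j, ContDiff ℝ ∞ fun p : Cov j => γ • p) ∧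
    (∃ X : Cov j → (Cov j →L[ℝ] Cov j), ContDiff ℝ ∞ X ∧ (∀ p, Function.Bijective (X p)) ∧
      ∀ (γ : Gam j) (p : Cov j), X (γ • p) = (fderiv ℝ (fun q : Cov j => γ • q) p).comp (X p)) ∧
    (∃ τ : Form2 j, ContDiff ℝ ∞ τ ∧ Invt τ ∧ NonDeg τ ∧ ∀ p, extDeriv τ p = 0) ∧
    ∃ σ : Form2 j, ContDiff ℝ ∞ σ ∧ Invt σ ∧ NonDeg σ ∧
      ∀ H : unitInterval → Form2 j, (Continuous fun q : unitInterval × Cov j => H q.1 q.2) →
        (∀ t, Invt (H t) ∧ NonDeg (H t)) → H 0 = σ → ¬ ClosedF (H 1) := by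
  refine ⟨finrank_cov, act_free, act_pd, act_compact, act_smooth, act_frame, ?_, ?_⟩
  · obtain ⟨τ, hs, hi, hv⟩ := exists_lif (LinearMap.id : Vec j →ₗ[ℝ] Vec j)
    exact ⟨τ, hs, hi, lif_nondeg (by simp) hv, lif_closed hs hv⟩
  · obtain ⟨A, hA⟩ := exists_conj (j := j)
    obtain ⟨σ, hs, hi, hv⟩ := exists_lif A
    refine ⟨σ, hs, hi, lif_nondeg (by rw [hA]; norm_num) hv, ?_⟩
    intro H hH hn h0 hc
    have h1 := pf_path hH (fun t => (hn t).2) 0
    have h2 := pf_sign hj (hn 1).1 (hn 1).2 hc 0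
    rw [h0, lif_pf hv, wd_om, hA] at h1
    linarith

end Pool.Agent.MP1a66bd
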