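import Pool.Agent.Lib.MP_1a66bd_gt.MeanL

/-!
# Derivatives of mean values
-/

set_option autoImplicit false

noncomputable section

namespace Pool.Agent.MP1a66bd

open MeasureTheory Finset

variable {j : ℕ} [NeZero j]

omit [NeZero j] in
private theorem MeanD_cont {P : Type*} [TopologicalSpace P] [FirstCountableTopology P]
    [LocallyCompactSpace P] {H : P → Vec j → ℝ}
    (hH : Continuous fun q : P × Vec j => H q.1 q.2) :
    Continuous fun p => ∫ w in Bx j, H p w := by
  have hK : IsCompact (closure (Bx j)) := bx_bdd.isCompact_closure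
  have hfin : volume (Bx j) < ⊤ := by
    rw [bx_vol]
    exact ENNReal.one_lt_top
  have : IsFiniteMeasure (volume.restrict (Bx j)) := ⟨by
    rw [Measure.restrict_apply_univ]
    exact hfin⟩
  have h1 := continuous_parametric_integral_of_continuous (μ := volume.restrict (Bx j))
    (f := H) hH hK
  have h2 : (volume.restrict (Bx j)).restrict (closure (Bx j)) =
      (volume.restrict (Bx j) : Measure (Vec j)) := by
    rw [Measure.restrict_restrict hK.isClosed.measurableSet,
      Set.inter_eq_self_of_subset_right subset_closure]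
  rw [h2] at h1
  exact h1

omit [NeZero j] in
private theorem MeanD_deriv {Φ Φ' : ℝ → Vec j → ℝ}
    (hd : ∀ t w, HasDerivAt (fun t => Φ t w) (Φ' t w) t)
    (hc : Continuous fun q : ℝ × Vec j => Φ q.1 q.2)
    (hc' : Continuous fun q : ℝ × Vec j => Φ' q.1 q.2) (t : ℝ) :
    HasDerivAt (fun t => ∫ w in Bx j, Φ t w) (∫ w in Bx j, Φ' t w) t := by
  have hK : IsCompact (closure (Bx j)) := bx_bdd.isCompact_closure
  obtain ⟨C, hC⟩ := ((isCompact_closedBall t (1 : ℝ)).prod hK).exists_bound_of_continuousOn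
    hc'.continuousOn
  have hcont : ∀ s, Continuous (Φ s) := fun s =>
    hc.comp (f := fun w : Vec j => (s, w)) (by fun_prop)
  have hcont' : ∀ s, Continuous (Φ' s) := fun s =>
    hc'.comp (f := fun w : Vec j => (s, w)) (by fun_prop)
  refine (hasDerivAt_integral_of_dominated_loc_of_deriv_le (μ := volume.restrict (Bx j))
    (F := Φ) (F' := Φ') (x₀ := t) (s := Metric.closedBall t 1) (bound := fun _ => C)
    (Metric.closedBall_mem_nhds t one_pos) ?_ ?_ ?_ ?_ ?_ ?_).2
  · exact Filter.Eventually.of_forall fun s => (hcont s).aestronglyMeasurable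
  · exact bx_integrable (hcont t)
  · exact (hcont' t).aestronglyMeasurable
  · refine (ae_restrict_iff' bx_meas).2 (Filter.Eventually.of_forall fun w hw s hs => ?_)
    exact hC (s, w) ⟨hs, subset_closure hw⟩
  · exact bx_integrable (f := fun _ => C) continuous_const
  · exact Filter.Eventually.of_forall fun w s _ => hd s w

/-- the derivative of a mean value -/
private theorem MeanD_main {Ψ Ψ' : ℝ → Cov j → ℝ}
    (hd : ∀ t p, HasDerivAt (fun t => Ψ t p) (Ψ' t p) t)
    (hc : Continuous fun q : ℝ × Cov j => Ψ q.1 q.2)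
    (hc' : Continuous fun q : ℝ × Cov j => Ψ' q.1 q.2) (t : ℝ) :
    HasDerivAt (fun t => Mean (Ψ t)) (Mean (Ψ' t)) t := by
  unfold Mean
  have hin : ∀ s v, HasDerivAt (fun t => ∫ w in Bx j, Ψ t (v, w))
      (∫ w in Bx j, Ψ' s (v, w)) s := by
    intro s v
    refine MeanD_deriv (Φ := fun t w => Ψ t (v, w)) (Φ' := fun t w => Ψ' t (v, w))
      (fun t w => hd t (v, w)) ?_ ?_ s
    · exact hc.comp (f := fun q : ℝ × Vec j => (q.1, ((v, q.2) : Cov j))) (by fun_prop)
    · exact hc'.comp (f := fun q : ℝ × Vec j => (q.1, ((v, q.2) : Cov j))) (by fun_prop)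
  refine MeanD_deriv (Φ := fun t v => ∫ w in Bx j, Ψ t (v, w))
    (Φ' := fun t v => ∫ w in Bx j, Ψ' t (v, w)) hin ?_ ?_ t
  · refine MeanD_cont (P := ℝ × Vec j) (H := fun p w => Ψ p.1 (p.2, w)) ?_
    exact hc.comp (f := fun q : (ℝ × Vec j) × Vec j => (q.1.1, ((q.1.2, q.2) : Cov j)))
      (by fun_prop)
  · refine MeanD_cont (P := ℝ × Vec j) (H := fun p w => Ψ' p.1 (p.2, w)) ?_
    exact hc'.comp (f := fun q : (ℝ × Vec j) × Vec j => (q.1.1, ((q.1.2, q.2) : Cov j)))
      (by fun_prop)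

/-- If `t ↦ Ψ t p` has a derivative `Ψ' t p`, jointly continuous, whose mean value vanishes for every
`t`, then the mean value of `Ψ t` does not depend on `t` (`integral_eq_sub_of_hasDerivAt` and Fubini
on `[0, 1]` times the box, or dominated differentiation). -/
theorem mean_const_of_deriv {Ψ Ψ' : ℝ → Cov j → ℝ}
    (hd : ∀ t p, HasDerivAt (fun t => Ψ t p) (Ψ' t p) t)
    (hc : Continuous fun q : ℝ × Cov j => Ψ q.1 q.2)
    (hc' : Continuous fun q : ℝ × Cov j => Ψ' q.1 q.2)
    (h0 : ∀ t, Mean (Ψ' t) = 0) : Mean (Ψ 1) = Mean (Ψ 0) := by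
  have h1 := MeanD_main hd hc hc'
  refine is_const_of_deriv_eq_zero (f := fun t => Mean (Ψ t))
    (fun t => (h1 t).differentiableAt) (fun t => ?_) 1 0
  rw [(h1 t).deriv, h0 t]

/-- the derivative at `0` of a constant mean value -/
theorem mean_deriv_zero {Ψ Ψ' : ℝ → Cov j → ℝ}
    (hd : ∀ t p, HasDerivAt (fun t => Ψ t p) (Ψ' t p) t)
    (hc : Continuous fun q : ℝ × Cov j => Ψ q.1 q.2)
    (hc' : Continuous fun q : ℝ × Cov j => Ψ' q.1 q.2)
    (h0 : ∀ t, Mean (Ψ t) = Mean (Ψ 0)) : Mean (Ψ' 0) = 0 := by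
  have h1 := MeanD_main hd hc hc' 0
  have h2 : (fun t => Mean (Ψ t)) = fun _ => Mean (Ψ 0) := funext h0
  rw [h2] at h1
  exact h1.unique (hasDerivAt_const 0 _)

end Pool.Agent.MP1a66bd
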