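import Pool.Agent.Lib.MP_1a66bd_gt.Tor

/-!
# Translations of periodic functions
-/

set_option autoImplicit false

noncomputable section

namespace Pool.Agent.MP1a66bd

open MeasureTheory
open scoped Pointwise

variable {j : ℕ}

/-- the lattice `ℤ[i]^j` as a homomorphism -/
private def toVHom (j : ℕ) : (Fin j → GaussianInt) →+ Vec j where
  toFun := toV
  map_zero' := toV_zero
  map_add' := toV_add

/-- the lattice `ℤ[i]^j` as a subgroup -/
private abbrev Lat (j : ℕ) : AddSubgroup (Vec j) := (toVHom j).range

private instance latCountable : Countable (Lat j) := by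
  have : Countable GaussianInt := by
    refine Function.Injective.countable (f := fun z : GaussianInt => (z.re, z.im)) ?_
    intro a b h
    exact Zsqrtd.ext (congrArg Prod.fst h) (congrArg Prod.snd h)
  exact ((toVHom j).rangeRestrict_surjective).countable

private theorem fund : IsAddFundamentalDomain (Lat j) (Bx j) (volume : Measure (Vec j)) where
  nullMeasurableSet := bx_meas.nullMeasurableSet
  ae_covers := Filter.Eventually.of_forall fun v => by
    obtain ⟨a, ha⟩ := bx_exists v
    exact ⟨⟨toV a, ⟨a, rfl⟩⟩, ha⟩
  aedisjoint := by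
    intro g h hgh
    refine Disjoint.aedisjoint (Set.disjoint_left.mpr fun v hv hw => hgh ?_)
    obtain ⟨g, a, ha⟩ := g
    obtain ⟨h, b, hb⟩ := h
    have ha' : toV a = g := ha
    have hb' : toV b = h := hb
    obtain ⟨x, hx, hxv⟩ := hv
    obtain ⟨y, hy, hyv⟩ := hw
    have hx' : toV a + x = v := by rw [ha']; exact hxv
    have hy' : toV b + y = v := by rw [hb']; exact hyv
    have e1 : toV 0 + x ∈ Bx j := by rw [toV_zero, zero_add]; exact hx
    have e2 : toV (a - b) + x ∈ Bx j := by
      have e3 : toV (a - b) + x = y := by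
        have e4 : toV (a - b) + toV b = toV a := by rw [← toV_add, sub_add_cancel]
        have e5 : toV (a - b) = toV a - toV b := eq_sub_of_add_eq e4
        rw [e5, sub_add_eq_add_sub, hx', ← hy', add_sub_cancel_left]
      rw [e3]
      exact hy
    have e6 := bx_unique x 0 (a - b) e1 e2
    have e7 : a = b := (sub_eq_zero.mp e6.symm)
    apply Subtype.ext
    change g = h
    rw [← ha', ← hb', e7]

/-- `Bx j` and `Bx j + c` are fundamental domains of the lattice (an additive group acting by
translations; `IsAddFundamentalDomain.setIntegral_eq`); or integrate the coordinates one by one with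
`Function.Periodic.intervalIntegral_add_eq`. -/
theorem per_shift {f : Vec j → ℝ} (hf : Continuous f) (hp : Per f) (c : Vec j) :
    ∫ v in Bx j, f (v + c) = ∫ v in Bx j, f v := by
  have h1 : IsAddFundamentalDomain (Lat j) (c +ᵥ Bx j) (volume : Measure (Vec j)) :=
    fund.vadd_of_comm c
  have h2 : ∫ v in c +ᵥ Bx j, f v = ∫ v in Bx j, f v := by
    refine h1.setIntegral_eq fund ?_
    rintro ⟨g, a, ha⟩ x
    have ha' : toV a = g := ha
    change f (g + x) = f x
    rw [← ha']
    exact hp a x
  rw [← h2]
  have h3 := (measurePreserving_vadd c (volume : Measure (Vec j))).setIntegral_image_emb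
    (measurableEmbedding_const_vadd c) f (Bx j)
  rw [show (c +ᵥ Bx j) = (fun x : Vec j => c +ᵥ x) '' Bx j from rfl, h3]
  refine integral_congr_ae (Filter.Eventually.of_forall fun v => ?_)
  change f (v + c) = f (c + v)
  rw [add_comm]

/-- The derivative at `t = 0` of `t ↦ ∫ v in Bx j, f (v + t • c)`, which is constant. -/
theorem per_deriv {f : Vec j → ℝ} (hf : ContDiff ℝ 1 f) (hp : Per f) (c : Vec j) :
    ∫ v in Bx j, fderiv ℝ f v c = 0 := by
  have hfin : IsFiniteMeasure ((volume : Measure (Vec j)).restrict (Bx j)) := by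
    constructor
    rw [Measure.restrict_apply_univ, bx_vol]
    exact ENNReal.one_lt_top
  have hfc : Continuous f := hf.continuous
  have hfd : Continuous (fderiv ℝ f) := hf.continuous_fderiv one_ne_zero
  have hdiff : Differentiable ℝ f := hf.differentiable one_ne_zero
  have hcc : ∀ t : ℝ, Continuous fun v : Vec j => v + t • c := fun t => by fun_prop
  have hF' : Continuous fun q : Vec j × ℝ => fderiv ℝ f (q.1 + q.2 • c) c :=
    (hfd.comp (by fun_prop : Continuous fun q : Vec j × ℝ => q.1 + q.2 • c)).clm_apply
      continuous_const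
  have hK : IsCompact (closure (Bx j) ×ˢ Set.Icc (-1 : ℝ) 1) :=
    bx_bdd.isCompact_closure.prod isCompact_Icc
  obtain ⟨M, hM⟩ := hK.exists_bound_of_continuousOn hF'.continuousOn
  have key := hasDerivAt_integral_of_dominated_loc_of_deriv_le
    (μ := (volume : Measure (Vec j)).restrict (Bx j)) (𝕜 := ℝ)
    (F := fun t v => f (v + t • c)) (F' := fun t v => fderiv ℝ f (v + t • c) c)
    (x₀ := (0 : ℝ)) (s := Set.Ioo (-1 : ℝ) 1) (bound := fun _ => M)
    (Ioo_mem_nhds (by norm_num) (by norm_num))
    (Filter.Eventually.of_forall fun t => (hfc.comp (hcc t)).aestronglyMeasurable)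
    (bx_integrable (hfc.comp (hcc 0)))
    ((hfd.comp (hcc 0)).clm_apply continuous_const).aestronglyMeasurable
    ((ae_restrict_iff' bx_meas).mpr (Filter.Eventually.of_forall fun v hv t ht =>
      hM (v, t) ⟨subset_closure hv, ⟨ht.1.le, ht.2.le⟩⟩))
    (integrable_const M)
    (Filter.Eventually.of_forall fun v t _ => by
      have h1 : HasFDerivAt f (fderiv ℝ f (v + t • c)) (v + t • c) :=
        (hdiff (v + t • c)).hasFDerivAt
      have h2 : HasDerivAt (fun t : ℝ => v + t • c) c t := by
        have h3 := ((hasDerivAt_id t).smul_const c).const_add v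
        simpa using h3
      exact h1.comp_hasDerivAt t h2)
  have h4 : (fun t : ℝ => ∫ v in Bx j, f (v + t • c)) = fun _ => ∫ v in Bx j, f v := by
    funext t
    exact per_shift hfc hp (t • c)
  have h5 := key.2
  rw [h4] at h5
  have h6 := h5.unique (hasDerivAt_const (0 : ℝ) (∫ v in Bx j, f v))
  simpa using h6

end Pool.Agent.MP1a66bd
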