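import Pool.Agent.Lib.MP_1a66bd_gt.MeanD
import Pool.Agent.Lib.MP_1a66bd_gt.TorS

/-!
# Mean values of invariant functions; right translations
-/

set_option autoImplicit false

noncomputable section

namespace Pool.Agent.MP1a66bd

open MeasureTheory Finset

variable {j : ℕ} [NeZero j]

/-- invariant functions are periodic in the second variable -/
theorem fi_per {F : Cov j → ℝ} (hF : Fi F) (v : Vec j) : Per fun w => F (v, w) := by
  intro c w
  have h := hF ⟨0, c⟩ (v, w)
  rw [smul_eq] at h
  simp only [toV_zero, zero_add, st_zero_left, add_zero] at h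
  exact h

/-- `∫ w, F (toV a + v, w) = ∫ w, F (v, w - toV c - a ⋆ v)`, and `per_shift` -/
theorem wmean_per {F : Cov j → ℝ} (hc : Continuous F) (hF : Fi F) :
    Per fun v => ∫ w in Bx j, F (v, w) := by
  intro a v
  have h1 : ∀ w : Vec j, F (toV a + v, w) = F (v, w + -st (toV a) v) := by
    intro w
    have h := hF ⟨a, 0⟩ (v, w + -st (toV a) v)
    rw [smul_eq] at h
    simp only [toV_zero, zero_add, neg_add_cancel_right] at h
    exact h
  have h2 : Continuous fun w : Vec j => F (v, w) := hc.comp (by fun_prop)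
  show ∫ w in Bx j, F (toV a + v, w) = ∫ w in Bx j, F (v, w)
  rw [← per_shift h2 (fi_per hF v) (-st (toV a) v)]
  exact integral_congr_ae (Filter.Eventually.of_forall h1)

/-- right translations preserve the mean value: `per_shift` in `w`, then in `v` -/
theorem mean_right {F : Cov j → ℝ} (hc : Continuous F) (hF : Fi F) (g : Cov j) :
    Mean (fun p => F (gm p g)) = Mean F := by
  have h1 : ∀ v : Vec j, ∫ w in Bx j, F (gm (v, w) g) = ∫ w in Bx j, F (v + g.1, w) := by
    intro v
    have h2 : Continuous fun w : Vec j => F (v + g.1, w) := hc.comp (by fun_prop)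
    rw [← per_shift h2 (fi_per hF (v + g.1)) (g.2 + st v g.1)]
    refine integral_congr_ae (Filter.Eventually.of_forall fun w => ?_)
    show F (v + g.1, w + g.2 + st v g.1) = F (v + g.1, w + (g.2 + st v g.1))
    rw [add_assoc]
  show ∫ v in Bx j, ∫ w in Bx j, F (gm (v, w) g) = ∫ v in Bx j, ∫ w in Bx j, F (v, w)
  rw [← per_shift (wmean_cont hc) (wmean_per hc hF) g.1]
  exact integral_congr_ae (Filter.Eventually.of_forall h1)

/-- averaging over the translations `g`, at a fixed point `p`: `per_shift` in the second component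
of `g`, then in the first one -/
theorem mean_left {F : Cov j → ℝ} (hc : Continuous F) (hF : Fi F) (p : Cov j) :
    Mean (fun g => F (gm p g)) = Mean F := by
  have h1 : ∀ a : Vec j, ∫ c in Bx j, F (gm p (a, c)) = ∫ w in Bx j, F (a + p.1, w) := by
    intro a
    have h2 : Continuous fun w : Vec j => F (a + p.1, w) := hc.comp (by fun_prop)
    rw [← per_shift h2 (fi_per hF (a + p.1)) (p.2 + st p.1 a)]
    refine integral_congr_ae (Filter.Eventually.of_forall fun c => ?_)
    show F (p.1 + a, p.2 + c + st p.1 a) = F (a + p.1, c + (p.2 + st p.1 a))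
    have e1 : p.1 + a = a + p.1 := add_comm _ _
    have e2 : p.2 + c + st p.1 a = c + (p.2 + st p.1 a) := by abel
    rw [e1, e2]
  show ∫ a in Bx j, ∫ c in Bx j, F (gm p (a, c)) = ∫ v in Bx j, ∫ w in Bx j, F (v, w)
  rw [← per_shift (wmean_cont hc) (wmean_per hc hF) p.1]
  exact integral_congr_ae (Filter.Eventually.of_forall h1)

private theorem meanF_gm (p ξ : Cov j) (t : ℝ) : gm p (t • ξ) = p + t • lin p.1 ξ := by
  apply Prod.ext
  · rfl
  · show p.2 + t • ξ.2 + st p.1 (t • ξ.1) = p.2 + t • (ξ.2 + st p.1 ξ.1)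
    rw [st_smul_right, smul_add, add_assoc]

private theorem meanF_lin_cont (ξ : Cov j) : Continuous fun p : Cov j => lin p.1 ξ := by
  have h1 : Continuous fun p : Cov j => st p.1 ξ.1 := by
    refine continuous_pi fun i => ?_
    show Continuous fun p : Cov j => p.1 i * ξ.1 (i + 1)
    fun_prop
  show Continuous fun p : Cov j => ((ξ.1, ξ.2 + st p.1 ξ.1) : Cov j)
  exact continuous_const.prodMk (continuous_const.add h1)

/-- `gm p (t • ξ) = p + t • lin p.1 ξ`; `mean_right` and `mean_deriv_zero`. -/
theorem mean_field {F : Cov j → ℝ} (hF : ContDiff ℝ 1 F) (hi : Fi F) (ξ : Cov j) :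
    Mean (fun p => fderiv ℝ F p (lin p.1 ξ)) = 0 := by
  have hc : Continuous F := hF.continuous
  have hcurve : Continuous fun q : ℝ × Cov j => q.2 + q.1 • lin q.2.1 ξ := by
    have h1 : Continuous fun q : ℝ × Cov j => lin q.2.1 ξ :=
      (meanF_lin_cont ξ).comp continuous_snd
    exact continuous_snd.add (continuous_fst.smul h1)
  have h := mean_deriv_zero (j := j) (Ψ := fun t p => F (p + t • lin p.1 ξ))
    (Ψ' := fun t p => fderiv ℝ F (p + t • lin p.1 ξ) (lin p.1 ξ)) ?_ ?_ ?_ ?_
  · simp only [zero_smul, add_zero] at h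
    exact h
  · intro t p
    have h1 : HasFDerivAt F (fderiv ℝ F (p + t • lin p.1 ξ)) (p + t • lin p.1 ξ) :=
      ((hF.differentiable (by norm_num)) _).hasFDerivAt
    have h2 : HasDerivAt (fun s : ℝ => p + s • lin p.1 ξ) (lin p.1 ξ) t := by
      have h3 := ((hasDerivAt_id t).smul_const (lin p.1 ξ)).const_add p
      simpa using h3
    exact h1.comp_hasDerivAt t h2
  · exact hc.comp hcurve
  · have h1 : Continuous fun q : ℝ × Cov j => fderiv ℝ F (q.2 + q.1 • lin q.2.1 ξ) :=
      (hF.continuous_fderiv (by norm_num)).comp hcurve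
    exact h1.clm_apply ((meanF_lin_cont ξ).comp continuous_snd)
  · intro t
    have h1 := mean_right hc hi (t • ξ)
    have h2 := mean_right hc hi ((0 : ℝ) • ξ)
    simp only [meanF_gm] at h1 h2
    rw [h1, h2]

end Pool.Agent.MP1a66bd
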