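import Pool.Agent.Lib.MP_1a66bd_gt.Tor

/-!
# The mean value of continuous functions
-/

set_option autoImplicit false

noncomputable section

namespace Pool.Agent.MP1a66bd

open MeasureTheory Finset

variable {j : ℕ} [NeZero j]

omit [NeZero j] in
private theorem meanL_cpt : IsCompact (closure (Bx j)) := (bx_bdd (j := j)).isCompact_closure

omit [NeZero j] in
private theorem meanL_fin : IsFiniteMeasure (volume.restrict (Bx j)) :=
  ⟨by rw [Measure.restrict_apply_univ, bx_vol]; exact ENNReal.one_lt_top⟩

omit [NeZero j] in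
private theorem meanL_bound {X : Type*} [TopologicalSpace X] [WeaklyLocallyCompactSpace X]
    {G : X → Vec j → ℝ} (hG : Continuous fun q : X × Vec j => G q.1 q.2) (x₀ : X) :
    ∃ C : ℝ, ∃ K ∈ nhds x₀, ∀ x ∈ K, ∀ w ∈ Bx j, ‖G x w‖ ≤ C := by
  obtain ⟨K, hK, hKx⟩ := exists_compact_mem_nhds x₀
  obtain ⟨C, hC⟩ := (hK.prod (meanL_cpt (j := j))).exists_bound_of_continuousOn hG.continuousOn
  exact ⟨C, K, hKx, fun x hx w hw => hC (x, w) ⟨hx, subset_closure hw⟩⟩

omit [NeZero j] in
private theorem meanL_cont {X : Type*} [TopologicalSpace X] [WeaklyLocallyCompactSpace X]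
    [FirstCountableTopology X]
    {G : X → Vec j → ℝ} (hG : Continuous fun q : X × Vec j => G q.1 q.2) :
    Continuous fun x => ∫ w in Bx j, G x w := by
  have := meanL_fin (j := j)
  rw [continuous_iff_continuousAt]
  intro x₀
  obtain ⟨C, K, hK, hC⟩ := meanL_bound hG x₀
  refine continuousAt_of_dominated (bound := fun _ => C) ?_ ?_ (integrable_const C) ?_
  · refine Filter.Eventually.of_forall fun x => ?_
    have h1 : Continuous fun w : Vec j => G x w := hG.comp (Continuous.prodMk_right x)
    exact h1.aestronglyMeasurable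
  · refine Filter.eventually_of_mem hK fun x hx => ?_
    rw [ae_restrict_iff' bx_meas]
    exact Filter.Eventually.of_forall fun w hw => hC x hx w hw
  · refine Filter.Eventually.of_forall fun w => ?_
    have h1 : Continuous fun x : X => G x w := hG.comp (Continuous.prodMk_left w)
    exact h1.continuousAt

/-- the integral over the fibre is continuous -/
theorem wmean_cont {F : Cov j → ℝ} (hF : Continuous F) :
    Continuous fun v => ∫ w in Bx j, F (v, w) :=
  meanL_cont (G := fun v w => F (v, w)) hF

/-- derivative of the integral over the fibre (dominated differentiation) -/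
theorem wmean_deriv {F : Cov j → ℝ} (hF : ContDiff ℝ 1 F) (v x : Vec j) :
    HasDerivAt (fun t : ℝ => ∫ w in Bx j, F (v + t • x, w))
      (∫ w in Bx j, fderiv ℝ F (v, w) (x, 0)) 0 := by
  have := meanL_fin (j := j)
  have hc : Continuous fun q : ℝ × Vec j => fderiv ℝ F (v + q.1 • x, q.2) (x, 0) := by
    have h1 : Continuous (fderiv ℝ F) := hF.continuous_fderiv one_ne_zero
    have h2 : Continuous fun q : ℝ × Vec j => ((v + q.1 • x, q.2) : Cov j) := by fun_prop
    exact (h1.comp h2).clm_apply continuous_const
  obtain ⟨C, K, hK, hC⟩ := meanL_bound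
    (G := fun (t : ℝ) (w : Vec j) => fderiv ℝ F (v + t • x, w) (x, 0)) hc 0
  have h3 : ∀ t : ℝ, Continuous fun w : Vec j => F (v + t • x, w) := fun t =>
    hF.continuous.comp (Continuous.prodMk_right (v + t • x))
  have h4 := (hasDerivAt_integral_of_dominated_loc_of_deriv_le (μ := volume.restrict (Bx j))
    (F := fun (t : ℝ) (w : Vec j) => F (v + t • x, w))
    (F' := fun (t : ℝ) (w : Vec j) => fderiv ℝ F (v + t • x, w) (x, 0)) (x₀ := (0 : ℝ))
    (bound := fun _ => C) hK (Filter.Eventually.of_forall fun t => (h3 t).aestronglyMeasurable)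
    (bx_integrable (h3 0)) ?_ ?_ (integrable_const C) ?_).2
  · simpa using h4
  · have h5 : Continuous fun w : Vec j => fderiv ℝ F (v + (0 : ℝ) • x, w) (x, 0) :=
      hc.comp (Continuous.prodMk_right (0 : ℝ))
    exact h5.aestronglyMeasurable
  · rw [ae_restrict_iff' bx_meas]
    exact Filter.Eventually.of_forall fun w hw t ht => hC t ht w hw
  · refine Filter.Eventually.of_forall fun w t _ => ?_
    have h6 : HasDerivAt (fun t : ℝ => v + t • x) x t := by
      have h7 := ((hasDerivAt_id t).smul_const x).const_add v
      simpa using h7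
    have h8 : HasDerivAt (fun t : ℝ => ((v + t • x, w) : Cov j)) (x, 0) t :=
      h6.prodMk (hasDerivAt_const t w)
    have h9 : HasFDerivAt F (fderiv ℝ F (v + t • x, w)) (v + t • x, w) :=
      (hF.differentiable one_ne_zero _).hasFDerivAt
    exact h9.comp_hasDerivAt t h8

theorem mean_add {F G : Cov j → ℝ} (hF : Continuous F) (hG : Continuous G) :
    Mean (fun p => F p + G p) = Mean F + Mean G := by
  unfold Mean
  have h1 : ∀ v : Vec j, ∫ w in Bx j, (F (v, w) + G (v, w)) =
      (∫ w in Bx j, F (v, w)) + ∫ w in Bx j, G (v, w) := fun v =>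
    integral_add (bx_integrable (hF.comp (Continuous.prodMk_right v)))
      (bx_integrable (hG.comp (Continuous.prodMk_right v)))
  simp only [h1]
  exact integral_add (bx_integrable (wmean_cont hF)) (bx_integrable (wmean_cont hG))

theorem mean_smul (c : ℝ) (F : Cov j → ℝ) : Mean (fun p => c * F p) = c * Mean F := by
  unfold Mean
  simp only [integral_const_mul]

theorem mean_const (c : ℝ) : Mean (fun _ : Cov j => c) = c := by
  unfold Mean
  simp only [setIntegral_const, Measure.real, bx_vol]
  simp

theorem mean_sum {ι : Type*} (s : Finset ι) (F : ι → Cov j → ℝ) (hF : ∀ i ∈ s, Continuous (F i)) :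
    Mean (fun p => ∑ i ∈ s, F i p) = ∑ i ∈ s, Mean (F i) := by
  classical
  induction s using Finset.induction_on with
  | empty =>
    simp only [Finset.sum_empty]
    exact mean_const 0
  | insert i s hi ih =>
    simp only [Finset.sum_insert hi]
    rw [mean_add (hF i (Finset.mem_insert_self i s))
      (continuous_finsetSum s fun k hk => hF k (Finset.mem_insert_of_mem hk)),
      ih fun k hk => hF k (Finset.mem_insert_of_mem hk)]

omit [NeZero j] in
private theorem meanL_pos {f : Vec j → ℝ} (hf : Continuous f) (h : ∀ v, 0 < f v) :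
    0 < ∫ v in Bx j, f v := by
  rw [setIntegral_pos_iff_support_of_nonneg_ae
    (Filter.Eventually.of_forall fun v => (h v).le) (bx_integrable hf)]
  have h1 : Function.support f = Set.univ := by
    ext v
    simp [(h v).ne']
  rw [h1, Set.univ_inter, bx_vol]
  exact one_pos

theorem mean_pos {F : Cov j → ℝ} (hF : Continuous F) (h : ∀ p, 0 < F p) : 0 < Mean F :=
  meanL_pos (wmean_cont hF) fun v => meanL_pos (hF.comp (Continuous.prodMk_right v)) fun w =>
    h (v, w)

omit [NeZero j] in
private theorem meanL_eq {G : Cov j → ℝ}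
    (hG : Integrable G ((volume.restrict (Bx j)).prod (volume.restrict (Bx j)))) :
    Mean G = ∫ p, G p ∂((volume.restrict (Bx j)).prod (volume.restrict (Bx j))) := by
  have := meanL_fin (j := j)
  rw [integral_prod _ hG]
  rfl

omit [NeZero j] in
private theorem meanL_prod {X Y : Type*} [TopologicalSpace X] [TopologicalSpace Y]
    [MeasurableSpace X] [MeasurableSpace Y] [BorelSpace X] [BorelSpace Y]
    [SecondCountableTopology X] [SecondCountableTopology Y]
    {μ : Measure X} {ν : Measure Y} [IsFiniteMeasure μ] [IsFiniteMeasure ν]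
    {G : X × Y → ℝ} (hG : Continuous G) {C : ℝ} (hC : ∀ᵐ q ∂(μ.prod ν), ‖G q‖ ≤ C) :
    Integrable G (μ.prod ν) :=
  Integrable.of_bound hG.aestronglyMeasurable C hC

omit [NeZero j] in
private theorem meanL_ae : ∀ᵐ p ∂((volume.restrict (Bx j)).prod (volume.restrict (Bx j))),
    p ∈ Bx j ×ˢ Bx j := by
  rw [Measure.prod_restrict]
  exact ae_restrict_mem (bx_meas.prod bx_meas)

/-- the integrals over the two variables `q` (box) and `p` (box) can be exchanged -/
theorem mean_swap {F : Cov j → Cov j → ℝ} (hF : Continuous fun q : Cov j × Cov j => F q.1 q.2) :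
    Mean (fun p => Mean fun q => F p q) = Mean (fun q => Mean fun p => F p q) := by
  have := meanL_fin (j := j)
  have hK := meanL_cpt (j := j)
  obtain ⟨C, hC⟩ := ((hK.prod hK).prod (hK.prod hK)).exists_bound_of_continuousOn hF.continuousOn
  have hsub : Bx j ×ˢ Bx j ⊆ closure (Bx j) ×ˢ closure (Bx j) :=
    Set.prod_mono subset_closure subset_closure
  have hK2 : IsCompact (closure (Bx j) ×ˢ closure (Bx j)) := hK.prod hK
  have hint : Integrable (Function.uncurry F)
      (((volume.restrict (Bx j)).prod (volume.restrict (Bx j))).prod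
        ((volume.restrict (Bx j)).prod (volume.restrict (Bx j)))) := by
    refine meanL_prod (C := C) hF ?_
    have h1 : MeasurableSet ((Bx j ×ˢ Bx j) ×ˢ (Bx j ×ˢ Bx j)) :=
      (bx_meas.prod bx_meas).prod (bx_meas.prod bx_meas)
    rw [Measure.prod_restrict, Measure.prod_restrict]
    filter_upwards [ae_restrict_mem h1] with q hq
    exact hC q ⟨hsub hq.1, hsub hq.2⟩
  have hsec1 : ∀ p : Cov j, Integrable (fun q => F p q)
      ((volume.restrict (Bx j)).prod (volume.restrict (Bx j))) := by
    intro p
    have h1 : Continuous fun q : Cov j => F p q := hF.comp (Continuous.prodMk_right p)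
    obtain ⟨D, hD⟩ := hK2.exists_bound_of_continuousOn h1.continuousOn
    refine meanL_prod (C := D) h1 ?_
    filter_upwards [meanL_ae (j := j)] with q hq
    exact hD q (hsub hq)
  have hsec2 : ∀ q : Cov j, Integrable (fun p => F p q)
      ((volume.restrict (Bx j)).prod (volume.restrict (Bx j))) := by
    intro q
    have h1 : Continuous fun p : Cov j => F p q := hF.comp (Continuous.prodMk_left q)
    obtain ⟨D, hD⟩ := hK2.exists_bound_of_continuousOn h1.continuousOn
    refine meanL_prod (C := D) h1 ?_
    filter_upwards [meanL_ae (j := j)] with p hp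
    exact hD p (hsub hp)
  have e1 : (fun p => Mean fun q => F p q) = fun p => ∫ q, F p q
      ∂((volume.restrict (Bx j)).prod (volume.restrict (Bx j))) :=
    funext fun p => meanL_eq (hsec1 p)
  have e2 : (fun q => Mean fun p => F p q) = fun q => ∫ p, F p q
      ∂((volume.restrict (Bx j)).prod (volume.restrict (Bx j))) :=
    funext fun q => meanL_eq (hsec2 q)
  rw [e1, e2]
  exact (meanL_eq hint.integral_prod_left).trans ((integral_integral_swap hint).trans
    (meanL_eq hint.integral_prod_right).symm)

end Pool.Agent.MP1a66bd
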