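import Pool.Agent.Lib.MP_1a66bd_gt.Avg
import Pool.Agent.Lib.MP_1a66bd_gt.Coc2
import Pool.Agent.Lib.MP_1a66bd_gt.Cpx
import Pool.Agent.Lib.MP_1a66bd_gt.Om

/-!
# The mean value of the Pfaffian of a closed form
-/

set_option autoImplicit false

noncomputable section

namespace Pool.Agent.MP1a66bd

open Finset

variable {j : ℕ} [NeZero j]

/-- The integral of the top power of a closed 2-form is a non-negative multiple of the one of the
left invariant symplectic form: `mean_avf`; `avf B p` has the mixed part `b x y = bb B (x, 0) (0, y)`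
and vanishes on the second factor (`avf_ww`, `avf_vw`, `avf_antisymm`); `b` satisfies the hypothesis
of `cpx_lin` by `bb_cocycle`; `exists_cpx`, `wd_of_vw`, `wd_om`, `det_cpx_nonneg`, `mean_const`. -/
theorem mean_pf (hj : 3 ≤ j) {B : Cov j → Bil j} (hB : Cl B) :
    ∃ d : ℝ, 0 ≤ d ∧ Mean (fun p => pf fun _ => B p) =
      d * Wd (fun _ : KK j => om (LinearMap.id : Vec j →ₗ[ℝ] Vec j)) (bs j) := by
  have hc : Continuous B := hB.diff.continuous
  have hal : ∀ x x' y : Cov j, bb B (x + x') y = bb B x y + bb B x' y := bb_add_left hc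
  have har : ∀ x y y' : Cov j, bb B x (y + y') = bb B x y + bb B x y' := by
    intro x y y'
    rw [bb_antisymm hB (y + y') x, bb_antisymm hB y x, bb_antisymm hB y' x, hal]
    ring
  have hsr : ∀ (c : ℝ) (x y : Cov j), bb B x (c • y) = c * bb B x y := by
    intro c x y
    rw [bb_antisymm hB (c • y) x, bb_antisymm hB y x, bb_smul_left]
    ring
  obtain ⟨b, hb⟩ : ∃ b : Vec j →ₗ[ℝ] Vec j →ₗ[ℝ] ℝ,
      ∀ x w, b x w = bb B (x, 0) (0, w) := by
    refine ⟨LinearMap.mk₂ ℝ (fun x w => bb B (x, 0) (0, w)) ?_ ?_ ?_ ?_, fun x w => rfl⟩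
    · intro x x' w
      rw [← hal]
      simp
    · intro c x w
      rw [smul_eq_mul, ← bb_smul_left]
      simp
    · intro x w w'
      rw [← har]
      simp
    · intro c x w
      rw [smul_eq_mul, ← hsr]
      simp
  have hcoc : ∀ x y z, b x (br y z) + b y (br z x) + b z (br x y) = 0 := by
    intro x y z
    have h1 := bb_cocycle hB (y, 0) (z, 0) (x, 0)
    dsimp only at h1
    rw [bb_antisymm hB (x, 0) (0, br y z), bb_antisymm hB (y, 0) (0, br z x),
      bb_antisymm hB (z, 0) (0, br x y)] at h1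
    rw [hb, hb, hb]
    linarith
  obtain ⟨A, hA⟩ := exists_cpx b (fun x w => cpx_lin hj b hcoc x w)
  refine ⟨LinearMap.det (A.restrictScalars ℝ), det_cpx_nonneg A, ?_⟩
  rw [← mean_avf hB]
  have h2 : ∀ p : Cov j, Wd (fun _ : KK j => avf B p) (bs j) =
      LinearMap.det (A.restrictScalars ℝ) *
        Wd (fun _ : KK j => om (LinearMap.id : Vec j →ₗ[ℝ] Vec j)) (bs j) := by
    intro p
    rw [← wd_om]
    refine wd_of_vw (A.restrictScalars ℝ) (avf B p) (fun y y' => avf_ww hj hB p y y') ?_ ?_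
    · intro x y
      rw [avf_vw hj hB, ← hb, hA]
      rfl
    · intro x y
      rw [avf_antisymm hB, avf_vw hj hB, ← hb, hA]
      rfl
  simp only [h2]
  exact mean_const _

end Pool.Agent.MP1a66bd
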