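import Pool.Agent.Lib.MP_1a66bd_gt.Alt
import Pool.Agent.Lib.MP_1a66bd_gt.Gram

/-!
# Symplectic bases; the Pfaffian of a non-degenerate form
-/

set_option autoImplicit false

noncomputable section

namespace Pool.Agent.MP1a66bd

open Finset

/-- Existence of a symplectic basis, by induction on `n` for `K = Fin n` (all spaces `E`): choose
`x ≠ 0` and `y` with `B x y = 1`; the subspace `E' = {z | B x z = 0 ∧ B y z = 0}` has dimension
`2 n - 2` (every `u` is `B u y • x + B x u • y + u'` with `u' ∈ E'`), `B` is non-degenerate on it. -/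
theorem exists_gram_fin (n : ℕ) : ∀ {E : Type} [AddCommGroup E] [Module ℝ E]
    [FiniteDimensional ℝ E] (B : E →ₗ[ℝ] E →ₗ[ℝ] ℝ), (∀ x, B x x = 0) →
    (∀ x, x ≠ 0 → ∃ y, B x y ≠ 0) → Module.finrank ℝ E = 2 * n →
    ∃ x : Fin n ⊕ Fin n → E, Gr (fun y z => B y z) x := by
  induction n with
  | zero =>
    intro E _ _ _ B _ _ _
    refine ⟨fun s => s.elim (fun i => i.elim0) (fun i => i.elim0), ?_⟩
    constructor <;> intro i <;> exact i.elim0
  | succ n ih =>
    intro E _ _ _ B ha hn hd
    have hneg : ∀ a b, B a b = -B b a := by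
      intro a b
      have h1 := ha (a + b)
      simp only [map_add, LinearMap.add_apply, ha a, ha b] at h1
      linarith
    have hnt : Nontrivial E := Module.nontrivial_of_finrank_pos (R := ℝ) (by omega)
    obtain ⟨x, hx⟩ := exists_ne (0 : E)
    obtain ⟨y0, hy0⟩ := hn x hx
    set y : E := (B x y0)⁻¹ • y0 with hy
    have hxy : B x y = 1 := by
      rw [hy, map_smul, smul_eq_mul, inv_mul_cancel₀ hy0]
    have hyx : B y x = -1 := by rw [hneg, hxy]
    let T : E →ₗ[ℝ] ℝ × ℝ := (B x).prod (B y)
    have hT : ∀ z, z ∈ LinearMap.ker T ↔ B x z = 0 ∧ B y z = 0 := by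
      intro z
      rw [LinearMap.mem_ker]
      simp [T]
    have hsurj : LinearMap.range T = ⊤ := by
      rw [LinearMap.range_eq_top]
      rintro ⟨a, b⟩
      refine ⟨a • y - b • x, ?_⟩
      apply Prod.ext
      · simp [T, ha, hxy]
      · simp [T, ha, hyx]
    have hfr : Module.finrank ℝ (LinearMap.ker T) = 2 * n := by
      have h1 := LinearMap.finrank_range_add_finrank_ker T
      rw [hsurj, finrank_top, Module.finrank_prod, Module.finrank_self, hd] at h1
      omega
    obtain ⟨x', hx'⟩ := ih (B.compl₁₂ (LinearMap.ker T).subtype (LinearMap.ker T).subtype)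
      (fun z => by
        rw [LinearMap.compl₁₂_apply]
        exact ha _)
      (fun z hz => by
        have hz' : (z : E) ≠ 0 := fun h => hz (Subtype.ext h)
        obtain ⟨u, hu⟩ := hn z hz'
        have hzk := (hT z).1 z.2
        have hzx : B (z : E) x = 0 := by rw [hneg, hzk.1, neg_zero]
        have hzy : B (z : E) y = 0 := by rw [hneg, hzk.2, neg_zero]
        have hmem : u - B u y • x - B x u • y ∈ LinearMap.ker T := by
          rw [hT]
          constructor
          · simp only [map_sub, map_smul, smul_eq_mul, ha, hxy]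
            ring
          · simp only [map_sub, map_smul, smul_eq_mul, ha, hyx]
            rw [hneg y u]
            ring
        refine ⟨⟨_, hmem⟩, ?_⟩
        rw [LinearMap.compl₁₂_apply]
        simp only [Submodule.coe_subtype, map_sub, map_smul, smul_eq_mul, hzx, hzy, mul_zero,
          sub_zero]
        exact hu) hfr
    have hval : ∀ s s', (B.compl₁₂ (LinearMap.ker T).subtype (LinearMap.ker T).subtype)
        (x' s) (x' s') = B (x' s : E) (x' s' : E) := fun s s' => rfl
    have hk : ∀ s, B x (x' s : E) = 0 ∧ B y (x' s : E) = 0 := fun s => (hT _).1 (x' s).2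
    have hk' : ∀ s, B (x' s : E) x = 0 ∧ B (x' s : E) y = 0 := fun s => by
      rw [hneg _ x, hneg _ y, (hk s).1, (hk s).2, neg_zero]
      exact ⟨rfl, rfl⟩
    refine ⟨Sum.elim (Fin.cons x fun i => (x' (Sum.inl i) : E))
      (Fin.cons y fun i => (x' (Sum.inr i) : E)), ?_⟩
    constructor
    · intro i i'
      refine Fin.cases ?_ (fun i => ?_) i <;> refine Fin.cases ?_ (fun i' => ?_) i'
      · simpa using ha x
      · simpa using (hk (Sum.inl i')).1
      · simpa using (hk' (Sum.inl i)).1
      · simpa using hx'.ll i i'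
    · intro i i'
      refine Fin.cases ?_ (fun i => ?_) i <;> refine Fin.cases ?_ (fun i' => ?_) i'
      · simpa using ha y
      · simpa using (hk (Sum.inr i')).2
      · simpa using (hk' (Sum.inr i)).2
      · simpa using hx'.rr i i'
    · intro i i'
      refine Fin.cases ?_ (fun i => ?_) i <;> refine Fin.cases ?_ (fun i' => ?_) i'
      · simpa using hxy
      · simpa [(Fin.succ_ne_zero i').symm] using (hk (Sum.inr i')).1
      · simpa [Fin.succ_ne_zero i] using (hk' (Sum.inl i)).2
      · simpa using hx'.lr i i'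
    · intro i i'
      refine Fin.cases ?_ (fun i => ?_) i <;> refine Fin.cases ?_ (fun i' => ?_) i'
      · simpa using hyx
      · simpa [(Fin.succ_ne_zero i').symm] using (hk (Sum.inl i')).2
      · simpa [Fin.succ_ne_zero i] using (hk' (Sum.inr i)).1
      · simpa using hx'.rl i i'

/-- From `exists_gram_fin`, `Wd_gram_pos` and `Wd_det` (transport along `K ≃ Fin n`). -/
theorem Wd_ne_zero {K : Type} [Fintype K] [DecidableEq K] {E : Type} [AddCommGroup E] [Module ℝ E]
    (B : E →ₗ[ℝ] E →ₗ[ℝ] ℝ) (ha : ∀ x, B x x = 0) (hn : ∀ x, x ≠ 0 → ∃ y, B x y ≠ 0)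
    (b : Module.Basis (K ⊕ K) ℝ E) : Wd (fun (_ : K) y z => B y z) b ≠ 0 := by
  have : FiniteDimensional ℝ E := Module.Finite.of_basis b
  have hfr : Module.finrank ℝ E = 2 * Fintype.card K := by
    rw [Module.finrank_eq_card_basis b, Fintype.card_sum]
    ring
  obtain ⟨x, hx⟩ := exists_gram_fin (Fintype.card K) B ha hn hfr
  let e : K ≃ Fin (Fintype.card K) := Fintype.equivFin K
  have hg : Gr (fun y z => B y z) (fun s : K ⊕ K => x (Sum.map e e s)) := by
    constructor
    · intro i i'
      exact hx.ll _ _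
    · intro i i'
      exact hx.rr _ _
    · intro i i'
      have h1 := hx.lr (e i) (e i')
      simp only [EmbeddingLike.apply_eq_iff_eq] at h1
      exact h1
    · intro i i'
      have h1 := hx.rl (e i) (e i')
      simp only [EmbeddingLike.apply_eq_iff_eq] at h1
      exact h1
  have h1 := Wd_gram_pos _ _ hg
  have h2 := Wd_det (fun _ : K => B) b (fun s : K ⊕ K => x (Sum.map e e s))
  intro h3
  rw [h2, h3, mul_zero] at h1
  exact lt_irrefl _ h1

end Pool.Agent.MP1a66bd
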