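import Pool.Agent.Lib.MP_1a66bd_gt.Defs

/-!
# Integration of periodic functions on `ℂ^j`
-/

set_option autoImplicit false

noncomputable section

namespace Pool.Agent.MP1a66bd

open MeasureTheory

variable {j : ℕ}

/-- periodic functions on `ℂ^j` -/
def Per (f : Vec j → ℝ) : Prop := ∀ (a : Fin j → GaussianInt) (v : Vec j), f (toV a + v) = f v

/-- the unit square -/
private def Sq : Set ℂ := {z | 0 ≤ z.re ∧ z.re < 1 ∧ 0 ≤ z.im ∧ z.im < 1}

private theorem bx_eq : Bx j = Set.pi Set.univ fun _ => Sq := by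
  ext v
  simp only [Bx, Sq, Set.mem_pi, Set.mem_univ, forall_const, Set.mem_ofPred_eq]

private theorem sq_eq : Sq = Complex.measurableEquivRealProd ⁻¹'
    (Set.Ico (0 : ℝ) 1 ×ˢ Set.Ico (0 : ℝ) 1) := by
  ext z
  simp only [Sq, Set.mem_ofPred_eq, Set.mem_preimage, Set.mem_prod, Set.mem_Ico,
    Complex.measurableEquivRealProd_apply, and_assoc]

private theorem sq_meas : MeasurableSet Sq := by
  rw [sq_eq]
  exact Complex.measurableEquivRealProd.measurable (measurableSet_Ico.prod measurableSet_Ico)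

private theorem sq_vol : volume Sq = 1 := by
  rw [sq_eq, Complex.volume_preserving_equiv_real_prod.measure_preimage
    (measurableSet_Ico.prod measurableSet_Ico).nullMeasurableSet, Measure.volume_eq_prod,
    Measure.prod_prod, Real.volume_Ico]
  simp

theorem bx_meas : MeasurableSet (Bx j) := by
  rw [bx_eq]
  exact MeasurableSet.univ_pi fun _ => sq_meas

theorem bx_bdd : Bornology.IsBounded (Bx j) := by
  rw [isBounded_iff_forall_norm_le]
  refine ⟨2, fun v hv => ?_⟩
  rw [pi_norm_le_iff_of_nonneg (by norm_num)]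
  intro i
  obtain ⟨h1, h2, h3, h4⟩ := hv i
  refine (Complex.norm_le_abs_re_add_abs_im _).trans ?_
  rw [abs_of_nonneg h1, abs_of_nonneg h3]
  linarith

/-- `Bx j` is a product of unit squares of `ℂ` (`volume_pi_pi`,
`Complex.volume_preserving_equiv_real_prod`). -/
theorem bx_vol : volume (Bx j) = 1 := by
  rw [bx_eq, volume_pi_pi]
  simp [sq_vol]

private theorem tc_re (z : GaussianInt) : (GaussianInt.toComplex z).re = (z.re : ℝ) := by
  rw [GaussianInt.toComplex_def]
  simp

private theorem tc_im (z : GaussianInt) : (GaussianInt.toComplex z).im = (z.im : ℝ) := by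
  rw [GaussianInt.toComplex_def]
  simp

/-- every vector has a unique translate in the box (integer parts) -/
theorem bx_exists (v : Vec j) : ∃ a : Fin j → GaussianInt, toV a + v ∈ Bx j := by
  refine ⟨fun i => ⟨-⌊(v i).re⌋, -⌊(v i).im⌋⟩, fun i => ?_⟩
  have h1 := Int.floor_le (v i).re
  have h2 := Int.lt_floor_add_one (v i).re
  have h3 := Int.floor_le (v i).im
  have h4 := Int.lt_floor_add_one (v i).im
  simp only [toV, Pi.add_apply, Complex.add_re, Complex.add_im, tc_re, tc_im]
  push_cast
  refine ⟨?_, ?_, ?_, ?_⟩ <;> linarith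

private theorem int_eq {m n : ℤ} {t : ℝ} (h1 : 0 ≤ (m : ℝ) + t) (h2 : (m : ℝ) + t < 1)
    (h3 : 0 ≤ (n : ℝ) + t) (h4 : (n : ℝ) + t < 1) : m = n := by
  have h5 : (m : ℝ) < n + 1 := by linarith
  have h6 : (n : ℝ) < m + 1 := by linarith
  have h7 : m < n + 1 := by exact_mod_cast h5
  have h8 : n < m + 1 := by exact_mod_cast h6
  omega

theorem bx_unique (v : Vec j) (a b : Fin j → GaussianInt) (ha : toV a + v ∈ Bx j)
    (hb : toV b + v ∈ Bx j) : a = b := by
  funext i
  have h1 := ha i
  have h2 := hb i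
  simp only [toV, Pi.add_apply, Complex.add_re, Complex.add_im, tc_re, tc_im] at h1 h2
  exact Zsqrtd.ext (int_eq h1.1 h1.2.1 h2.1 h2.2.1) (int_eq h1.2.2.1 h1.2.2.2 h2.2.2.1 h2.2.2.2)

/-- a continuous function is integrable on the box -/
theorem bx_integrable {f : Vec j → ℝ} (hf : Continuous f) : IntegrableOn f (Bx j) :=
  (hf.continuousOn.integrableOn_compact bx_bdd.isCompact_closure).mono_set subset_closure

end Pool.Agent.MP1a66bd
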